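import Pool.Agent.LibSP52.F2
import Pool.Agent.LibSP52.F1

/-!
# The sprawl conjecture in dimension 4: the lower bound

Board SP93 (architect helper93).  Paper proof: helper37 (notes_MP_c499fd_helper37.md, v3 A), scheme helper23.
`sg 4` is the uniform probability measure of the unit sphere of `R^4`, `cm N` the cone measure (LibSP52.Defs).
-/

set_option autoImplicit false

open MeasureTheory Set

namespace Pool.Agent.LibSP93

open Pool.Agent.LibSP74 Pool.Agent.LibSP52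

instance s4_prob : IsProbabilityMeasure (sg 4) := isProb_cm (isN_nrm 4)

/-- The vector kernel. -/
noncomputable def kk (θ ζ : E 4) : E 4 :=
  (6 * |inner ℝ θ ζ| * inner ℝ θ ζ) • ζ - (2 * |inner ℝ θ ζ|) • θ

/-- The operator with the kernel `kk`. -/
noncomputable def BB (F : E 4 → ℝ) (θ : E 4) : E 4 := ∫ ζ, F ζ • kk θ ζ ∂(sg 4)

/-- The part of degree 4 (up to the factor 80). -/
noncomputable def hh (F : E 4 → ℝ) (η : E 4) : ℝ := ∫ ζ, F ζ * inner ℝ η ζ ^ 4 ∂(sg 4)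

/-- A quarter of its gradient. -/
noncomputable def vv (F : E 4 → ℝ) (θ : E 4) : E 4 := ∫ ζ, (F ζ * inner ℝ θ ζ ^ 3) • ζ ∂(sg 4)

/-- `F` is orthogonal to the polynomials of degree 0 and 2. -/
structure Ort (F : E 4 → ℝ) : Prop where
  cont : Continuous F
  zero : ∫ ζ, F ζ ∂(sg 4) = 0
  two : ∀ u : E 4, ∫ ζ, F ζ * inner ℝ u ζ ^ 2 ∂(sg 4) = 0

/-- `F` is orthogonal to the polynomials of degree 0, 2 and 4. -/
structure Ort4 (F : E 4 → ℝ) : Prop extends Ort F where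
  four : ∀ u : E 4, ∫ ζ, F ζ * inner ℝ u ζ ^ 4 ∂(sg 4) = 0

/-- The joint moments of two orthogonal coordinates. -/
noncomputable def mo (i j : ℕ) : ℝ := ∫ ζ : E 4, |ζ 0| ^ i * ζ 1 ^ (2 * j) ∂(sg 4)

/-- The mean of `N (t - s φ)` over the unit sphere. -/
noncomputable def Ph4 (N : E 4 → ℝ) (t : E 4) (s : ℝ) : ℝ := ∫ φ, N (t - s • φ) ∂(sg 4)

/-- The remainder of the kernel after subtraction of polynomials. -/
noncomputable def kr (θ ζ : E 4) : E 4 :=
  (6 * |inner ℝ θ ζ| * inner ℝ θ ζ - inner ℝ θ ζ - 35 / 4 * inner ℝ θ ζ ^ 3 +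
      9 / 2 * inner ℝ θ ζ ^ 5) • ζ -
    (2 * |inner ℝ θ ζ| - 1 / 5 - 15 / 4 * inner ℝ θ ζ ^ 2 + 5 / 2 * inner ℝ θ ζ ^ 4) • θ

end Pool.Agent.LibSP93
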