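import Pool.Agent.LibSP93.T1

/-!
[SP93 F1] `pt`: multiply by `n^6`: the difference is `(n-1)² (-11n⁶+10n⁵+7n⁴+4n³+n²-2n-1)` and the second factor is `≥ .07` on the interval.
`int_ineq`: `n = N ζ / a`, `a = ∫ N > 0`; for `‖ζ‖ = 1` the hypotheses give `n ∈ [.589, 1.4727]` (`3.1415 < π < 3.1416`); integrate `pt`
(`∫ n = 1`).  The functions `(N ζ ^ 6)⁻¹` are continuous away from `0` only: integrability from the bounds on the sphere (`Integrable.of_bound`,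
measurability from `h.cont`).
-/

set_option autoImplicit false

open MeasureTheory Set

namespace Pool.Agent.LibSP93

open Pool.Agent.LibSP74 Pool.Agent.LibSP52

private lemma q_nonneg {n : ℝ} (h1 : 589 / 1000 ≤ n) (h2 : n ≤ 14727 / 10000) :
    0 ≤ -11 * n ^ 6 + 10 * n ^ 5 + 7 * n ^ 4 + 4 * n ^ 3 + n ^ 2 - 2 * n - 1 := by
  have hx : 0 ≤ n - 589 / 1000 := by linarith
  have hy : 0 ≤ 14727 / 10000 - n := by linarith
  have e0 := pow_nonneg hy 6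
  have e1 := mul_nonneg (pow_nonneg hx 1) (pow_nonneg hy 5)
  have e2 := mul_nonneg (pow_nonneg hx 2) (pow_nonneg hy 4)
  have e3 := mul_nonneg (pow_nonneg hx 3) (pow_nonneg hy 3)
  have e4 := mul_nonneg (pow_nonneg hx 4) (pow_nonneg hy 2)
  have e5 := mul_nonneg (pow_nonneg hx 5) (pow_nonneg hy 1)
  have e6 := pow_nonneg hx 6
  linarith

theorem pt {n : ℝ} (h1 : 589 / 1000 ≤ n) (h2 : n ≤ 14727 / 10000) :
    11 * (n - 1) ^ 2 + (n ^ 6)⁻¹ - 1 + 6 * (n - 1) ≤ 4 * ((n ^ 4)⁻¹ - 1 + 4 * (n - 1)) := by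
  have hn : 0 < n := by linarith
  have hq := q_nonneg h1 h2
  have h6 : 0 < n ^ 6 := by positivity
  have e : 4 * ((n ^ 4)⁻¹ - 1 + 4 * (n - 1)) - (11 * (n - 1) ^ 2 + (n ^ 6)⁻¹ - 1 + 6 * (n - 1)) =
      (n - 1) ^ 2 * (-11 * n ^ 6 + 10 * n ^ 5 + 7 * n ^ 4 + 4 * n ^ 3 + n ^ 2 - 2 * n - 1) /
        n ^ 6 := by
    field_simp
    ring
  have := div_nonneg (mul_nonneg (sq_nonneg (n - 1)) hq) h6.le
  linarith

private lemma exists_unit : ∃ u : E 4, ‖u‖ = 1 :=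
  ⟨EuclideanSpace.single 0 1, by simp⟩

private lemma int_inv {N : E 4 → ℝ} (h : IsN N) {c : ℝ} (hc : 0 < c)
    (h1 : ∀ u : E 4, ‖u‖ = 1 → c ≤ N u) (k : ℕ) :
    Integrable (fun ζ : E 4 => (N ζ ^ k)⁻¹) (sg 4) := by
  refine Integrable.of_bound (C := (c ^ k)⁻¹)
    (((h.cont.pow k).measurable.inv).aestronglyMeasurable) ?_
  filter_upwards [s4_ae] with ζ hζ
  have h3 := h1 ζ hζ
  have h4 : 0 < N ζ := lt_of_lt_of_le hc h3
  rw [Real.norm_eq_abs, abs_of_nonneg (by positivity)]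
  exact inv_anti₀ (pow_pos hc k) (pow_le_pow_left₀ hc.le h3 k)

theorem int_ineq {N : E 4 → ℝ} (h : IsN N) {a : ℝ} (ha : a = ∫ ζ, N ζ ∂(sg 4))
    (h1 : ∀ u : E 4, ‖u‖ = 1 → 3 * Real.pi / 16 * a ≤ N u)
    (h2 : ∀ u : E 4, ‖u‖ = 1 → N u ≤ 15 * Real.pi / 32 * a) :
    11 * (∫ ζ, (N ζ - a) ^ 2 ∂(sg 4)) / a ^ 2 + a ^ 6 * (∫ ζ, (N ζ ^ 6)⁻¹ ∂(sg 4)) - 1 ≤
      4 * (a ^ 4 * (∫ ζ, (N ζ ^ 4)⁻¹ ∂(sg 4)) - 1) := by
  have hp1 := Real.pi_gt_d4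
  have hp2 := Real.pi_lt_d4
  have hapos : 0 < a := by
    obtain ⟨u, hu⟩ := exists_unit
    have hu0 : u ≠ 0 := by
      intro hh
      rw [hh, norm_zero] at hu
      exact zero_ne_one hu
    have h3 := h.pos u hu0
    have h4 := h2 u hu
    by_contra hcon
    have h5 : 15 * Real.pi / 32 * a ≤ 0 :=
      mul_nonpos_of_nonneg_of_nonpos (by positivity) (not_lt.1 hcon)
    linarith
  have hc : 0 < 3 * Real.pi / 16 * a := by positivity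
  have iN : Integrable N (sg 4) := s4_int h.cont
  have i2 : Integrable (fun ζ : E 4 => (N ζ - a) ^ 2) (sg 4) :=
    s4_int ((h.cont.sub continuous_const).pow 2)
  have i6 := int_inv h hc h1 6
  have i4 := int_inv h hc h1 4
  have e : ∫ ζ, (4 * a ^ 4 * (N ζ ^ 4)⁻¹ + (-a ^ 6) * (N ζ ^ 6)⁻¹ + (-11 / a ^ 2) * (N ζ - a) ^ 2 +
        (10 / a) * N ζ + (-13)) ∂(sg 4) =
      4 * a ^ 4 * (∫ ζ, (N ζ ^ 4)⁻¹ ∂(sg 4)) + (-a ^ 6) * (∫ ζ, (N ζ ^ 6)⁻¹ ∂(sg 4)) +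
        (-11 / a ^ 2) * (∫ ζ, (N ζ - a) ^ 2 ∂(sg 4)) + (10 / a) * (∫ ζ, N ζ ∂(sg 4)) + (-13) := by
    have j4 := i4.const_mul (4 * a ^ 4)
    have j6 := i6.const_mul (-a ^ 6)
    have j2 := i2.const_mul (-11 / a ^ 2)
    have j1 := iN.const_mul (10 / a)
    have s1 : Integrable (fun ζ : E 4 => 4 * a ^ 4 * (N ζ ^ 4)⁻¹ + (-a ^ 6) * (N ζ ^ 6)⁻¹) (sg 4) :=
      j4.add j6
    have s2 : Integrable (fun ζ : E 4 => 4 * a ^ 4 * (N ζ ^ 4)⁻¹ + (-a ^ 6) * (N ζ ^ 6)⁻¹ +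
        (-11 / a ^ 2) * (N ζ - a) ^ 2) (sg 4) := s1.add j2
    have s3 : Integrable (fun ζ : E 4 => 4 * a ^ 4 * (N ζ ^ 4)⁻¹ + (-a ^ 6) * (N ζ ^ 6)⁻¹ +
        (-11 / a ^ 2) * (N ζ - a) ^ 2 + (10 / a) * N ζ) (sg 4) := s2.add j1
    rw [integral_add s3 (integrable_const _), integral_add s2 j1, integral_add s1 j2,
      integral_add j4 j6,
      integral_const_mul, integral_const_mul, integral_const_mul, integral_const_mul,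
      integral_const, probReal_univ, one_smul]
  have key : 0 ≤ ∫ ζ, (4 * a ^ 4 * (N ζ ^ 4)⁻¹ + (-a ^ 6) * (N ζ ^ 6)⁻¹ +
      (-11 / a ^ 2) * (N ζ - a) ^ 2 + (10 / a) * N ζ + (-13)) ∂(sg 4) := by
    refine integral_nonneg_of_ae ?_
    filter_upwards [s4_ae] with ζ hζ
    have h3 := h1 ζ hζ
    have h4 := h2 ζ hζ
    have hN : 0 < N ζ := lt_of_lt_of_le hc h3
    have h5 : 589 / 1000 ≤ N ζ / a := by
      rw [le_div_iff₀ hapos]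
      refine le_trans ?_ h3
      exact mul_le_mul_of_nonneg_right (by linarith) hapos.le
    have h6 : N ζ / a ≤ 14727 / 10000 := by
      rw [div_le_iff₀ hapos]
      refine le_trans h4 ?_
      exact mul_le_mul_of_nonneg_right (by linarith) hapos.le
    have h7 := pt h5 h6
    have e6 : ((N ζ / a) ^ 6)⁻¹ = a ^ 6 * (N ζ ^ 6)⁻¹ := by
      field_simp
    have e4 : ((N ζ / a) ^ 4)⁻¹ = a ^ 4 * (N ζ ^ 4)⁻¹ := by
      field_simp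
    have e2 : (N ζ / a - 1) ^ 2 = 1 / a ^ 2 * (N ζ - a) ^ 2 := by
      field_simp
    have e1 : N ζ / a = 1 / a * N ζ := by ring
    rw [e6, e4, e2, e1] at h7
    show 0 ≤ 4 * a ^ 4 * (N ζ ^ 4)⁻¹ + (-a ^ 6) * (N ζ ^ 6)⁻¹ +
      (-11 / a ^ 2) * (N ζ - a) ^ 2 + (10 / a) * N ζ + (-13)
    have e7 : 4 * a ^ 4 * (N ζ ^ 4)⁻¹ + (-a ^ 6) * (N ζ ^ 6)⁻¹ +
      (-11 / a ^ 2) * (N ζ - a) ^ 2 + (10 / a) * N ζ + (-13) =
      4 * (a ^ 4 * (N ζ ^ 4)⁻¹ - 1 + 4 * (1 / a * N ζ - 1)) -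
        (11 * (1 / a ^ 2 * (N ζ - a) ^ 2) + a ^ 6 * (N ζ ^ 6)⁻¹ - 1 + 6 * (1 / a * N ζ - 1)) := by
      ring
    rw [e7]
    linarith
  rw [e, ← ha] at key
  have e8 : 10 / a * a = 10 := by field_simp
  have e9 : 11 * (∫ ζ, (N ζ - a) ^ 2 ∂(sg 4)) / a ^ 2 =
      -((-11 / a ^ 2) * (∫ ζ, (N ζ - a) ^ 2 ∂(sg 4))) := by ring
  rw [e8] at key
  rw [e9]
  linarith

end Pool.Agent.LibSP93
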