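import Pool.Agent.LibSP93.Defs

/-!
[SP93 F2] PAPER PROOF.  `p = a ρ ≥ 1`, `X = a⁶ Q - p⁶`; `Q/P ≥ ρ²` gives `X ≥ 0`.  `11 V/a² + X ≤ 4p⁴ - 3 - p⁶ ≤ 10 p² (p-1)` because
`p⁶ - 4p⁴ + 10p³ - 10p² + 3 = (p-1)² (p⁴+2p³-p²+6p+3)`.  `(11/25) V (Q/P - ρ²) = (1/25) (11 V/a²) X / p⁴ ≤ (1/100) (11V/a² + X)² / p⁴ ≤ (p-1)²`.
-/

set_option autoImplicit false

open MeasureTheory Set

namespace Pool.Agent.LibSP93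

open Pool.Agent.LibSP74 Pool.Agent.LibSP52

theorem scalar {a V P Q ρ : ℝ} (ha : 0 < a) (hV : 0 ≤ V) (hρ : 0 < ρ) (hP : P = ρ ^ 4)
    (hp : 1 ≤ a * ρ) (hM : ρ ^ 2 ≤ Q / P)
    (hi : 11 * V / a ^ 2 + a ^ 6 * Q - 1 ≤ 4 * (a ^ 4 * P - 1)) :
    11 / 25 * V * (Q / P - ρ ^ 2) ≤ (a * ρ - 1) ^ 2 := by
  subst hP
  obtain ⟨p, hpd⟩ : ∃ p, p = a * ρ := ⟨_, rfl⟩
  obtain ⟨W, hW⟩ : ∃ W, W = 11 * V / a ^ 2 := ⟨_, rfl⟩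
  obtain ⟨X, hX⟩ : ∃ X, X = a ^ 6 * Q - p ^ 6 := ⟨_, rfl⟩
  have hW0 : 0 ≤ W := by rw [hW]; positivity
  have hρ4 : 0 < ρ ^ 4 := by positivity
  have hX0 : 0 ≤ X := by
    have h1 : ρ ^ 2 * ρ ^ 4 ≤ Q := by rwa [le_div_iff₀ hρ4] at hM
    have h2 : a ^ 6 * (ρ ^ 2 * ρ ^ 4) ≤ a ^ 6 * Q := mul_le_mul_of_nonneg_left h1 (by positivity)
    rw [hX, hpd]
    nlinarith
  rw [← hpd] at hp ⊢
  have h3 : W + X ≤ 10 * p ^ 2 * (p - 1) := by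
    have h4 : a ^ 4 * ρ ^ 4 = p ^ 4 := by rw [hpd]; ring
    have h5 : W + X ≤ 4 * p ^ 4 - 3 - p ^ 6 := by
      rw [hX, hW]
      linarith
    have h6 : 0 ≤ (p - 1) ^ 2 * (p ^ 4 + 2 * p ^ 3 - p ^ 2 + 6 * p + 3) := by
      apply mul_nonneg (sq_nonneg _)
      nlinarith [pow_pos (lt_of_lt_of_le one_pos hp) 3, pow_pos (lt_of_lt_of_le one_pos hp) 4,
        mul_nonneg (sq_nonneg p) (sub_nonneg.2 hp)]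
    nlinarith
  have h7 : W * X ≤ 25 * p ^ 4 * (p - 1) ^ 2 := by
    have h8 : (W + X) ^ 2 ≤ (10 * p ^ 2 * (p - 1)) ^ 2 :=
      pow_le_pow_left₀ (add_nonneg hW0 hX0) h3 2
    nlinarith [sq_nonneg (W - X)]
  have hp0 : 0 < p := lt_of_lt_of_le one_pos hp
  have h9 : 11 / 25 * V * (Q / ρ ^ 4 - ρ ^ 2) = W * X / (25 * p ^ 4) := by
    rw [hW, hX, hpd]
    field_simp
  rw [h9, div_le_iff₀ (by positivity)]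
  linarith

end Pool.Agent.LibSP93
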