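import Pool.Agent.LibSP93.Defs

/-!
[SP93 T1] Integrability of continuous functions for `sg 4` and `sg 4 × sg 4` (both measures live on the compact unit sphere):
`s4_ae` is `ae_cm (isN_nrm 4)`; `Integrable.of_bound` with the bound from `(isCompact_sphere 0 1).exists_bound_of_continuousOn`,
for the product use `Measure.quasiMeasurePreserving_fst.ae` and `_snd.ae` (see `m_int2` in LibSP52/M.lean).
-/

set_option autoImplicit false

open MeasureTheory Set

namespace Pool.Agent.LibSP93

open Pool.Agent.LibSP74 Pool.Agent.LibSP52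

theorem s4_ae : ∀ᵐ ζ ∂(sg 4), ‖ζ‖ = 1 := ae_cm (isN_nrm 4) (by norm_num)

theorem s4_int {G : Type*} [NormedAddCommGroup G] {f : E 4 → G} (hf : Continuous f) :
    Integrable f (sg 4) := by
  obtain ⟨C, hC⟩ := (isCompact_sphere (0 : E 4) 1).exists_bound_of_continuousOn hf.continuousOn
  refine Integrable.of_bound hf.aestronglyMeasurable C ?_
  filter_upwards [s4_ae] with ζ hζ
  exact hC ζ (by rw [mem_sphere_zero_iff_norm]; exact hζ)

theorem s4_int2 {G : Type*} [NormedAddCommGroup G] {f : E 4 × E 4 → G} (hf : Continuous f) :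
    Integrable f ((sg 4).prod (sg 4)) := by
  obtain ⟨C, hC⟩ := ((isCompact_sphere (0 : E 4) 1).prod
    (isCompact_sphere (0 : E 4) 1)).exists_bound_of_continuousOn hf.continuousOn
  refine Integrable.of_bound hf.aestronglyMeasurable C ?_
  have h1 : ∀ᵐ q ∂((sg 4).prod (sg 4)), ‖q.1‖ = 1 := Measure.quasiMeasurePreserving_fst.ae s4_ae
  have h2 : ∀ᵐ q ∂((sg 4).prod (sg 4)), ‖q.2‖ = 1 := Measure.quasiMeasurePreserving_snd.ae s4_ae
  filter_upwards [h1, h2] with q hq1 hq2
  exact hC q ⟨by rw [mem_sphere_zero_iff_norm]; exact hq1, by rw [mem_sphere_zero_iff_norm]; exact hq2⟩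

end Pool.Agent.LibSP93
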