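import Pool.Agent.LibSP93.K2
import Pool.Agent.LibSP93.T1

/-!
[SP93 M1] Tools for couplings: COPY of LibSP52/M.lean (`m_tri`, `m_ae`, `m_compact`, `m_int`, `m_int2`, `m_snd`, `m_fst`, and the computations
`I1`, `I2`, `I4` inside `m_step`) with 3 replaced by 4.  `c_diff`: `integral_prod`, then `c_snd` for the inner integral: `∫ q, N (g p - q.2) ∂π = Ph4 N (g p) 1`.
`c_diff'` is the same with the roles exchanged (`integral_prod_symm`, `h.sub_comm`).
-/

set_option autoImplicit false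

open MeasureTheory Set

namespace Pool.Agent.LibSP93

open Pool.Agent.LibSP74 Pool.Agent.LibSP52

theorem c_tri {N : E 4 → ℝ} (h : IsN N) {s L : ℝ} (hs : 0 ≤ s) (hL : s * L ≤ 2) (x y θ φ : E 4) :
    (2 - s * L) * N (θ - φ) - N ((1 - s * L) • θ - s • x - φ) -
      N (θ - ((1 - s * L) • φ - s • y)) ≤ s * N (x - y) := by
  have h1 := h.add_le ((1 - s * L) • θ - s • x - φ) (θ - ((1 - s * L) • φ - s • y))
  have h2 := h.add_le ((1 - s * L) • θ - s • x - φ + (θ - ((1 - s * L) • φ - s • y))) (s • (x - y))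
  have e : (1 - s * L) • θ - s • x - φ + (θ - ((1 - s * L) • φ - s • y)) + s • (x - y) =
      (2 - s * L) • (θ - φ) := by
    module
  rw [e, h.smul_nonneg (by linarith), h.smul_nonneg hs] at h2
  linarith

theorem c_ae {N : E 4 → ℝ} (h : IsN N) {π : Measure (E 4 × E 4)} (hπ : IsCpl N π) :
    ∀ᵐ p ∂π, N p.1 = 1 ∧ ‖p.2‖ = 1 := by
  have h1 := ae_cm h (by norm_num : (4 : ℕ) ≠ 0)
  have h2 := ae_cm (isN_nrm 4) (by norm_num : (4 : ℕ) ≠ 0)
  rw [← hπ.fst] at h1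
  have h2' : ∀ᵐ x ∂(sg 4), nrm 4 x = 1 := h2
  rw [← hπ.snd] at h2'
  have h3 := ae_of_ae_map measurable_fst.aemeasurable h1
  have h4 := ae_of_ae_map measurable_snd.aemeasurable h2'
  filter_upwards [h3, h4] with p hp hq
  exact ⟨hp, hq⟩

private theorem M1_compact {N : E 4 → ℝ} (h : IsN N) :
    IsCompact {p : E 4 × E 4 | N p.1 ≤ 1 ∧ ‖p.2‖ ≤ 1} := by
  have h1 := (h.isCompact_ball 1).prod ((isN_nrm 4).isCompact_ball 1)
  exact h1

theorem c_int {G : Type*} [NormedAddCommGroup G] {N : E 4 → ℝ} (h : IsN N) {π : Measure (E 4 × E 4)}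
    (hπ : IsCpl N π) {f : E 4 × E 4 → G} (hf : Continuous f) : Integrable f π := by
  have := hπ.prob
  obtain ⟨C, hC⟩ := (M1_compact h).exists_bound_of_continuousOn hf.continuousOn
  refine Integrable.of_bound hf.aestronglyMeasurable C ?_
  filter_upwards [c_ae h hπ] with p hp
  exact hC p ⟨hp.1.le, hp.2.le⟩

theorem c_int2 {G : Type*} [NormedAddCommGroup G] {N : E 4 → ℝ} (h : IsN N) {π : Measure (E 4 × E 4)}
    (hπ : IsCpl N π) {f : (E 4 × E 4) × (E 4 × E 4) → G} (hf : Continuous f) :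
    Integrable f (π.prod π) := by
  have := hπ.prob
  obtain ⟨C, hC⟩ := ((M1_compact h).prod (M1_compact h)).exists_bound_of_continuousOn
    hf.continuousOn
  refine Integrable.of_bound hf.aestronglyMeasurable C ?_
  have h1 : ∀ᵐ q ∂(π.prod π), q.1 ∈ {p : E 4 × E 4 | N p.1 ≤ 1 ∧ ‖p.2‖ ≤ 1} := by
    have h2 : ∀ᵐ p ∂π, p ∈ {p : E 4 × E 4 | N p.1 ≤ 1 ∧ ‖p.2‖ ≤ 1} := by
      filter_upwards [c_ae h hπ] with p hp
      exact ⟨hp.1.le, hp.2.le⟩
    exact Measure.quasiMeasurePreserving_fst.ae h2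
  have h3 : ∀ᵐ q ∂(π.prod π), q.2 ∈ {p : E 4 × E 4 | N p.1 ≤ 1 ∧ ‖p.2‖ ≤ 1} := by
    have h2 : ∀ᵐ p ∂π, p ∈ {p : E 4 × E 4 | N p.1 ≤ 1 ∧ ‖p.2‖ ≤ 1} := by
      filter_upwards [c_ae h hπ] with p hp
      exact ⟨hp.1.le, hp.2.le⟩
    exact Measure.quasiMeasurePreserving_snd.ae h2
  filter_upwards [h1, h3] with q hq1 hq2
  exact hC q ⟨hq1, hq2⟩

theorem c_snd {G : Type*} [NormedAddCommGroup G] [NormedSpace ℝ G] {N : E 4 → ℝ}
    {π : Measure (E 4 × E 4)} (hπ : IsCpl N π) {f : E 4 → G}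
    (hf : Continuous f) : ∫ p, f p.2 ∂π = ∫ φ, f φ ∂(sg 4) := by
  rw [← hπ.snd, integral_map measurable_snd.aemeasurable hf.aestronglyMeasurable]

theorem c_fst {N : E 4 → ℝ} {π : Measure (E 4 × E 4)} (hπ : IsCpl N π) {f : E 4 → ℝ}
    (hf : StronglyMeasurable f) : ∫ p, f p.1 ∂π = ∫ φ, f φ ∂(cm N) := by
  rw [← hπ.fst, integral_map measurable_fst.aemeasurable hf.aestronglyMeasurable]

theorem c_sprawl {N : E 4 → ℝ} (h : IsN N) {π : Measure (E 4 × E 4)} (hπ : IsCpl N π) :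
    ∫ q, N (q.1.1 - q.2.1) ∂(π.prod π) = sprawl N := by
  have := hπ.prob
  have hN := h.cont
  rw [integral_prod _ (c_int2 h hπ (f := fun q => N (q.1.1 - q.2.1)) (by fun_prop)), sprawl_cm h]
  have e1 : ∀ p : E 4 × E 4, ∫ q : E 4 × E 4, N (p.1 - q.1) ∂π = ∫ y, N (p.1 - y) ∂(cm N) :=
    fun p => c_fst hπ (f := fun y => N (p.1 - y))
      (hN.comp (continuous_const.sub continuous_id)).stronglyMeasurable
  simp only [e1]
  have hc : StronglyMeasurable fun x => ∫ y, N (x - y) ∂(cm N) := by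
    have h1 : StronglyMeasurable fun p : E 4 × E 4 => N (p.1 - p.2) :=
      (hN.comp (continuous_fst.sub continuous_snd)).stronglyMeasurable
    have := isProb_cm h
    exact h1.integral_prod_right
  exact c_fst hπ (f := fun x => ∫ y, N (x - y) ∂(cm N)) hc

theorem c_diff {N : E 4 → ℝ} (h : IsN N) {π : Measure (E 4 × E 4)} (hπ : IsCpl N π)
    {g : E 4 × E 4 → E 4} (hg : Continuous g) :
    ∫ q, N (g q.1 - q.2.2) ∂(π.prod π) = ∫ p, Ph4 N (g p) 1 ∂π := by
  have := hπ.prob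
  have hN := h.cont
  rw [integral_prod _ (c_int2 h hπ (f := fun q => N (g q.1 - q.2.2)) (by fun_prop))]
  refine integral_congr_ae (Filter.Eventually.of_forall fun p => ?_)
  have e1 := c_snd hπ (f := fun φ => N (g p - φ)) (by fun_prop)
  simp only [Ph4, one_smul]
  exact e1

theorem c_diff' {N : E 4 → ℝ} (h : IsN N) {π : Measure (E 4 × E 4)} (hπ : IsCpl N π)
    {g : E 4 × E 4 → E 4} (hg : Continuous g) :
    ∫ q, N (q.1.2 - g q.2) ∂(π.prod π) = ∫ p, Ph4 N (g p) 1 ∂π := by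
  have := hπ.prob
  have hN := h.cont
  rw [integral_prod_symm _ (c_int2 h hπ (f := fun q => N (q.1.2 - g q.2)) (by fun_prop))]
  refine integral_congr_ae (Filter.Eventually.of_forall fun p => ?_)
  have e2 : ∀ q : E 4 × E 4, N (q.2 - g p) = N (g p - q.2) := fun q => h.sub_comm _ _
  have e1 := c_snd hπ (f := fun φ => N (g p - φ)) (by fun_prop)
  simp only [Ph4, one_smul, e2]
  exact e1

end Pool.Agent.LibSP93
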