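import Pool.Agent.LibSP93.T2

/-!
[SP93 O1] Continuity, from `s4_cont` (the integrands are jointly continuous, `fun_prop` after `unfold kk`).
-/

set_option autoImplicit false

open MeasureTheory Set

namespace Pool.Agent.LibSP93

open Pool.Agent.LibSP74 Pool.Agent.LibSP52

theorem continuous_kk : Continuous (Function.uncurry kk) := by
  have h : Function.uncurry kk = fun p : E 4 × E 4 =>
      (6 * |inner ℝ p.1 p.2| * inner ℝ p.1 p.2) • p.2 - (2 * |inner ℝ p.1 p.2|) • p.1 := by
    funext p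
    rfl
  rw [h]
  fun_prop

theorem continuous_kr : Continuous (Function.uncurry kr) := by
  have h : Function.uncurry kr = fun p : E 4 × E 4 =>
      (6 * |inner ℝ p.1 p.2| * inner ℝ p.1 p.2 - inner ℝ p.1 p.2 -
        35 / 4 * inner ℝ p.1 p.2 ^ 3 + 9 / 2 * inner ℝ p.1 p.2 ^ 5) • p.2 -
      (2 * |inner ℝ p.1 p.2| - 1 / 5 - 15 / 4 * inner ℝ p.1 p.2 ^ 2 +
        5 / 2 * inner ℝ p.1 p.2 ^ 4) • p.1 := by
    funext p
    rfl
  rw [h]
  fun_prop

theorem continuous_BB {F : E 4 → ℝ} (hF : Continuous F) : Continuous (BB F) := by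
  have hk := continuous_kk
  have h : Continuous (Function.uncurry fun θ ζ : E 4 => F ζ • kk θ ζ) :=
    (hF.comp continuous_snd).smul hk
  exact s4_cont h

theorem continuous_hh {F : E 4 → ℝ} (hF : Continuous F) : Continuous (hh F) := by
  have h : Continuous (Function.uncurry fun η ζ : E 4 => F ζ * inner ℝ η ζ ^ 4) := by
    have h1 : (Function.uncurry fun η ζ : E 4 => F ζ * inner ℝ η ζ ^ 4) =
        fun p : E 4 × E 4 => F p.2 * inner ℝ p.1 p.2 ^ 4 := by
      funext p
      rfl
    rw [h1]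
    fun_prop
  exact s4_cont h

theorem continuous_vv {F : E 4 → ℝ} (hF : Continuous F) : Continuous (vv F) := by
  have h : Continuous (Function.uncurry fun θ ζ : E 4 => (F ζ * inner ℝ θ ζ ^ 3) • ζ) := by
    have h1 : (Function.uncurry fun θ ζ : E 4 => (F ζ * inner ℝ θ ζ ^ 3) • ζ) =
        fun p : E 4 × E 4 => (F p.2 * inner ℝ p.1 p.2 ^ 3) • p.2 := by
      funext p
      rfl
    rw [h1]
    fun_prop
  exact s4_cont h

end Pool.Agent.LibSP93
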