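import Pool.Agent.LibSP93.T1

/-!
[SP93 T2] Parametric integrals.  `s4_cont`: `sg 4 = (sg 4).restrict (Metric.sphere 0 1)` (`Measure.restrict_eq_self_of_ae_mem`, `s4_ae`)
and `continuous_parametric_integral_of_continuous` (Mathlib, Bochner/Set.lean) with `s = Metric.sphere 0 1`.
`s4_swap`: `integral_integral_swap` and `s4_int2`.
-/

set_option autoImplicit false

open MeasureTheory Set

namespace Pool.Agent.LibSP93

open Pool.Agent.LibSP74 Pool.Agent.LibSP52

theorem s4_cont {X : Type*} [TopologicalSpace X] [FirstCountableTopology X] [LocallyCompactSpace X]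
    {G : Type*} [NormedAddCommGroup G] [NormedSpace ℝ G] {f : X → E 4 → G}
    (hf : Continuous (Function.uncurry f)) : Continuous fun x => ∫ ζ, f x ζ ∂(sg 4) := by
  have h1 : (sg 4).restrict (Metric.sphere (0 : E 4) 1) = sg 4 := by
    apply Measure.restrict_eq_self_of_ae_mem
    filter_upwards [s4_ae] with ζ hζ
    rw [mem_sphere_zero_iff_norm]
    exact hζ
  have h2 := continuous_parametric_integral_of_continuous (μ := sg 4) hf
    (isCompact_sphere (0 : E 4) 1)
  rw [h1] at h2
  exact h2

theorem s4_swap {G : Type*} [NormedAddCommGroup G] [NormedSpace ℝ G] {f : E 4 → E 4 → G}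
    (hf : Continuous (Function.uncurry f)) :
    ∫ x, ∫ y, f x y ∂(sg 4) ∂(sg 4) = ∫ y, ∫ x, f x y ∂(sg 4) ∂(sg 4) :=
  integral_integral_swap (s4_int2 hf)

end Pool.Agent.LibSP93
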