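import Pool.Agent.LibSP93.Q6
import Pool.Agent.LibSP93.T2

/-!
[SP93 Q8] The kernel applied to `1`: `X = ∫ (|t| t) • ζ = (∫ |t|^3) θ` (test with `θ` and with a vector orthogonal to `θ`, `s4_perp`), and
`6 * 8/(15π) - 2 * 4/(3π) = 8/(15π)`.
-/

set_option autoImplicit false

open MeasureTheory Set

namespace Pool.Agent.LibSP93

open Pool.Agent.LibSP74 Pool.Agent.LibSP52

theorem BB_one {θ : E 4} (hθ : ‖θ‖ = 1) : BB (fun _ => 1) θ = (8 / (15 * Real.pi)) • θ := by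
  have ck : Continuous (fun ζ : E 4 => kk θ ζ) := by
    unfold kk
    fun_prop
  refine ext_inner_left ℝ (fun v => ?_)
  have hint : Integrable (fun ζ : E 4 => (1 : ℝ) • kk θ ζ) (sg 4) := by
    simp only [one_smul]
    exact s4_int ck
  have h1 : inner ℝ v (BB (fun _ => 1) θ) = ∫ ζ, inner ℝ v ((1 : ℝ) • kk θ ζ) ∂(sg 4) := by
    unfold BB
    exact (integral_inner hint v).symm
  have htt : inner ℝ θ θ = (1 : ℝ) := by
    rw [real_inner_self_eq_norm_sq, hθ, one_pow]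
  have h2 : ∀ ζ : E 4, inner ℝ v ((1 : ℝ) • kk θ ζ) =
      6 * inner ℝ v θ * |inner ℝ θ ζ| ^ 3 +
        6 * (|inner ℝ θ ζ| * inner ℝ θ ζ * inner ℝ (v - inner ℝ v θ • θ) ζ) -
        2 * inner ℝ v θ * |inner ℝ θ ζ| := by
    intro ζ
    have h3 : |inner ℝ θ ζ| ^ 3 = |inner ℝ θ ζ| * (inner ℝ θ ζ * inner ℝ θ ζ : ℝ) := by
      rw [pow_succ, pow_two, mul_assoc, ← abs_mul_abs_self (inner ℝ θ ζ : ℝ)]
    rw [one_smul, h3]
    unfold kk
    rw [inner_sub_right, real_inner_smul_right, real_inner_smul_right, inner_sub_left,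
      real_inner_smul_left]
    ring
  have hw : inner ℝ θ (v - inner ℝ v θ • θ) = (0 : ℝ) := by
    rw [inner_sub_right, real_inner_smul_right, htt, real_inner_comm v θ]
    ring
  have h4 : ∫ ζ, |inner ℝ θ ζ| * inner ℝ θ ζ * inner ℝ (v - inner ℝ v θ • θ) ζ ∂(sg 4) = 0 := by
    have h5 := s4_perp (θ := θ) (η := θ) (w := v - inner ℝ v θ • θ) hw hw
      (g := fun a b => |a| * b) (by
        unfold Function.uncurry
        fun_prop)
    exact h5
  have i1 : Integrable (fun ζ : E 4 => 6 * inner ℝ v θ * |inner ℝ θ ζ| ^ 3) (sg 4) :=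
    s4_int (by fun_prop)
  have i2 : Integrable (fun ζ : E 4 =>
      6 * (|inner ℝ θ ζ| * inner ℝ θ ζ * inner ℝ (v - inner ℝ v θ • θ) ζ)) (sg 4) :=
    s4_int (by fun_prop)
  have i3 : Integrable (fun ζ : E 4 => 2 * inner ℝ v θ * |inner ℝ θ ζ|) (sg 4) :=
    s4_int (by fun_prop)
  have i12 : Integrable (fun ζ : E 4 => 6 * inner ℝ v θ * |inner ℝ θ ζ| ^ 3 +
      6 * (|inner ℝ θ ζ| * inner ℝ θ ζ * inner ℝ (v - inner ℝ v θ • θ) ζ)) (sg 4) := i1.add i2
  rw [h1, integral_congr_ae (Filter.Eventually.of_forall h2), integral_sub i12 i3,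
    integral_add i1 i2, integral_const_mul, integral_const_mul, integral_const_mul, h4, z3 hθ,
    z1 hθ, real_inner_smul_right]
  have hp : Real.pi ≠ 0 := Real.pi_ne_zero
  field_simp
  ring

end Pool.Agent.LibSP93
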