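import Pool.Agent.LibSP93.Q5
import Pool.Agent.LibSP93.O1

/-!
[SP93 O4] `Ort (hh F)`: as O3 with `z04` and `z24` (for a unit vector `u`; `u = 0` trivial, `u = ‖u‖ • (u/‖u‖)` in general).
-/

set_option autoImplicit false

open MeasureTheory Set

namespace Pool.Agent.LibSP93

open Pool.Agent.LibSP74 Pool.Agent.LibSP52

private theorem hh_mul {F : E 4 → ℝ} (hF : Continuous F) {G : E 4 → ℝ} (hG : Continuous G) :
    ∫ η, hh F η * G η ∂(sg 4) =
      ∫ ζ, F ζ * (∫ η, G η * inner ℝ ζ η ^ 4 ∂(sg 4)) ∂(sg 4) := by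
  have h1 : ∀ η : E 4, hh F η * G η = ∫ ζ, F ζ * (G η * inner ℝ ζ η ^ 4) ∂(sg 4) := by
    intro η
    unfold hh
    rw [← integral_mul_const]
    refine integral_congr_ae (Filter.Eventually.of_forall fun ζ => ?_)
    simp only
    rw [real_inner_comm ζ η]
    ring
  simp only [h1]
  rw [s4_swap (f := fun η ζ => F ζ * (G η * inner ℝ ζ η ^ 4))]
  · refine integral_congr_ae (Filter.Eventually.of_forall fun ζ => ?_)
    simp only
    rw [integral_const_mul]
  · have : (Function.uncurry fun (η ζ : E 4) => F ζ * (G η * inner ℝ ζ η ^ 4)) =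
        fun p : E 4 × E 4 => F p.2 * (G p.1 * inner ℝ p.2 p.1 ^ 4) := by
      funext p; rfl
    rw [this]
    fun_prop

private theorem z24' (u : E 4) {ζ : E 4} (hζ : ‖ζ‖ = 1) :
    ∫ η, inner ℝ u η ^ 2 * inner ℝ ζ η ^ 4 ∂(sg 4) =
      (12 * inner ℝ u ζ ^ 2 + 3 * ‖u‖ ^ 2) / 192 := by
  by_cases hu : u = 0
  · subst hu
    simp
  · have hn : ‖u‖ ≠ 0 := norm_ne_zero_iff.mpr hu
    set v : E 4 := (‖u‖)⁻¹ • u with hv
    have hv1 : ‖v‖ = 1 := by
      rw [hv, norm_smul, norm_inv, norm_norm, inv_mul_cancel₀ hn]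
    have huv : u = ‖u‖ • v := by
      rw [hv, smul_smul, mul_inv_cancel₀ hn, one_smul]
    have h := z24 (θ := v) (η := ζ) hv1 hζ
    have e1 : ∀ x : E 4, inner ℝ u x = ‖u‖ * inner ℝ v x := by
      intro x
      conv_lhs => rw [huv]
      rw [real_inner_smul_left]
    have h2 : ∫ η, inner ℝ u η ^ 2 * inner ℝ ζ η ^ 4 ∂(sg 4) =
        ‖u‖ ^ 2 * ∫ η, inner ℝ v η ^ 2 * inner ℝ ζ η ^ 4 ∂(sg 4) := by
      rw [← integral_const_mul]
      refine integral_congr_ae (Filter.Eventually.of_forall fun x => ?_)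
      simp only
      rw [e1 x]
      ring
    rw [h2, h, e1 ζ]
    ring

theorem Ort.hh {F : E 4 → ℝ} (h : Ort F) : Ort (hh F) := by
  refine ⟨continuous_hh h.cont, ?_, ?_⟩
  · have h1 := hh_mul h.cont (G := fun _ => (1 : ℝ)) continuous_const
    simp only [mul_one, one_mul] at h1
    rw [h1]
    have h2 : ∫ ζ, F ζ * (∫ η, inner ℝ ζ η ^ 4 ∂(sg 4)) ∂(sg 4) = ∫ ζ, F ζ * (1 / 8) ∂(sg 4) := by
      refine integral_congr_ae ?_
      filter_upwards [s4_ae] with ζ hζ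
      rw [z04 hζ]
    rw [h2, integral_mul_const, h.zero, zero_mul]
  · intro u
    have h1 := hh_mul h.cont (G := fun η => inner ℝ u η ^ 2) (by fun_prop)
    rw [h1]
    have h2 : ∫ ζ, F ζ * (∫ η, inner ℝ u η ^ 2 * inner ℝ ζ η ^ 4 ∂(sg 4)) ∂(sg 4) =
        ∫ ζ, ((12 / 192) * (F ζ * inner ℝ u ζ ^ 2) + (3 * ‖u‖ ^ 2 / 192) * F ζ) ∂(sg 4) := by
      refine integral_congr_ae ?_
      filter_upwards [s4_ae] with ζ hζ
      rw [z24' u hζ]
      ring
    rw [h2, integral_add, integral_const_mul, integral_const_mul, h.two u, h.zero]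
    · ring
    · exact ((s4_int (h.cont.mul (by fun_prop))).const_mul _)
    · exact ((s4_int h.cont).const_mul _)

end Pool.Agent.LibSP93
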