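import Pool.Agent.LibSP93.O3
import Pool.Agent.LibSP93.O4

/-!
[SP93 O5] `F - 80 hh F` is orthogonal to degree 4: for a unit vector `∫ (F - 80 hh F) ⟪u,ζ⟫^4 = hh F u - 80 hh (hh F) u = 0` (O3), in general by
homogeneity (`inner (c • u) = c * inner`).  Zero, two: O4.
-/

set_option autoImplicit false

open MeasureTheory Set

namespace Pool.Agent.LibSP93

open Pool.Agent.LibSP74 Pool.Agent.LibSP52

private theorem O5_hom (G : E 4 → ℝ) (c : ℝ) (η : E 4) : hh G (c • η) = c ^ 4 * hh G η := by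
  unfold hh
  rw [← integral_const_mul]
  refine integral_congr_ae (Filter.Eventually.of_forall fun ζ => ?_)
  change G ζ * inner ℝ (c • η) ζ ^ 4 = c ^ 4 * (G ζ * inner ℝ η ζ ^ 4)
  rw [real_inner_smul_left]
  ring

private theorem O5_zero {F : E 4 → ℝ} (h : Ort F) (u : E 4) : hh F u - 80 * hh (hh F) u = 0 := by
  by_cases hu : u = 0
  · have h1 : u = (0 : ℝ) • (0 : E 4) := by rw [hu, smul_zero]
    rw [h1, O5_hom, O5_hom]
    norm_num
  · have hn : ‖u‖ ≠ 0 := norm_ne_zero_iff.2 hu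
    have h1 : u = ‖u‖ • ((‖u‖)⁻¹ • u) := by
      rw [smul_smul, mul_inv_cancel₀ hn, one_smul]
    have h2 : ‖(‖u‖)⁻¹ • u‖ = 1 := by
      rw [norm_smul, norm_inv, norm_norm, inv_mul_cancel₀ hn]
    obtain ⟨η, hη⟩ : ∃ η, η = (‖u‖)⁻¹ • u := ⟨_, rfl⟩
    rw [← hη] at h1 h2
    rw [h1, O5_hom F, O5_hom (hh F), hh_hh h h2]
    ring

private theorem O5_sub {F : E 4 → ℝ} (h : Ort F) {w : E 4 → ℝ} (hw : Continuous w) :
    ∫ ζ, (F ζ - 80 * hh F ζ) * w ζ ∂(sg 4) =
      (∫ ζ, F ζ * w ζ ∂(sg 4)) - 80 * ∫ ζ, hh F ζ * w ζ ∂(sg 4) := by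
  have hc : Continuous fun ζ => F ζ * w ζ := h.cont.mul hw
  have hd : Continuous fun ζ => 80 * (hh F ζ * w ζ) := continuous_const.mul ((continuous_hh h.cont).mul hw)
  rw [← integral_const_mul, ← integral_sub (s4_int hc) (s4_int hd)]
  refine integral_congr_ae (Filter.Eventually.of_forall fun ζ => ?_)
  change (F ζ - 80 * hh F ζ) * w ζ = F ζ * w ζ - 80 * (hh F ζ * w ζ)
  ring

theorem Ort.rem {F : E 4 → ℝ} (h : Ort F) : Ort4 (fun ζ => F ζ - 80 * Pool.Agent.LibSP93.hh F ζ) := by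
  have hc := h.cont
  have hd := continuous_hh h.cont
  have hi : ∀ (u : E 4) (k : ℕ), Continuous fun ζ : E 4 => inner ℝ u ζ ^ k :=
    fun u k => (continuous_const.inner continuous_id).pow k
  refine { cont := hc.sub (continuous_const.mul hd), zero := ?_, two := fun u => ?_, four := fun u => ?_ }
  · have h1 := O5_sub h (w := fun _ => 1) continuous_const
    simp only [mul_one] at h1
    rw [h1, h.zero, h.hh.zero, mul_zero, sub_zero]
  · rw [O5_sub h (hi u 2), h.two u, h.hh.two u, mul_zero, sub_zero]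
  · rw [O5_sub h (hi u 4)]
    exact O5_zero h u

end Pool.Agent.LibSP93
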