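import Pool.Agent.LibSP93.O3

/-!
[SP93 O6] PAPER PROOF.  `∫_η hh F η * hh F η = ∫_η hh F η ∫_ζ F ζ ⟪η,ζ⟫^4 = ∫_ζ F ζ ∫_η hh F η ⟪ζ,η⟫^4 = ∫_ζ F ζ hh (hh F) ζ = (1/80) ∫ F hh F`
(`s4_swap`, O3 for a.e. `ζ`, `real_inner_comm`).  Second: expand `F - 80 hh F`.
-/

set_option autoImplicit false

open MeasureTheory Set

namespace Pool.Agent.LibSP93

open Pool.Agent.LibSP74 Pool.Agent.LibSP52

theorem int_F_hh {F : E 4 → ℝ} (h : Ort F) :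
    ∫ ζ, F ζ * hh F ζ ∂(sg 4) = 80 * ∫ ζ, hh F ζ ^ 2 ∂(sg 4) := by
  have hF : Continuous F := h.cont
  have hH : Continuous (hh F) := continuous_hh hF
  have hcont : Continuous (Function.uncurry fun η ζ : E 4 => hh F η * (F ζ * inner ℝ η ζ ^ 4)) := by
    have h1 : Continuous fun p : E 4 × E 4 => hh F p.1 := hH.comp continuous_fst
    have h2 : Continuous fun p : E 4 × E 4 => F p.2 := hF.comp continuous_snd
    have h3 : Continuous fun p : E 4 × E 4 => (inner ℝ p.1 p.2 : ℝ) := by fun_prop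
    exact h1.mul (h2.mul (h3.pow 4))
  have e1 : ∫ η, hh F η ^ 2 ∂(sg 4) =
      ∫ η, ∫ ζ, hh F η * (F ζ * inner ℝ η ζ ^ 4) ∂(sg 4) ∂(sg 4) := by
    refine integral_congr_ae (Filter.Eventually.of_forall fun η => ?_)
    change hh F η ^ 2 = ∫ ζ, hh F η * (F ζ * inner ℝ η ζ ^ 4) ∂(sg 4)
    rw [integral_const_mul]
    change hh F η ^ 2 = hh F η * hh F η
    ring
  have e2 : ∫ ζ, ∫ η, hh F η * (F ζ * inner ℝ η ζ ^ 4) ∂(sg 4) ∂(sg 4) =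
      ∫ ζ, F ζ * hh F ζ / 80 ∂(sg 4) := by
    refine integral_congr_ae ?_
    filter_upwards [s4_ae] with ζ hζ
    have e3 : ∫ η, hh F η * (F ζ * inner ℝ η ζ ^ 4) ∂(sg 4) =
        ∫ η, F ζ * (hh F η * inner ℝ ζ η ^ 4) ∂(sg 4) := by
      refine integral_congr_ae (Filter.Eventually.of_forall fun η => ?_)
      change hh F η * (F ζ * inner ℝ η ζ ^ 4) = F ζ * (hh F η * inner ℝ ζ η ^ 4)
      rw [real_inner_comm]
      ring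
    rw [e3, integral_const_mul]
    have e4 : ∫ η, hh F η * inner ℝ ζ η ^ 4 ∂(sg 4) = hh (hh F) ζ := rfl
    rw [e4, hh_hh h hζ]
    ring
  rw [e1, s4_swap hcont, e2, integral_div]
  ring

theorem pyth {F : E 4 → ℝ} (h : Ort F) :
    ∫ ζ, F ζ ^ 2 ∂(sg 4) = 6400 * (∫ ζ, hh F ζ ^ 2 ∂(sg 4)) +
      ∫ ζ, (F ζ - 80 * hh F ζ) ^ 2 ∂(sg 4) := by
  have hF : Continuous F := h.cont
  have hH : Continuous (hh F) := continuous_hh hF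
  have i1 : Integrable (fun ζ => F ζ ^ 2) (sg 4) := s4_int (hF.pow 2)
  have i2 : Integrable (fun ζ => 160 * (F ζ * hh F ζ)) (sg 4) :=
    s4_int (continuous_const.mul (hF.mul hH))
  have i3 : Integrable (fun ζ => 6400 * hh F ζ ^ 2) (sg 4) :=
    s4_int (continuous_const.mul (hH.pow 2))
  have e1 : ∫ ζ, (F ζ - 80 * hh F ζ) ^ 2 ∂(sg 4) =
      ∫ ζ, (F ζ ^ 2 - 160 * (F ζ * hh F ζ)) + 6400 * hh F ζ ^ 2 ∂(sg 4) := by
    refine integral_congr_ae (Filter.Eventually.of_forall fun ζ => ?_)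
    change (F ζ - 80 * hh F ζ) ^ 2 = (F ζ ^ 2 - 160 * (F ζ * hh F ζ)) + 6400 * hh F ζ ^ 2
    ring
  have i4 : Integrable (fun ζ => F ζ ^ 2 - 160 * (F ζ * hh F ζ)) (sg 4) := i1.sub i2
  have e2 : ∫ ζ, (F ζ ^ 2 - 160 * (F ζ * hh F ζ)) + 6400 * hh F ζ ^ 2 ∂(sg 4) =
      (∫ ζ, (F ζ ^ 2 - 160 * (F ζ * hh F ζ)) ∂(sg 4)) + ∫ ζ, 6400 * hh F ζ ^ 2 ∂(sg 4) :=
    integral_add i4 i3
  have e3 : ∫ ζ, (F ζ ^ 2 - 160 * (F ζ * hh F ζ)) ∂(sg 4) =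
      (∫ ζ, F ζ ^ 2 ∂(sg 4)) - ∫ ζ, 160 * (F ζ * hh F ζ) ∂(sg 4) := integral_sub i1 i2
  rw [e1, e2, e3, integral_const_mul, integral_const_mul, int_F_hh h]
  ring

end Pool.Agent.LibSP93
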