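import Pool.Agent.LibSP93.S4a

/-!
[SP93 S4b] PAPER PROOF.  `⟪vv F θ, BB G θ⟫ = ∫_ζ G ζ (6 |t| t ⟪vv F θ, ζ⟫ - 2 |t| ⟪vv F θ, θ⟫)`, `t = ⟪θ, ζ⟫`; `⟪vv F θ, θ⟫ = hh F θ`,
`⟪vv F θ, ζ⟫ = ∫_ω F ω ⟪θ,ω⟫³ ⟪ζ,ω⟫` (S2).  Exchange `θ` and `ζ`, then for a.e. `ζ`:
`∫_θ 6 |t| t ⟪vv F θ, ζ⟫ = 6 ∫_ω F ω ⟪ζ,ω⟫ z23(ζ, ω) = (48/(105π)) hh F ζ` (`h.two` kills the other term), `∫_θ |t| hh F θ = ∫_ω F ω z14(ζ, ω) =
(-4/(105π)) hh F ζ`.  So it is `c ∫ G hh F = 0` (`int_G_hh`).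
-/

set_option autoImplicit false

open MeasureTheory Set

namespace Pool.Agent.LibSP93

open Pool.Agent.LibSP74 Pool.Agent.LibSP52

private lemma S4b_J1 {F : E 4 → ℝ} (h : Ort F) {ζ : E 4} (hζ : ‖ζ‖ = 1) :
    ∫ θ, |inner ℝ θ ζ| * inner ℝ θ ζ * inner ℝ ζ (vv F θ) ∂(sg 4) =
      8 / (105 * Real.pi) * hh F ζ := by
  have hc := h.cont
  have e1 : ∀ θ : E 4, |inner ℝ θ ζ| * inner ℝ θ ζ * inner ℝ ζ (vv F θ) =
      ∫ ω, |inner ℝ θ ζ| * inner ℝ θ ζ * (F ω * (inner ℝ θ ω ^ 3 * inner ℝ ζ ω)) ∂(sg 4) := by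
    intro θ
    rw [inner_vv hc, ← integral_const_mul]
  rw [integral_congr_ae (Filter.Eventually.of_forall e1)]
  have hcont : Continuous (Function.uncurry fun (θ ω : E 4) =>
      |inner ℝ θ ζ| * inner ℝ θ ζ * (F ω * (inner ℝ θ ω ^ 3 * inner ℝ ζ ω))) := by
    unfold Function.uncurry
    fun_prop
  rw [s4_swap hcont]
  have e2 : ∀ᵐ ω ∂(sg 4), ∫ θ, |inner ℝ θ ζ| * inner ℝ θ ζ * (F ω * (inner ℝ θ ω ^ 3 * inner ℝ ζ ω)) ∂(sg 4) =
      8 / (105 * Real.pi) * (F ω * inner ℝ ζ ω ^ 4) + 24 / (105 * Real.pi) * (F ω * inner ℝ ζ ω ^ 2) := by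
    filter_upwards [s4_ae] with ω hω
    have e3 : ∀ θ : E 4, |inner ℝ θ ζ| * inner ℝ θ ζ * (F ω * (inner ℝ θ ω ^ 3 * inner ℝ ζ ω)) =
        F ω * inner ℝ ζ ω * (|inner ℝ ζ θ| * inner ℝ ζ θ * inner ℝ ω θ ^ 3) := by
      intro θ
      rw [real_inner_comm θ ζ, real_inner_comm θ ω]
      ring
    rw [integral_congr_ae (Filter.Eventually.of_forall e3), integral_const_mul, z23 hζ hω]
    have := Real.pi_pos
    field_simp
  rw [integral_congr_ae e2, integral_add, integral_const_mul, integral_const_mul, h.two ζ]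
  · unfold hh
    ring
  · exact s4_int (by fun_prop)
  · exact s4_int (by fun_prop)

private lemma S4b_J2 {F : E 4 → ℝ} (h : Ort F) {ζ : E 4} (hζ : ‖ζ‖ = 1) :
    ∫ θ, |inner ℝ θ ζ| * hh F θ ∂(sg 4) = -4 / (105 * Real.pi) * hh F ζ := by
  have hc := h.cont
  have e1 : ∀ θ : E 4, |inner ℝ θ ζ| * hh F θ =
      ∫ ω, |inner ℝ θ ζ| * (F ω * inner ℝ θ ω ^ 4) ∂(sg 4) := by
    intro θ
    unfold hh
    rw [← integral_const_mul]
  rw [integral_congr_ae (Filter.Eventually.of_forall e1)]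
  have hcont : Continuous (Function.uncurry fun (θ ω : E 4) =>
      |inner ℝ θ ζ| * (F ω * inner ℝ θ ω ^ 4)) := by
    unfold Function.uncurry
    fun_prop
  rw [s4_swap hcont]
  have e2 : ∀ᵐ ω ∂(sg 4), ∫ θ, |inner ℝ θ ζ| * (F ω * inner ℝ θ ω ^ 4) ∂(sg 4) =
      -4 / (105 * Real.pi) * (F ω * inner ℝ ζ ω ^ 4) + (24 / (105 * Real.pi) * (F ω * inner ℝ ζ ω ^ 2) +
        12 / (105 * Real.pi) * F ω) := by
    filter_upwards [s4_ae] with ω hω
    have e3 : ∀ θ : E 4, |inner ℝ θ ζ| * (F ω * inner ℝ θ ω ^ 4) =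
        F ω * (|inner ℝ ζ θ| * inner ℝ ω θ ^ 4) := by
      intro θ
      rw [real_inner_comm θ ζ, real_inner_comm θ ω]
      ring
    rw [integral_congr_ae (Filter.Eventually.of_forall e3), integral_const_mul, z14 hζ hω]
    have := Real.pi_pos
    field_simp
    ring
  rw [integral_congr_ae e2, integral_add, integral_add, integral_const_mul, integral_const_mul,
    integral_const_mul, h.two ζ, h.zero]
  · unfold hh
    ring
  · exact s4_int (by fun_prop)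
  · exact s4_int (by fun_prop)
  · exact s4_int (by fun_prop)
  · exact (s4_int (by fun_prop)).add (s4_int (by fun_prop))

theorem cross_b {F G : E 4 → ℝ} (h : Ort F) (hG : Ort4 G) :
    ∫ θ, inner ℝ (vv F θ) (BB G θ) ∂(sg 4) = 0 := by
  have hc := h.cont
  have hGc := hG.cont
  have hv := continuous_vv hc
  have hhc := continuous_hh hc
  have e0 : ∀ θ : E 4, inner ℝ (vv F θ) (BB G θ) = ∫ ζ, G ζ * inner ℝ (vv F θ) (kk θ ζ) ∂(sg 4) :=
    fun θ => inner_BB hGc _ _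
  rw [integral_congr_ae (Filter.Eventually.of_forall e0)]
  have hk2 : Continuous fun p : E 4 × E 4 => kk p.1 p.2 := continuous_kk
  have hcont : Continuous (Function.uncurry fun (θ ζ : E 4) => G ζ * inner ℝ (vv F θ) (kk θ ζ)) := by
    unfold Function.uncurry
    fun_prop
  rw [s4_swap hcont]
  have e1 : ∀ᵐ ζ ∂(sg 4), ∫ θ, G ζ * inner ℝ (vv F θ) (kk θ ζ) ∂(sg 4) =
      56 / (105 * Real.pi) * (G ζ * hh F ζ) := by
    filter_upwards [s4_ae] with ζ hζ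
    have e2 : ∀ θ : E 4, G ζ * inner ℝ (vv F θ) (kk θ ζ) =
        G ζ * (6 * (|inner ℝ θ ζ| * inner ℝ θ ζ * inner ℝ ζ (vv F θ)) -
          2 * (|inner ℝ θ ζ| * hh F θ)) := by
      intro θ
      unfold kk
      rw [inner_sub_right, inner_smul_right, inner_smul_right, real_inner_comm ζ (vv F θ),
        real_inner_comm θ (vv F θ), inner_vv_self hc]
      ring
    rw [integral_congr_ae (Filter.Eventually.of_forall e2), integral_const_mul, integral_sub,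
      integral_const_mul, integral_const_mul, S4b_J1 h hζ, S4b_J2 h hζ]
    · have := Real.pi_pos
      field_simp
      ring
    · exact s4_int (by fun_prop)
    · exact s4_int (by fun_prop)
  rw [integral_congr_ae e1, integral_const_mul, int_G_hh hc hG, mul_zero]

end Pool.Agent.LibSP93
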