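import Pool.Agent.LibSP93.S1
import Pool.Agent.LibSP93.S4b

/-!
[SP93 S4] From S1 (a.e. `θ`), `cross_a`, `cross_b`.
-/

set_option autoImplicit false

open MeasureTheory Set

namespace Pool.Agent.LibSP93

open Pool.Agent.LibSP74 Pool.Agent.LibSP52

theorem cross {F G : E 4 → ℝ} (h : Ort F) (hG : Ort4 G) :
    ∫ θ, inner ℝ (BB (hh F) θ) (BB G θ) ∂(sg 4) = 0 := by
  have e : ∀ᵐ θ ∂(sg 4), inner ℝ (BB (hh F) θ) (BB G θ) =
      (8 / (315 * Real.pi)) * (hh F θ * inner ℝ θ (BB G θ) +
        8 * inner ℝ (vv F θ) (BB G θ)) := by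
    filter_upwards [s4_ae] with θ hθ
    rw [BB_hh h hθ, inner_smul_left, inner_add_left, inner_smul_left, inner_smul_left]
    simp
  rw [integral_congr_ae e, integral_const_mul]
  have hB : Continuous (BB G) := continuous_BB hG.cont
  have h1 : Continuous fun θ => hh F θ * inner ℝ θ (BB G θ) :=
    (continuous_hh h.cont).mul (continuous_id.inner hB)
  have h2 : Continuous fun θ => 8 * inner ℝ (vv F θ) (BB G θ) :=
    continuous_const.mul ((continuous_vv h.cont).inner hB)
  rw [integral_add (s4_int h1) (s4_int h2), integral_const_mul, cross_a h hG, cross_b h hG]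
  simp

end Pool.Agent.LibSP93
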