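import Pool.Agent.LibSP93.T1

/-!
[SP93 O2] Polarisation.  `∫ F ⟪u + c v, ζ⟫^2 = 0` for all real `c` is a polynomial in `c` whose linear coefficient is `2 ∫ F ⟪u,ζ⟫ ⟪v,ζ⟫`
(take `c = 1` and `c = -1` and subtract).  Fourth powers: `f(c) = ∫ F ⟪u + c v, ζ⟫^4 = A0 + 4 A1 c + 6 A2 c² + 4 A3 c³ + A4 c⁴ = 0`, take
`c = 1, -1, 2, -2`: `8 (f 1 - f (-1)) - (f 2 - f (-2)) = 48 A1`.  Integrability: `s4_int`.
-/

set_option autoImplicit false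

open MeasureTheory Set

namespace Pool.Agent.LibSP93

open Pool.Agent.LibSP74 Pool.Agent.LibSP52

private theorem o2_int {F : E 4 → ℝ} (hF : Continuous F) (w : E 4) (k : ℕ) :
    Integrable (fun ζ => F ζ * inner ℝ w ζ ^ k) (sg 4) := by
  apply s4_int
  exact hF.mul ((continuous_const.inner continuous_id).pow k)

private theorem o2_exp (u v ζ : E 4) (c : ℝ) :
    inner ℝ (u + c • v) ζ = inner ℝ u ζ + c * inner ℝ v ζ := by
  rw [inner_add_left, real_inner_smul_left]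

theorem Ort.pol {F : E 4 → ℝ} (h : Ort F) (u v : E 4) :
    ∫ ζ, F ζ * (inner ℝ u ζ * inner ℝ v ζ) ∂(sg 4) = 0 := by
  have e1 := h.two (u + (1 : ℝ) • v)
  have e2 := h.two (u + (-1 : ℝ) • v)
  have i1 := o2_int h.cont (u + (1 : ℝ) • v) 2
  have i2 := o2_int h.cont (u + (-1 : ℝ) • v) 2
  have hs := integral_sub i1 i2
  rw [e1, e2, sub_zero] at hs
  have hf : ∀ ζ : E 4, F ζ * inner ℝ (u + (1 : ℝ) • v) ζ ^ 2 -
      F ζ * inner ℝ (u + (-1 : ℝ) • v) ζ ^ 2 = 4 * (F ζ * (inner ℝ u ζ * inner ℝ v ζ)) := by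
    intro ζ
    rw [o2_exp, o2_exp]
    ring
  have hc : ∫ ζ, (F ζ * inner ℝ (u + (1 : ℝ) • v) ζ ^ 2 -
      F ζ * inner ℝ (u + (-1 : ℝ) • v) ζ ^ 2) ∂(sg 4) =
      4 * ∫ ζ, F ζ * (inner ℝ u ζ * inner ℝ v ζ) ∂(sg 4) := by
    rw [← integral_const_mul]
    exact integral_congr_ae (Filter.Eventually.of_forall hf)
  rw [hc] at hs
  linarith

theorem Ort4.pol4 {F : E 4 → ℝ} (h : Ort4 F) (u v : E 4) :
    ∫ ζ, F ζ * (inner ℝ u ζ ^ 3 * inner ℝ v ζ) ∂(sg 4) = 0 := by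
  have e1 := h.four (u + (1 : ℝ) • v)
  have e2 := h.four (u + (-1 : ℝ) • v)
  have e3 := h.four (u + (2 : ℝ) • v)
  have e4 := h.four (u + (-2 : ℝ) • v)
  have i1 := o2_int h.cont (u + (1 : ℝ) • v) 4
  have i2 := o2_int h.cont (u + (-1 : ℝ) • v) 4
  have i3 := o2_int h.cont (u + (2 : ℝ) • v) 4
  have i4 := o2_int h.cont (u + (-2 : ℝ) • v) 4
  have hs := integral_sub i1 i2
  have hs' := integral_sub i3 i4
  have hd := integral_sub ((i1.sub i2).const_mul 8) (i3.sub i4)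
  rw [integral_const_mul] at hd
  simp only [Pi.sub_apply] at hd
  rw [hs, hs', e1, e2, e3, e4] at hd
  have hf : ∀ ζ : E 4, 8 * (F ζ * inner ℝ (u + (1 : ℝ) • v) ζ ^ 4 -
      F ζ * inner ℝ (u + (-1 : ℝ) • v) ζ ^ 4) -
      (F ζ * inner ℝ (u + (2 : ℝ) • v) ζ ^ 4 - F ζ * inner ℝ (u + (-2 : ℝ) • v) ζ ^ 4) =
      48 * (F ζ * (inner ℝ u ζ ^ 3 * inner ℝ v ζ)) := by
    intro ζ
    rw [o2_exp, o2_exp, o2_exp, o2_exp]
    ring
  have hc : ∫ ζ, (8 * (F ζ * inner ℝ (u + (1 : ℝ) • v) ζ ^ 4 -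
      F ζ * inner ℝ (u + (-1 : ℝ) • v) ζ ^ 4) -
      (F ζ * inner ℝ (u + (2 : ℝ) • v) ζ ^ 4 -
        F ζ * inner ℝ (u + (-2 : ℝ) • v) ζ ^ 4)) ∂(sg 4) =
      48 * ∫ ζ, F ζ * (inner ℝ u ζ ^ 3 * inner ℝ v ζ) ∂(sg 4) := by
    rw [← integral_const_mul]
    exact integral_congr_ae (Filter.Eventually.of_forall hf)
  rw [hc] at hd
  linarith

end Pool.Agent.LibSP93
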