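import Pool.Agent.LibSP93.T2

/-!
[SP93 T4] Cauchy-Schwarz.  `cs_one`: expand `0 ≤ ∫ (b f - c g)^2` with `b = ∫ g^2`, `c = ∫ f g` (if `∫ g^2 = 0` use `b + 1`, or the
discriminant `discrim_le_zero`), or `inner_mul_le_norm_mul_norm` in L2.  `cs_vec`: for fixed `θ` and the vector `X = ∫ F ζ • k θ ζ`:
`‖X‖ ≤ ∫ |F ζ| ‖k θ ζ‖` (`norm_integral_le_integral_norm`) and `cs_one` give `‖X‖^2 ≤ (∫ F^2) (∫ ‖k θ ζ‖^2)`; integrate over `θ`.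
`mink`: `‖A + B‖^2 ≤ (1 + c) ‖A‖^2 + (1 + 1/c) ‖B‖^2` for all `c > 0`.
-/

set_option autoImplicit false

open MeasureTheory Set

namespace Pool.Agent.LibSP93

open Pool.Agent.LibSP74 Pool.Agent.LibSP52

theorem cs_one {f g : E 4 → ℝ} (hf : Continuous f) (hg : Continuous g) :
    (∫ ζ, f ζ * g ζ ∂(sg 4)) ^ 2 ≤ (∫ ζ, f ζ ^ 2 ∂(sg 4)) * ∫ ζ, g ζ ^ 2 ∂(sg 4) := by
  have i1 : Integrable (fun ζ => f ζ ^ 2) (sg 4) := s4_int (by fun_prop)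
  have i2 : Integrable (fun ζ => g ζ ^ 2) (sg 4) := s4_int (by fun_prop)
  have i3 : Integrable (fun ζ => f ζ * g ζ) (sg 4) := s4_int (by fun_prop)
  have h : ∀ x : ℝ, 0 ≤ (∫ ζ, f ζ ^ 2 ∂(sg 4)) * (x * x) + (-2 * ∫ ζ, f ζ * g ζ ∂(sg 4)) * x
      + ∫ ζ, g ζ ^ 2 ∂(sg 4) := by
    intro x
    have h1 : 0 ≤ ∫ ζ, (x * f ζ - g ζ) ^ 2 ∂(sg 4) := integral_nonneg fun ζ => sq_nonneg _
    have h2 : (∫ ζ, (x * f ζ - g ζ) ^ 2 ∂(sg 4))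
        = ∫ ζ, ((x * x) * f ζ ^ 2 + (-2 * x) * (f ζ * g ζ)) + g ζ ^ 2 ∂(sg 4) := by
      refine integral_congr_ae (ae_of_all _ fun ζ => ?_)
      dsimp only
      ring
    have h3 : (∫ ζ, ((x * x) * f ζ ^ 2 + (-2 * x) * (f ζ * g ζ)) + g ζ ^ 2 ∂(sg 4))
        = (∫ ζ, ((x * x) * f ζ ^ 2 + (-2 * x) * (f ζ * g ζ)) ∂(sg 4)) + ∫ ζ, g ζ ^ 2 ∂(sg 4) :=
      integral_add ((i1.const_mul _).add (i3.const_mul _)) i2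
    have h4 : (∫ ζ, ((x * x) * f ζ ^ 2 + (-2 * x) * (f ζ * g ζ)) ∂(sg 4))
        = (∫ ζ, (x * x) * f ζ ^ 2 ∂(sg 4)) + ∫ ζ, (-2 * x) * (f ζ * g ζ) ∂(sg 4) :=
      integral_add (i1.const_mul _) (i3.const_mul _)
    rw [h2, h3, h4, integral_const_mul, integral_const_mul] at h1
    linarith
  have h5 := discrim_le_zero h
  unfold discrim at h5
  nlinarith

theorem cs_vec {F : E 4 → ℝ} {k : E 4 → E 4 → E 4} (hF : Continuous F)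
    (hk : Continuous (Function.uncurry k)) :
    ∫ θ, ‖∫ ζ, F ζ • k θ ζ ∂(sg 4)‖ ^ 2 ∂(sg 4) ≤
      (∫ ζ, F ζ ^ 2 ∂(sg 4)) * ∫ θ, ∫ ζ, ‖k θ ζ‖ ^ 2 ∂(sg 4) ∂(sg 4) := by
  have hk1 : ∀ θ, Continuous (k θ) := fun θ => hk.comp (by fun_prop : Continuous fun ζ => (θ, ζ))
  have hk2 : Continuous (Function.uncurry fun θ ζ => ‖k θ ζ‖ ^ 2) := (hk.norm.pow 2)
  have hk3 : Continuous (Function.uncurry fun θ ζ => F ζ • k θ ζ) :=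
    (hF.comp continuous_snd).smul hk
  have key : ∀ θ, ‖∫ ζ, F ζ • k θ ζ ∂(sg 4)‖ ^ 2 ≤
      (∫ ζ, F ζ ^ 2 ∂(sg 4)) * ∫ ζ, ‖k θ ζ‖ ^ 2 ∂(sg 4) := by
    intro θ
    have h1 : ‖∫ ζ, F ζ • k θ ζ ∂(sg 4)‖ ≤ ∫ ζ, |F ζ| * ‖k θ ζ‖ ∂(sg 4) := by
      refine (norm_integral_le_integral_norm _).trans (le_of_eq ?_)
      refine integral_congr_ae (ae_of_all _ fun ζ => ?_)
      dsimp only
      rw [norm_smul, Real.norm_eq_abs]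
    have h2 := cs_one (f := fun ζ => |F ζ|) (g := fun ζ => ‖k θ ζ‖) hF.abs (hk1 θ).norm
    have h3 : ‖∫ ζ, F ζ • k θ ζ ∂(sg 4)‖ ^ 2 ≤ (∫ ζ, |F ζ| * ‖k θ ζ‖ ∂(sg 4)) ^ 2 :=
      pow_le_pow_left₀ (norm_nonneg _) h1 2
    refine h3.trans (h2.trans (le_of_eq ?_))
    simp only [sq_abs]
  calc ∫ θ, ‖∫ ζ, F ζ • k θ ζ ∂(sg 4)‖ ^ 2 ∂(sg 4)
      ≤ ∫ θ, (∫ ζ, F ζ ^ 2 ∂(sg 4)) * ∫ ζ, ‖k θ ζ‖ ^ 2 ∂(sg 4) ∂(sg 4) :=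
        integral_mono (s4_int ((s4_cont hk3).norm.pow 2))
          (s4_int (continuous_const.mul (s4_cont hk2))) key
    _ = _ := integral_const_mul _ _

theorem mink {A B : E 4 → E 4} (hA : Continuous A) (hB : Continuous B) {c : ℝ} (hc : 0 < c) :
    ∫ θ, ‖A θ + B θ‖ ^ 2 ∂(sg 4) ≤
      (1 + c) * (∫ θ, ‖A θ‖ ^ 2 ∂(sg 4)) + (1 + 1 / c) * ∫ θ, ‖B θ‖ ^ 2 ∂(sg 4) := by
  have key : ∀ θ, ‖A θ + B θ‖ ^ 2 ≤ (1 + c) * ‖A θ‖ ^ 2 + (1 + 1 / c) * ‖B θ‖ ^ 2 := by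
    intro θ
    have h1 := norm_add_le (A θ) (B θ)
    have h2 : ‖A θ + B θ‖ ^ 2 ≤ (‖A θ‖ + ‖B θ‖) ^ 2 := pow_le_pow_left₀ (norm_nonneg _) h1 2
    have h3 : (0:ℝ) ≤ (c * ‖A θ‖ - ‖B θ‖) ^ 2 / c := by positivity
    have h4 : (c * ‖A θ‖ - ‖B θ‖) ^ 2 / c
        = c * ‖A θ‖ ^ 2 - 2 * (‖A θ‖ * ‖B θ‖) + 1 / c * ‖B θ‖ ^ 2 := by
      field_simp
      ring
    nlinarith
  have i1 : Integrable (fun θ => ‖A θ‖ ^ 2) (sg 4) := s4_int (hA.norm.pow 2)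
  have i2 : Integrable (fun θ => ‖B θ‖ ^ 2) (sg 4) := s4_int (hB.norm.pow 2)
  calc ∫ θ, ‖A θ + B θ‖ ^ 2 ∂(sg 4)
      ≤ ∫ θ, ((1 + c) * ‖A θ‖ ^ 2 + (1 + 1 / c) * ‖B θ‖ ^ 2) ∂(sg 4) :=
        integral_mono (s4_int ((hA.add hB).norm.pow 2)) ((i1.const_mul _).add (i2.const_mul _)) key
    _ = (∫ θ, (1 + c) * ‖A θ‖ ^ 2 ∂(sg 4)) + ∫ θ, (1 + 1 / c) * ‖B θ‖ ^ 2 ∂(sg 4) :=
        integral_add (i1.const_mul _) (i2.const_mul _)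
    _ = _ := by rw [integral_const_mul, integral_const_mul]

end Pool.Agent.LibSP93
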