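import Pool.Agent.LibSP93.Q5
import Pool.Agent.LibSP93.T4
import Pool.Agent.LibSP93.O2
import Pool.Agent.LibSP93.O1

/-!
[SP93 S5b] PAPER PROOF.  `k ζ = ∫_ω G ω ⟪ζ,ω⟫⁶`.  (1) `∫ k² = ∫_ζ∫_ω G ζ G ω z66(ζ,ω) = (720/322560) ∫ G k = (1/448) ∫ G k` (the lower terms vanish:
`h.four`, `h.two`, `h.zero`).  (2) `(∫ G k)² ≤ (∫ G²)(∫ k²)` (`cs_one`), so `∫ G k ≤ (1/448) ∫ G²` (`∫ G k = 448 ∫ k² ≥ 0`).
(3) `‖∫ (G t⁵) • ζ‖² = ∫∫ G ζ G ω ⟪θ,ζ⟫⁵ ⟪θ,ω⟫⁵ ⟪ζ,ω⟫`, integrate over `θ`: `z55`, `= ∫∫ G ζ G ω u (120 u⁵ + ..)/23040 = (1/192) ∫ G k`.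
(Same pattern as S2 `vv_sq`.)  `192 * 448 = 86016`.
-/

set_option autoImplicit false

open MeasureTheory Set

namespace Pool.Agent.LibSP93

open Pool.Agent.LibSP74 Pool.Agent.LibSP52

private theorem S5b_swap3 {G : E 4 → ℝ} (hG : Continuous G) (n m : ℕ) :
    ∫ θ, ∫ ζ, ∫ ω, G ζ * (G ω * (inner ℝ ζ ω ^ m * (inner ℝ ζ θ ^ n * inner ℝ ω θ ^ n))) ∂(sg 4) ∂(sg 4) ∂(sg 4) =
      ∫ ζ, G ζ * ∫ ω, G ω * (inner ℝ ζ ω ^ m * ∫ θ, inner ℝ ζ θ ^ n * inner ℝ ω θ ^ n ∂(sg 4)) ∂(sg 4) ∂(sg 4) := by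
  have h1 : Continuous (Function.uncurry fun (θ ζ : E 4) =>
      ∫ ω, G ζ * (G ω * (inner ℝ ζ ω ^ m * (inner ℝ ζ θ ^ n * inner ℝ ω θ ^ n))) ∂(sg 4)) := by
    have h2 : Continuous (Function.uncurry fun (x : E 4 × E 4) (ω : E 4) =>
        G x.2 * (G ω * (inner ℝ x.2 ω ^ m * (inner ℝ x.2 x.1 ^ n * inner ℝ ω x.1 ^ n)))) := by
      unfold Function.uncurry
      fun_prop
    exact s4_cont h2
  rw [s4_swap h1]
  refine integral_congr_ae (Filter.Eventually.of_forall fun ζ => ?_)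
  have h3 : Continuous (Function.uncurry fun (θ ω : E 4) =>
      G ζ * (G ω * (inner ℝ ζ ω ^ m * (inner ℝ ζ θ ^ n * inner ℝ ω θ ^ n)))) := by
    unfold Function.uncurry
    fun_prop
  simp only []
  rw [s4_swap h3, ← integral_const_mul]
  refine integral_congr_ae (Filter.Eventually.of_forall fun ω => ?_)
  simp only []
  rw [← integral_const_mul, ← integral_const_mul, ← integral_const_mul]

private theorem S5b_poly {G : E 4 → ℝ} (h : Ort4 G) (ζ : E 4) (a b c d : ℝ) :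
    ∫ ω, G ω * (a * inner ℝ ζ ω ^ 6 + b * inner ℝ ζ ω ^ 4 + c * inner ℝ ζ ω ^ 2 + d) ∂(sg 4) =
      a * ∫ ω, G ω * inner ℝ ζ ω ^ 6 ∂(sg 4) := by
  have hG := h.cont
  have i6 : Integrable (fun ω => G ω * inner ℝ ζ ω ^ 6) (sg 4) := s4_int (by fun_prop)
  have i4 : Integrable (fun ω => G ω * inner ℝ ζ ω ^ 4) (sg 4) := s4_int (by fun_prop)
  have i2 : Integrable (fun ω => G ω * inner ℝ ζ ω ^ 2) (sg 4) := s4_int (by fun_prop)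
  have i0 : Integrable G (sg 4) := s4_int hG
  have e : (fun ω => G ω * (a * inner ℝ ζ ω ^ 6 + b * inner ℝ ζ ω ^ 4 + c * inner ℝ ζ ω ^ 2 + d)) =
      fun ω => a * (G ω * inner ℝ ζ ω ^ 6) + b * (G ω * inner ℝ ζ ω ^ 4) + c * (G ω * inner ℝ ζ ω ^ 2) + d * G ω := by
    funext ω
    ring
  have j1 : Integrable (fun ω => a * (G ω * inner ℝ ζ ω ^ 6) + b * (G ω * inner ℝ ζ ω ^ 4)) (sg 4) :=
    (i6.const_mul a).add (i4.const_mul b)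
  have j2 : Integrable (fun ω => a * (G ω * inner ℝ ζ ω ^ 6) + b * (G ω * inner ℝ ζ ω ^ 4) +
      c * (G ω * inner ℝ ζ ω ^ 2)) (sg 4) := j1.add (i2.const_mul c)
  rw [e, integral_add j2 (i0.const_mul d), integral_add j1 (i2.const_mul c),
    integral_add (i6.const_mul a) (i4.const_mul b), integral_const_mul, integral_const_mul, integral_const_mul,
    integral_const_mul, h.four ζ, h.two ζ, h.zero]
  ring

private theorem S5b_kk {G : E 4 → ℝ} (h : Ort4 G) :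
    ∫ θ, (∫ ω, G ω * inner ℝ θ ω ^ 6 ∂(sg 4)) ^ 2 ∂(sg 4) =
      1 / 448 * ∫ ζ, G ζ * ∫ ω, G ω * inner ℝ ζ ω ^ 6 ∂(sg 4) ∂(sg 4) := by
  have hG := h.cont
  have h1 := S5b_swap3 hG 6 0
  have h2 : ∀ θ : E 4, (∫ ω, G ω * inner ℝ θ ω ^ 6 ∂(sg 4)) ^ 2 =
      ∫ ζ, ∫ ω, G ζ * (G ω * (inner ℝ ζ ω ^ 0 * (inner ℝ ζ θ ^ 6 * inner ℝ ω θ ^ 6))) ∂(sg 4) ∂(sg 4) := by
    intro θ
    rw [sq, ← integral_mul_const]
    refine integral_congr_ae (Filter.Eventually.of_forall fun ζ => ?_)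
    simp only []
    rw [← integral_const_mul]
    refine integral_congr_ae (Filter.Eventually.of_forall fun ω => ?_)
    simp only []
    rw [real_inner_comm θ ζ, real_inner_comm θ ω]
    ring
  simp_rw [h2]
  rw [h1, ← integral_const_mul]
  refine integral_congr_ae ?_
  filter_upwards [s4_ae] with ζ hζ
  have h3 : ∫ ω, G ω * (inner ℝ ζ ω ^ 0 * ∫ θ, inner ℝ ζ θ ^ 6 * inner ℝ ω θ ^ 6 ∂(sg 4)) ∂(sg 4) =
      ∫ ω, G ω * (720 / 322560 * inner ℝ ζ ω ^ 6 + 5400 / 322560 * inner ℝ ζ ω ^ 4 +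
        4050 / 322560 * inner ℝ ζ ω ^ 2 + 225 / 322560) ∂(sg 4) := by
    refine integral_congr_ae ?_
    filter_upwards [s4_ae] with ω hω
    rw [z66 hζ hω]
    ring
  rw [h3, S5b_poly h]
  ring

private theorem S5b_vec {G : E 4 → ℝ} (h : Ort4 G) :
    ∫ θ, ‖∫ ζ, (G ζ * inner ℝ θ ζ ^ 5) • ζ ∂(sg 4)‖ ^ 2 ∂(sg 4) =
      1 / 192 * ∫ ζ, G ζ * ∫ ω, G ω * inner ℝ ζ ω ^ 6 ∂(sg 4) ∂(sg 4) := by
  have hG := h.cont
  have h1 := S5b_swap3 hG 5 1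
  have h2 : ∀ θ : E 4, ‖∫ ζ, (G ζ * inner ℝ θ ζ ^ 5) • ζ ∂(sg 4)‖ ^ 2 =
      ∫ ζ, ∫ ω, G ζ * (G ω * (inner ℝ ζ ω ^ 1 * (inner ℝ ζ θ ^ 5 * inner ℝ ω θ ^ 5))) ∂(sg 4) ∂(sg 4) := by
    intro θ
    have hi : Integrable (fun ζ : E 4 => (G ζ * inner ℝ θ ζ ^ 5) • ζ) (sg 4) := s4_int (by fun_prop)
    rw [← real_inner_self_eq_norm_sq, ← integral_inner hi]
    refine integral_congr_ae (Filter.Eventually.of_forall fun ζ => ?_)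
    simp only []
    rw [real_inner_comm, ← integral_inner hi]
    refine integral_congr_ae (Filter.Eventually.of_forall fun ω => ?_)
    simp only []
    rw [real_inner_smul_left, real_inner_smul_right, real_inner_comm θ ζ, real_inner_comm θ ω]
    ring
  simp_rw [h2]
  rw [h1, ← integral_const_mul]
  refine integral_congr_ae ?_
  filter_upwards [s4_ae] with ζ hζ
  have h3 : ∫ ω, G ω * (inner ℝ ζ ω ^ 1 * ∫ θ, inner ℝ ζ θ ^ 5 * inner ℝ ω θ ^ 5 ∂(sg 4)) ∂(sg 4) =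
      ∫ ω, G ω * (120 / 23040 * inner ℝ ζ ω ^ 6 + 600 / 23040 * inner ℝ ζ ω ^ 4 +
        225 / 23040 * inner ℝ ζ ω ^ 2 + 0) ∂(sg 4) := by
    refine integral_congr_ae ?_
    filter_upwards [s4_ae] with ω hω
    rw [z55 hζ hω]
    ring
  rw [h3, S5b_poly h]
  ring

theorem five {G : E 4 → ℝ} (h : Ort4 G) :
    ∫ θ, ‖∫ ζ, (G ζ * inner ℝ θ ζ ^ 5) • ζ ∂(sg 4)‖ ^ 2 ∂(sg 4) ≤
      1 / 86016 * ∫ ζ, G ζ ^ 2 ∂(sg 4) := by
  have hG := h.cont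
  rw [S5b_vec h]
  have hk : Continuous fun ζ : E 4 => ∫ ω, G ω * inner ℝ ζ ω ^ 6 ∂(sg 4) := by
    have h2 : Continuous (Function.uncurry fun (ζ ω : E 4) => G ω * inner ℝ ζ ω ^ 6) := by
      unfold Function.uncurry
      fun_prop
    exact s4_cont h2
  have h1 := cs_one hG hk
  rw [S5b_kk h] at h1
  have h3 : 0 ≤ ∫ θ, (∫ ω, G ω * inner ℝ θ ω ^ 6 ∂(sg 4)) ^ 2 ∂(sg 4) := integral_nonneg fun θ => sq_nonneg _
  rw [S5b_kk h] at h3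
  have h4 : 0 ≤ ∫ ζ, G ζ ^ 2 ∂(sg 4) := integral_nonneg fun θ => sq_nonneg _
  generalize (∫ ζ, G ζ * ∫ ω, G ω * inner ℝ ζ ω ^ 6 ∂(sg 4) ∂(sg 4)) = S at h1 h3 ⊢
  generalize (∫ ζ, G ζ ^ 2 ∂(sg 4)) = T at h1 h4 ⊢
  rcases eq_or_lt_of_le (show 0 ≤ S by linarith) with h5 | h5
  · rw [← h5]
    linarith
  · have h6 : S ≤ 1 / 448 * T := by
      by_contra h7
      push Not at h7
      nlinarith
    linarith

end Pool.Agent.LibSP93
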