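import Pool.Agent.LibSP93.T3

/-!
[SP93 Q1] Two orthonormal vectors can be moved to the first two vectors of the standard basis by a linear isometry:
extend `![u, v]` to an orthonormal basis `b : OrthonormalBasis (Fin 4) ℝ (E 4)` with `b 0 = u`, `b 1 = v`
(`Orthonormal.exists_orthonormalBasis_extension_of_card_eq` with `v : Fin 4 → E 4`, `s = {0, 1}`), `U = b.repr` (an isometry onto
`EuclideanSpace ℝ (Fin 4)`), `(U ζ) 0 = ⟪u, ζ⟫`, `(U ζ) 1 = ⟪v, ζ⟫` (`OrthonormalBasis.repr_apply_apply`), and `s4_iso`.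
-/

set_option autoImplicit false

open MeasureTheory Set

namespace Pool.Agent.LibSP93

open Pool.Agent.LibSP74 Pool.Agent.LibSP52

private theorem Q1_basis {u v : E 4} (hu : ‖u‖ = 1) (hv : ‖v‖ = 1) (huv : inner ℝ u v = 0) :
    ∃ b : OrthonormalBasis (Fin 4) ℝ (E 4), b 0 = u ∧ b 1 = v := by
  have huv' : inner ℝ v u = 0 := by rw [real_inner_comm]; exact huv
  have hon : Orthonormal ℝ (({0, 1} : Set (Fin 4)).domRestrict (fun i : Fin 4 => if i = 0 then u else v)) := by
    constructor
    · rintro ⟨i, hi⟩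
      rcases hi with rfl | hi
      · simp [Set.domRestrict, hu]
      · have : i = 1 := hi
        subst this
        simp [Set.domRestrict, hv]
    · rintro ⟨i, hi⟩ ⟨j, hj⟩ hij
      have hij' : i ≠ j := fun h => hij (Subtype.ext h)
      rcases hi with rfl | hi
      · rcases hj with rfl | hj
        · exact absurd rfl hij'
        · have : j = 1 := hj
          subst this
          simpa [Set.domRestrict] using huv
      · have : i = 1 := hi
        subst this
        rcases hj with rfl | hj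
        · simpa [Set.domRestrict] using huv'
        · have : j = 1 := hj
          subst this
          exact absurd rfl hij'
  obtain ⟨b, hb⟩ := Orthonormal.exists_orthonormalBasis_extension_of_card_eq
    (𝕜 := ℝ) (E := E 4) (ι := Fin 4) (by simp) hon
  refine ⟨b, ?_, ?_⟩
  · have := hb 0 (by simp)
    simpa using this
  · have := hb 1 (by simp)
    simpa using this

theorem s4_two {u v : E 4} (hu : ‖u‖ = 1) (hv : ‖v‖ = 1) (huv : inner ℝ u v = 0) {g : ℝ → ℝ → ℝ}
    (hg : Continuous (Function.uncurry g)) :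
    ∫ ζ, g (inner ℝ u ζ) (inner ℝ v ζ) ∂(sg 4) = ∫ ζ : E 4, g (ζ 0) (ζ 1) ∂(sg 4) := by
  obtain ⟨b, hb0, hb1⟩ := Q1_basis hu hv huv
  have hcont : Continuous (fun ζ : E 4 => g (ζ 0) (ζ 1)) := by
    have h2 : Continuous (fun ζ : E 4 => ((ζ 0 : ℝ), (ζ 1 : ℝ))) := by fun_prop
    exact hg.comp h2
  have h := s4_iso (G := ℝ) b.repr hcont
  rw [← h]
  refine integral_congr_ae (Filter.Eventually.of_forall fun ζ => ?_)
  have e0 : (b.repr ζ) 0 = inner ℝ u ζ := by
    rw [OrthonormalBasis.repr_apply_apply, hb0]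
  have e1 : (b.repr ζ) 1 = inner ℝ v ζ := by
    rw [OrthonormalBasis.repr_apply_apply, hb1]
  change g (inner ℝ u ζ) (inner ℝ v ζ) = g ((b.repr ζ) 0) ((b.repr ζ) 1)
  rw [e0, e1]

end Pool.Agent.LibSP93
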