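import Pool.Agent.LibSP93.Q3
import Pool.Agent.LibSP93.Q1
import Pool.Agent.LibSP93.O1

/-!
[SP93 S5c] PAPER PROOF.  For unit vectors, `t = ⟪θ,ζ⟫`, `τ = |t|`, `A = 6τ² - τ - 35/4 τ³ + 9/2 τ⁵`, `B = 2τ - 1/5 - 15/4 τ² + 5/2 τ⁴`:
`‖kr θ ζ‖² = A² - 2 τ A B + B²` (a polynomial in `τ` of degree 10).  By `s4_two` (with any unit vector orthogonal to `θ`)
`∫_ζ |⟪θ,ζ⟫|^k = mo k 0`, values in Q3 (the odd ones only up to 7 occur).  The sum is `4.90924 - 15.40571/π = 0.005448` (`π < 3.1416` is enough).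
-/

set_option autoImplicit false

open MeasureTheory Set

namespace Pool.Agent.LibSP93

open Pool.Agent.LibSP74 Pool.Agent.LibSP52

private theorem S5c_perp (θ : E 4) (hθ : ‖θ‖ = 1) : ∃ v : E 4, ‖v‖ = 1 ∧ inner ℝ θ v = 0 := by
  have h1 : ‖θ‖ ^ 2 = 1 := by rw [hθ]; norm_num
  rw [EuclideanSpace.norm_sq_eq, Fin.sum_univ_four] at h1
  simp only [Real.norm_eq_abs, sq_abs] at h1
  refine ⟨!₂[-θ 1, θ 0, -θ 3, θ 2], ?_, ?_⟩
  · have h2 : ‖(!₂[-θ 1, θ 0, -θ 3, θ 2] : E 4)‖ ^ 2 = 1 := by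
      rw [EuclideanSpace.norm_sq_eq, Fin.sum_univ_four]
      simp only [Real.norm_eq_abs, sq_abs]
      simp
      linarith
    exact (pow_eq_one_iff_of_nonneg (norm_nonneg _) two_ne_zero).1 h2
  · rw [PiLp.inner_apply, Fin.sum_univ_four]
    simp
    ring

private theorem S5c_mom (θ : E 4) (hθ : ‖θ‖ = 1) (k : ℕ) :
    ∫ ζ, |inner ℝ θ ζ| ^ k ∂(sg 4) = mo k 0 := by
  obtain ⟨v, hv, hθv⟩ := S5c_perp θ hθ
  have h := s4_two hθ hv hθv (g := fun x _ => |x| ^ k) (by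
    show Continuous fun p : ℝ × ℝ => |p.1| ^ k
    fun_prop)
  have h2 : mo k 0 = ∫ ζ : E 4, |ζ 0| ^ k ∂(sg 4) := by
    unfold mo
    simp
  rw [h2]
  exact h

private noncomputable def S5c_c : ℕ → ℝ
  | 0 => 1 / 25
  | 1 => -4 / 5
  | 2 => 61 / 10
  | 3 => -103 / 5
  | 4 => 505 / 16
  | 5 => -15
  | 6 => -801 / 80
  | 7 => 6
  | 8 => 5
  | 9 => 0
  | 10 => -9 / 4
  | _ => 0

private theorem S5c_poly (c : ℕ → ℝ) (θ : E 4) (hθ : ‖θ‖ = 1) :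
    ∫ ζ, ∑ k ∈ Finset.range 11, c k * |inner ℝ θ ζ| ^ k ∂(sg 4) =
      ∑ k ∈ Finset.range 11, c k * mo k 0 := by
  rw [integral_finset_sum]
  · refine Finset.sum_congr rfl fun k _ => ?_
    rw [integral_const_mul, S5c_mom θ hθ k]
  · intro k _
    exact s4_int (by fun_prop)

private theorem S5c_norm (θ ζ : E 4) (hθ : ‖θ‖ = 1) (hζ : ‖ζ‖ = 1) :
    ‖kr θ ζ‖ ^ 2 = ∑ k ∈ Finset.range 11, S5c_c k * |inner ℝ θ ζ| ^ k := by
  unfold kr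
  rw [norm_sub_sq_real, norm_smul, norm_smul, inner_smul_left, inner_smul_right,
    real_inner_comm, hθ, hζ]
  simp only [Finset.sum_range_succ, Finset.sum_range_zero, S5c_c, Real.norm_eq_abs, mul_one,
    sq_abs, RCLike.conj_to_real]
  generalize inner ℝ ζ θ = t
  rcases abs_cases t with ⟨h, _⟩ | ⟨h, _⟩
  · rw [h]; ring
  · rw [h]; ring

theorem kr_sq : ∫ θ, ∫ ζ, ‖kr θ ζ‖ ^ 2 ∂(sg 4) ∂(sg 4) ≤ 11 / 2000 := by
  have key : ∀ θ : E 4, ‖θ‖ = 1 → ∫ ζ, ‖kr θ ζ‖ ^ 2 ∂(sg 4) =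
      ∑ k ∈ Finset.range 11, S5c_c k * mo k 0 := by
    intro θ hθ
    have h1 : ∀ᵐ ζ ∂(sg 4), ‖kr θ ζ‖ ^ 2 =
        ∑ k ∈ Finset.range 11, S5c_c k * |inner ℝ θ ζ| ^ k := by
      filter_upwards [s4_ae] with ζ hζ
      exact S5c_norm θ ζ hθ hζ
    rw [integral_congr_ae h1]
    exact S5c_poly S5c_c θ hθ
  have h2 : ∫ θ, ∫ ζ, ‖kr θ ζ‖ ^ 2 ∂(sg 4) ∂(sg 4) =
      ∑ k ∈ Finset.range 11, S5c_c k * mo k 0 := by
    rw [integral_congr_ae (s4_ae.mono key)]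
    simp
  rw [h2]
  obtain ⟨e0, e2, e4, -, -, -⟩ := mo_even
  obtain ⟨e6, -, -⟩ := mo_even6
  obtain ⟨e8, -, -⟩ := mo_even8
  obtain ⟨e10, -, -⟩ := mo_even10
  obtain ⟨o1, o3, o5, o7⟩ := mo_odd
  simp only [Finset.sum_range_succ, Finset.sum_range_zero, S5c_c]
  rw [e0, e2, e4, e6, e8, e10, o1, o3, o5, o7]
  have hpi : Real.pi < 3.1416 := Real.pi_lt_d4
  have hpos : 0 < Real.pi := Real.pi_pos
  have hinv : 1 / 3.1416 ≤ 1 / Real.pi := by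
    apply one_div_le_one_div_of_le hpos hpi.le
  have h3 : ∀ a b : ℝ, b ≠ 0 → a / (b * Real.pi) = a / b * (1 / Real.pi) := by
    intro a b hb
    field_simp
  rw [h3 4 3 (by norm_num), h3 8 15 (by norm_num), h3 32 105 (by norm_num),
    h3 64 315 (by norm_num)]
  norm_num at hinv ⊢
  linarith

end Pool.Agent.LibSP93
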