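import Pool.Agent.LibSP93.S5a
import Pool.Agent.LibSP93.S5b
import Pool.Agent.LibSP93.S5c
import Pool.Agent.LibSP93.T4

/-!
[SP93 S5] `mink` with `A θ = ∫ G • kr`, `B θ = -(9/2) ∫ (G t⁵) • ζ`, `c = 1/4`: `(5/4)(11/2000) + 5 (81/4)/86016 = .00806 ≤ (11/25)(8/(15π))² = .01268`
(`cs_vec`, S5c, S5b, `π < 3.1416`).
-/

set_option autoImplicit false

open MeasureTheory Set

namespace Pool.Agent.LibSP93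

open Pool.Agent.LibSP74 Pool.Agent.LibSP52

private lemma s5_kr_cont : Continuous (Function.uncurry kr) := by
  have : (Function.uncurry kr) = fun p : E 4 × E 4 =>
      (6 * |inner ℝ p.1 p.2| * inner ℝ p.1 p.2 - inner ℝ p.1 p.2 - 35 / 4 * inner ℝ p.1 p.2 ^ 3 +
        9 / 2 * inner ℝ p.1 p.2 ^ 5) • p.2 -
      (2 * |inner ℝ p.1 p.2| - 1 / 5 - 15 / 4 * inner ℝ p.1 p.2 ^ 2 +
        5 / 2 * inner ℝ p.1 p.2 ^ 4) • p.1 := rfl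
  rw [this]
  fun_prop

private lemma s5_num : 5 / 4 * (11 / 2000) + 5 * ((81 / 4) * (1 / 86016)) ≤
    11 / 25 * (8 / (15 * Real.pi)) ^ 2 := by
  have h1 : Real.pi < 3.15 := Real.pi_lt_d2
  have h0 : 0 < Real.pi := Real.pi_pos
  have h2 : (8 / (15 * 3.15) : ℝ) ≤ 8 / (15 * Real.pi) := by
    apply div_le_div_of_nonneg_left (by norm_num) (by positivity)
    linarith
  have h3 : (8 / (15 * 3.15) : ℝ) ^ 2 ≤ (8 / (15 * Real.pi)) ^ 2 :=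
    pow_le_pow_left₀ (by norm_num) h2 2
  have h4 : (5 / 4 * (11 / 2000) + 5 * ((81 / 4) * (1 / 86016)) : ℝ) ≤
      11 / 25 * (8 / (15 * 3.15)) ^ 2 := by norm_num
  linarith

theorem BB_rem_sq {G : E 4 → ℝ} (h : Ort4 G) :
    ∫ θ, ‖BB G θ‖ ^ 2 ∂(sg 4) ≤ 11 / 25 * (8 / (15 * Real.pi)) ^ 2 * ∫ ζ, G ζ ^ 2 ∂(sg 4) := by
  have hG := h.cont
  have hV : 0 ≤ ∫ ζ, G ζ ^ 2 ∂(sg 4) := integral_nonneg fun _ => sq_nonneg _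
  have hA : Continuous fun θ => ∫ ζ, G ζ • kr θ ζ ∂(sg 4) := by
    apply s4_cont (f := fun θ ζ => G ζ • kr θ ζ)
    exact (hG.comp continuous_snd).smul s5_kr_cont
  have hD : Continuous fun θ : E 4 => ∫ ζ, (G ζ * inner ℝ θ ζ ^ 5) • ζ ∂(sg 4) := by
    apply s4_cont (f := fun (θ : E 4) (ζ : E 4) => (G ζ * inner ℝ θ ζ ^ 5) • ζ)
    exact (((hG.comp continuous_snd).mul
      ((continuous_fst.inner continuous_snd).pow 5)).smul continuous_snd)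
  have hB : Continuous fun θ : E 4 => (-(9 / 2 : ℝ)) • ∫ ζ, (G ζ * inner ℝ θ ζ ^ 5) • ζ ∂(sg 4) :=
    hD.const_smul (-(9 / 2 : ℝ))
  have h1 := mink hA hB (c := 1 / 4) (by norm_num)
  have h2 : ∫ θ, ‖∫ ζ, G ζ • kr θ ζ ∂(sg 4)‖ ^ 2 ∂(sg 4) ≤
      (∫ ζ, G ζ ^ 2 ∂(sg 4)) * (11 / 2000) :=
    (cs_vec hG s5_kr_cont).trans (mul_le_mul_of_nonneg_left kr_sq hV)
  have h3 : ∫ θ, ‖(-(9 / 2 : ℝ)) • ∫ ζ, (G ζ * inner ℝ θ ζ ^ 5) • ζ ∂(sg 4)‖ ^ 2 ∂(sg 4) =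
      81 / 4 * ∫ θ, ‖∫ ζ, (G ζ * inner ℝ θ ζ ^ 5) • ζ ∂(sg 4)‖ ^ 2 ∂(sg 4) := by
    rw [← integral_const_mul]
    refine integral_congr_ae (Filter.Eventually.of_forall fun θ => ?_)
    show ‖(-(9 / 2 : ℝ)) • ∫ ζ, (G ζ * inner ℝ θ ζ ^ 5) • ζ ∂(sg 4)‖ ^ 2 =
      81 / 4 * ‖∫ ζ, (G ζ * inner ℝ θ ζ ^ 5) • ζ ∂(sg 4)‖ ^ 2
    rw [norm_smul, mul_pow]
    congr 1
    rw [Real.norm_eq_abs, sq_abs]
    norm_num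
  have h4 := five h
  have h5 : ∫ θ, ‖BB G θ‖ ^ 2 ∂(sg 4) = ∫ θ, ‖(∫ ζ, G ζ • kr θ ζ ∂(sg 4)) +
      (-(9 / 2 : ℝ)) • ∫ ζ, (G ζ * inner ℝ θ ζ ^ 5) • ζ ∂(sg 4)‖ ^ 2 ∂(sg 4) := by
    refine integral_congr_ae (Filter.Eventually.of_forall fun θ => ?_)
    show ‖BB G θ‖ ^ 2 = _
    rw [BB_split h θ]
  have h6 := mul_le_mul_of_nonneg_right s5_num hV
  rw [h5]
  refine h1.trans ?_
  rw [h3]
  have h7 : (1 + 1 / (1 / 4 : ℝ)) = 5 := by norm_num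
  rw [h7]
  have h8 : (5 : ℝ) * (81 / 4 * ∫ θ, ‖∫ ζ, (G ζ * inner ℝ θ ζ ^ 5) • ζ ∂(sg 4)‖ ^ 2 ∂(sg 4)) ≤
      5 * (81 / 4 * (1 / 86016 * ∫ ζ, G ζ ^ 2 ∂(sg 4))) := by
    gcongr
  have h9 : (1 + 1 / 4 : ℝ) * ∫ θ, ‖∫ ζ, G ζ • kr θ ζ ∂(sg 4)‖ ^ 2 ∂(sg 4) ≤
      (1 + 1 / 4) * ((∫ ζ, G ζ ^ 2 ∂(sg 4)) * (11 / 2000)) := by
    gcongr
  nlinarith [h6, h8, h9]

end Pool.Agent.LibSP93
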