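import Pool.Agent.LibSP93.S3
import Pool.Agent.LibSP93.S4
import Pool.Agent.LibSP93.S5
import Pool.Agent.LibSP93.O5
import Pool.Agent.LibSP93.O6

/-!
[SP93 S6] THE SPECTRAL THEOREM.  `G = F - 80 hh F` (`Ort4`, O5), `BB F = 80 • BB (hh F) + BB G` (linearity), so by `cross`
`∫ ‖BB F‖² = 6400 ∫ ‖BB (hh F)‖² + ∫ ‖BB G‖² ≤ 6400 * 177 (8/(315π))² ∫ (hh F)² + (11/25) g² ∫ G²`, `177 (8/315)² ≤ (11/25)(8/15)²`, and `pyth`.
-/

set_option autoImplicit false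

open MeasureTheory Set

namespace Pool.Agent.LibSP93

open Pool.Agent.LibSP74 Pool.Agent.LibSP52

private theorem S6_cont {F : E 4 → ℝ} (hF : Continuous F) (θ : E 4) : Continuous fun ζ : E 4 => F ζ • kk θ ζ := by
  refine hF.smul ?_
  have h1 : Continuous fun ζ : E 4 => Function.uncurry kk (θ, ζ) :=
    continuous_kk.comp (continuous_const.prodMk continuous_id)
  exact h1

private theorem S6_lin {H G : E 4 → ℝ} (hH : Continuous H) (hG : Continuous G) (θ : E 4) :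
    BB (fun ζ => 80 * H ζ + G ζ) θ = (80 : ℝ) • BB H θ + BB G θ := by
  unfold BB
  have h1 : Integrable (fun ζ => (80 : ℝ) • (H ζ • kk θ ζ)) (sg 4) := (s4_int (S6_cont hH θ)).smul (80 : ℝ)
  have h2 : Integrable (fun ζ => G ζ • kk θ ζ) (sg 4) := s4_int (S6_cont hG θ)
  rw [← integral_smul, ← integral_add h1 h2]
  refine integral_congr_ae (Filter.Eventually.of_forall fun ζ => ?_)
  change (80 * H ζ + G ζ) • kk θ ζ = (80 : ℝ) • (H ζ • kk θ ζ) + G ζ • kk θ ζ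
  rw [add_smul, mul_smul]

theorem spec {F : E 4 → ℝ} (h : Ort F) :
    ∫ θ, ‖BB F θ‖ ^ 2 ∂(sg 4) ≤ 11 / 25 * (8 / (15 * Real.pi)) ^ 2 * ∫ ζ, F ζ ^ 2 ∂(sg 4) := by
  obtain ⟨H, hH⟩ : ∃ H, H = hh F := ⟨_, rfl⟩
  obtain ⟨G, hG⟩ : ∃ G : E 4 → ℝ, G = fun ζ => F ζ - 80 * hh F ζ := ⟨_, rfl⟩
  have hcF := h.cont
  have hcH : Continuous H := by
    rw [hH]
    exact continuous_hh hcF
  have hG4 : Ort4 G := by
    rw [hG]
    exact h.rem
  have hcG : Continuous G := hG4.cont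
  have hF : F = fun ζ => 80 * H ζ + G ζ := by
    funext ζ
    rw [hG, hH]
    ring
  have hlin : ∀ θ, BB F θ = (80 : ℝ) • BB H θ + BB G θ := by
    intro θ
    rw [hF]
    exact S6_lin hcH hcG θ
  have hsq : ∀ θ, ‖BB F θ‖ ^ 2 =
      6400 * ‖BB H θ‖ ^ 2 + (160 * inner ℝ (BB H θ) (BB G θ) + ‖BB G θ‖ ^ 2) := by
    intro θ
    rw [hlin θ, norm_add_sq_real, norm_smul, real_inner_smul_left]
    norm_num
    ring
  have hcBH := continuous_BB hcH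
  have hcBG := continuous_BB hcG
  have e1 : Integrable (fun θ => 6400 * ‖BB H θ‖ ^ 2) (sg 4) := s4_int (continuous_const.mul (hcBH.norm.pow 2))
  have e2 : Integrable (fun θ => 160 * inner ℝ (BB H θ) (BB G θ)) (sg 4) :=
    s4_int (continuous_const.mul (hcBH.inner hcBG))
  have e3 : Integrable (fun θ => ‖BB G θ‖ ^ 2) (sg 4) := s4_int (hcBG.norm.pow 2)
  have e23 : Integrable (fun θ => 160 * inner ℝ (BB H θ) (BB G θ) + ‖BB G θ‖ ^ 2) (sg 4) := e2.add e3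
  have hint : ∫ θ, ‖BB F θ‖ ^ 2 ∂(sg 4) =
      6400 * (∫ θ, ‖BB H θ‖ ^ 2 ∂(sg 4)) + ∫ θ, ‖BB G θ‖ ^ 2 ∂(sg 4) := by
    have h1 : ∫ θ, ‖BB F θ‖ ^ 2 ∂(sg 4) =
        ∫ θ, (6400 * ‖BB H θ‖ ^ 2 + (160 * inner ℝ (BB H θ) (BB G θ) + ‖BB G θ‖ ^ 2)) ∂(sg 4) :=
      integral_congr_ae (Filter.Eventually.of_forall hsq)
    rw [h1, integral_add e1 e23, integral_add e2 e3, integral_const_mul, integral_const_mul]
    have h2 := cross h hG4
    rw [← hH] at h2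
    rw [h2]
    ring
  have hB := BB_hh_sq h
  rw [← hH] at hB
  have hR := BB_rem_sq hG4
  have hP := pyth h
  have hP2 : ∫ ζ, F ζ ^ 2 ∂(sg 4) = 6400 * (∫ ζ, H ζ ^ 2 ∂(sg 4)) + ∫ ζ, G ζ ^ 2 ∂(sg 4) := by
    rw [hP, hG, hH]
  have hH0 : 0 ≤ ∫ ζ, H ζ ^ 2 ∂(sg 4) := integral_nonneg fun ζ => sq_nonneg _
  have hpi := Real.pi_pos
  have hk : 177 * (8 / (315 * Real.pi)) ^ 2 ≤ 11 / 25 * (8 / (15 * Real.pi)) ^ 2 := by
    have h3 : (8 / (315 * Real.pi)) ^ 2 = (1 / Real.pi) ^ 2 * (64 / 99225) := by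
      field_simp
      norm_num
    have h4 : (8 / (15 * Real.pi)) ^ 2 = (1 / Real.pi) ^ 2 * (64 / 225) := by
      field_simp
      norm_num
    rw [h3, h4]
    have h5 : 0 ≤ (1 / Real.pi) ^ 2 := by positivity
    nlinarith
  rw [hint, hB, hP2]
  have h6 := mul_le_mul_of_nonneg_right hk hH0
  nlinarith

end Pool.Agent.LibSP93
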