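import Pool.Agent.LibSP93.M5
import Pool.Agent.LibSP93.S6
import Pool.Agent.LibSP93.Q8
import Pool.Agent.LibSP93.M1
import Pool.Agent.LibSP93.O1

/-!
[SP93 F3] PAPER PROOF.  `g = 8/(15π)`, `F = N - a`.  `Ort F` (`hg`, `second_moment` of LibSP52/B3.lean).  `BB N θ = (a g) • θ + BB F θ` for `‖θ‖ = 1` (linearity, `BB_one`).
`∫_π ⟪θ, BB F θ⟫ = ∫_θ ∫_ζ F ζ (6|t|³ - 2|t|) = (6g - 2·4/(3π)) ∫ F = 0` (`c_snd`, `inner_BB`, `s4_swap`, `z3`, `z1`).  So
`∫_π ⟪x, BB N θ⟫ = a g b + ∫_π ⟪x - bθ, BB F θ⟫`.  `∫_π ‖x - bθ‖² = M - 2b² + b² = M - b²` (`c_fst`), so `b² ≤ M`.  Cauchy-Schwarz in `L²(π)`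
(`|⟪y,z⟫| ≤ ‖y‖‖z‖ ≤ (c‖y‖² + ‖z‖²/c)/2` for all `c > 0`) and `spec` (through `c_snd`): `∫_π ⟪x - bθ, BB F θ⟫ ≥ -√(M-b²) √(11/25 g² V)`.  Then `main_ineq4`.
-/

set_option autoImplicit false

open MeasureTheory Set

namespace Pool.Agent.LibSP93

open Pool.Agent.LibSP74 Pool.Agent.LibSP52

private lemma f3_ort {N : E 4 → ℝ} (h : IsN N)
    (hg : ∀ u : E 4, ∫ ζ, N ζ * inner ℝ u ζ ^ 2 ∂(sg 4) = (∫ ζ, N ζ ∂(sg 4)) / 4 * ‖u‖ ^ 2)
    {a : ℝ} (ha : a = ∫ ζ, N ζ ∂(sg 4)) : Ort (fun ζ => N ζ - a) where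
  cont := h.cont.sub continuous_const
  zero := by
    rw [integral_sub (s4_int h.cont) (s4_int continuous_const), integral_const, probReal_univ,
      one_smul, ha, sub_self]
  two u := by
    have hN := h.cont
    have e : (fun ζ => (N ζ - a) * inner ℝ u ζ ^ 2) =
        fun ζ => N ζ * inner ℝ u ζ ^ 2 - a * inner ℝ u ζ ^ 2 := by
      funext ζ
      ring
    have h4 : ∫ ζ, inner ℝ u ζ ^ 2 ∂(sg 4) = ‖u‖ ^ 2 / ((4 : ℕ) : ℝ) :=
      second_moment (d := 4) (by norm_num) u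
    have c1 : Continuous fun ζ : E 4 => inner ℝ u ζ ^ 2 := by fun_prop
    have i1 : Integrable (fun ζ => N ζ * inner ℝ u ζ ^ 2) (sg 4) := s4_int (hN.mul c1)
    have i2 : Integrable (fun ζ => a * inner ℝ u ζ ^ 2) (sg 4) := (s4_int c1).const_mul a
    rw [e, integral_sub i1 i2, integral_const_mul, hg u, h4, ← ha, Nat.cast_ofNat]
    ring

private lemma f3_BB {N : E 4 → ℝ} (h : IsN N) (a : ℝ) {θ : E 4} (hθ : ‖θ‖ = 1) :
    BB N θ = (a * (8 / (15 * Real.pi))) • θ + BB (fun ζ => N ζ - a) θ := by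
  have hN := h.cont
  have hk : Continuous fun ζ => kk θ ζ :=
    Continuous.comp (g := Function.uncurry kk) (f := fun ζ : E 4 => (θ, ζ)) continuous_kk
      (Continuous.prodMk_right θ)
  have e : (fun ζ => (N ζ - a) • kk θ ζ) = fun ζ => N ζ • kk θ ζ - a • ((1 : ℝ) • kk θ ζ) := by
    funext ζ
    simp only [one_smul, sub_smul]
  have i1 : Integrable (fun ζ => N ζ • kk θ ζ) (sg 4) := s4_int (hN.smul hk)
  have i2 : Integrable (fun ζ => a • ((1 : ℝ) • kk θ ζ)) (sg 4) :=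
    s4_int ((hk.const_smul (1 : ℝ)).const_smul a)
  have h1 : BB (fun ζ => N ζ - a) θ = BB N θ - a • BB (fun _ => 1) θ := by
    unfold BB
    have h2 : ∫ ζ, (N ζ - a) • kk θ ζ ∂(sg 4) = ∫ ζ, (N ζ • kk θ ζ - a • ((1 : ℝ) • kk θ ζ)) ∂(sg 4) :=
      congrArg (fun f : E 4 → E 4 => ∫ ζ, f ζ ∂(sg 4)) e
    have h3 : ∫ ζ, (N ζ • kk θ ζ - a • ((1 : ℝ) • kk θ ζ)) ∂(sg 4) =
        ∫ ζ, N ζ • kk θ ζ ∂(sg 4) - ∫ ζ, a • ((1 : ℝ) • kk θ ζ) ∂(sg 4) := integral_sub i1 i2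
    have h4 : ∫ ζ, a • ((1 : ℝ) • kk θ ζ) ∂(sg 4) = a • ∫ ζ, (1 : ℝ) • kk θ ζ ∂(sg 4) :=
      integral_smul a _
    exact (h2.trans h3).trans (congrArg (fun z => ∫ ζ, N ζ • kk θ ζ ∂(sg 4) - z) h4)
  have h5 : BB N θ = a • BB (fun _ => 1) θ + BB (fun ζ => N ζ - a) θ := by
    rw [h1]
    exact (add_sub_cancel _ _).symm
  have h6 : a • BB (fun _ => 1) θ = (a * (8 / (15 * Real.pi))) • θ :=
    (congrArg (fun z => a • z) (BB_one hθ)).trans (smul_smul _ _ _)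
  exact h5.trans (congrArg (fun z => z + BB (fun ζ => N ζ - a) θ) h6)

/-- The mean of `⟪θ, BB F θ⟫`. -/
private lemma f3_zero {F : E 4 → ℝ} (h : Ort F) : ∫ θ, inner ℝ θ (BB F θ) ∂(sg 4) = 0 := by
  have hF := h.cont
  have h1 : ∀ θ : E 4, inner ℝ θ (BB F θ) = ∫ ζ, F ζ * inner ℝ θ (kk θ ζ) ∂(sg 4) :=
    fun θ => inner_BB hF θ θ
  simp only [h1]
  have hc : Continuous (Function.uncurry fun θ ζ : E 4 => F ζ * inner ℝ θ (kk θ ζ)) := by
    have h2 : Continuous fun p : E 4 × E 4 => F p.2 := hF.comp continuous_snd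
    have h3 : Continuous fun p : E 4 × E 4 => inner ℝ p.1 (kk p.1 p.2) :=
      continuous_fst.inner continuous_kk
    exact h2.mul h3
  rw [s4_swap hc]
  have h2 : ∀ᵐ ζ ∂(sg 4), ∫ θ, F ζ * inner ℝ θ (kk θ ζ) ∂(sg 4) =
      F ζ * (6 * (8 / (15 * Real.pi)) - 2 * (4 / (3 * Real.pi))) := by
    filter_upwards [s4_ae] with ζ hζ
    rw [integral_const_mul]
    congr 1
    have h3 : ∀ᵐ θ ∂(sg 4), inner ℝ θ (kk θ ζ) = 6 * |inner ℝ ζ θ| ^ 3 - 2 * |inner ℝ ζ θ| := by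
      filter_upwards [s4_ae] with θ hθ
      unfold kk
      rw [inner_sub_right, inner_smul_right, inner_smul_right, real_inner_self_eq_norm_sq, hθ,
        real_inner_comm θ ζ]
      have h4 : |inner ℝ θ ζ| ^ 2 = inner ℝ θ ζ ^ 2 := sq_abs _
      have h5 : |inner ℝ θ ζ| ^ 3 = |inner ℝ θ ζ| * inner ℝ θ ζ ^ 2 := by
        rw [← h4]
        ring
      rw [h5]
      ring
    have c1 : Continuous fun θ : E 4 => |inner ℝ ζ θ| ^ 3 := by fun_prop
    have c2 : Continuous fun θ : E 4 => |inner ℝ ζ θ| := by fun_prop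
    rw [integral_congr_ae h3, integral_sub ((s4_int c1).const_mul _) ((s4_int c2).const_mul _),
      integral_const_mul, integral_const_mul, z3 hζ, z1 hζ]
  rw [integral_congr_ae h2, integral_mul_const, h.zero, zero_mul]

theorem cpl_bound {N : E 4 → ℝ} (h : IsN N)
    (hg : ∀ u : E 4, ∫ ζ, N ζ * inner ℝ u ζ ^ 2 ∂(sg 4) = (∫ ζ, N ζ ∂(sg 4)) / 4 * ‖u‖ ^ 2)
    {π : Measure (E 4 × E 4)} (hπ : IsCpl N π) {a b M V : ℝ} (ha : a = ∫ ζ, N ζ ∂(sg 4))
    (hb : b = ∫ p, inner ℝ p.1 p.2 ∂π) (hM : M = ∫ x, ‖x‖ ^ 2 ∂(cm N))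
    (hV : V = ∫ ζ, (N ζ - a) ^ 2 ∂(sg 4)) :
    b ^ 2 ≤ M ∧
      64 / (15 * Real.pi) * (a * b - √(11 / 25 * V) * √(M - b ^ 2)) ≤ sprawl N := by
  have hprob := hπ.prob
  have hN := h.cont
  have hO := f3_ort h hg ha
  set F : E 4 → ℝ := fun ζ => N ζ - a with hF
  set g : ℝ := 8 / (15 * Real.pi) with hgdef
  have hpi := Real.pi_pos
  have hg0 : 0 < g := by positivity
  have hFc : Continuous F := hO.cont
  have hBc : Continuous (BB F) := continuous_BB hFc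
  have hBNc : Continuous (BB N) := continuous_BB hN
  have hae := c_ae h hπ
  -- the second moment
  have hM' : ∫ p : E 4 × E 4, ‖p.1‖ ^ 2 ∂π = M := by
    rw [hM]
    exact c_fst hπ (f := fun x : E 4 => ‖x‖ ^ 2) (by
      have hc : Continuous fun x : E 4 => ‖x‖ ^ 2 := by fun_prop
      exact hc.stronglyMeasurable)
  have hY : ∫ p : E 4 × E 4, ‖p.1 - b • p.2‖ ^ 2 ∂π = M - b ^ 2 := by
    have e1 : ∀ᵐ p ∂π, ‖p.1 - b • p.2‖ ^ 2 =
        ‖p.1‖ ^ 2 - (2 * b) * inner ℝ p.1 p.2 + b ^ 2 := by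
      filter_upwards [hae] with p hp
      rw [@norm_sub_sq_real, inner_smul_right, norm_smul, hp.2, mul_one, Real.norm_eq_abs, sq_abs]
      ring
    have j1 : Integrable (fun p : E 4 × E 4 => ‖p.1‖ ^ 2) π := c_int h hπ (by fun_prop)
    have j2 : Integrable (fun p : E 4 × E 4 => inner ℝ p.1 p.2) π := c_int h hπ (by fun_prop)
    have j3 : Integrable (fun p : E 4 × E 4 => (2 * b) * inner ℝ p.1 p.2) π := j2.const_mul _
    have j4 : Integrable (fun p : E 4 × E 4 => ‖p.1‖ ^ 2 - (2 * b) * inner ℝ p.1 p.2) π := j1.sub j3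
    rw [integral_congr_ae e1, integral_add j4 (integrable_const _),
      integral_sub j1 j3, integral_const_mul, integral_const, probReal_univ, one_smul,
      hM', ← hb]
    ring
  have hY0 : 0 ≤ M - b ^ 2 := by
    rw [← hY]
    exact integral_nonneg fun p => by positivity
  refine ⟨by linarith, ?_⟩
  -- the operator
  have hV0 : 0 ≤ V := by
    rw [hV]
    exact integral_nonneg fun ζ => by positivity
  have hZ : ∫ p : E 4 × E 4, ‖BB F p.2‖ ^ 2 ∂π ≤ 11 / 25 * g ^ 2 * V := by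
    have h1 : ∫ p : E 4 × E 4, ‖BB F p.2‖ ^ 2 ∂π = ∫ θ, ‖BB F θ‖ ^ 2 ∂(sg 4) :=
      c_snd hπ (f := fun θ => ‖BB F θ‖ ^ 2) (by fun_prop)
    rw [h1, hV]
    exact spec hO
  set I : ℝ := ∫ p : E 4 × E 4, inner ℝ (p.1 - b • p.2) (BB F p.2) ∂π with hI
  have hI' : Integrable (fun p : E 4 × E 4 => inner ℝ (p.1 - b • p.2) (BB F p.2)) π :=
    c_int h hπ (by fun_prop)
  have hYi : Integrable (fun p : E 4 × E 4 => ‖p.1 - b • p.2‖ ^ 2) π := c_int h hπ (by fun_prop)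
  have hZi : Integrable (fun p : E 4 × E 4 => ‖BB F p.2‖ ^ 2) π := c_int h hπ (by fun_prop)
  have hquad : ∀ c : ℝ, 0 ≤ (M - b ^ 2) * (c * c) + (2 * I) * c + (11 / 25 * g ^ 2 * V) := by
    intro c
    have h0 : 0 ≤ ∫ p : E 4 × E 4, ‖c • (p.1 - b • p.2) + BB F p.2‖ ^ 2 ∂π :=
      integral_nonneg fun p => by positivity
    have e1 : (fun p : E 4 × E 4 => ‖c • (p.1 - b • p.2) + BB F p.2‖ ^ 2) = fun p =>
        c ^ 2 * ‖p.1 - b • p.2‖ ^ 2 + (2 * c) * inner ℝ (p.1 - b • p.2) (BB F p.2) +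
          ‖BB F p.2‖ ^ 2 := by
      funext p
      rw [@norm_add_sq_real, inner_smul_left, norm_smul, mul_pow, Real.norm_eq_abs, sq_abs]
      simp only [conj_trivial]
      ring
    have j1 : Integrable (fun p : E 4 × E 4 => c ^ 2 * ‖p.1 - b • p.2‖ ^ 2) π := hYi.const_mul _
    have j2 : Integrable (fun p : E 4 × E 4 =>
        (2 * c) * inner ℝ (p.1 - b • p.2) (BB F p.2)) π := hI'.const_mul _
    have j3 : Integrable (fun p : E 4 × E 4 => c ^ 2 * ‖p.1 - b • p.2‖ ^ 2 +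
        (2 * c) * inner ℝ (p.1 - b • p.2) (BB F p.2)) π := j1.add j2
    rw [e1, integral_add j3 hZi, integral_add j1 j2, integral_const_mul, integral_const_mul,
      hY, ← hI] at h0
    nlinarith
  have hdisc := discrim_le_zero hquad
  have hI2 : I ^ 2 ≤ (11 / 25 * V) * (M - b ^ 2) * g ^ 2 := by
    unfold discrim at hdisc
    nlinarith
  have hIlow : -(g * (√(11 / 25 * V) * √(M - b ^ 2))) ≤ I := by
    have h1 : |I| ≤ g * (√(11 / 25 * V) * √(M - b ^ 2)) := by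
      refine abs_le_of_sq_le_sq ?_ (by positivity)
      rw [mul_pow, mul_pow, Real.sq_sqrt (by positivity), Real.sq_sqrt hY0]
      linarith
    exact (abs_le.1 h1).1
  -- the main inequality
  have hmain := main_ineq4 h hπ
  have hzero : ∫ p : E 4 × E 4, inner ℝ p.2 (BB F p.2) ∂π = 0 := by
    have h1 : ∫ p : E 4 × E 4, inner ℝ p.2 (BB F p.2) ∂π = ∫ θ, inner ℝ θ (BB F θ) ∂(sg 4) :=
      c_snd hπ (f := fun θ => inner ℝ θ (BB F θ)) (continuous_id.inner hBc)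
    rw [h1]
    exact f3_zero hO
  have hval : ∫ p, inner ℝ p.1 (BB N p.2) ∂π = a * g * b + I := by
    have e1 : ∀ᵐ p ∂π, inner ℝ p.1 (BB N p.2) = (a * g) * inner ℝ p.1 p.2 +
        (inner ℝ (p.1 - b • p.2) (BB F p.2) + b * inner ℝ p.2 (BB F p.2)) := by
      filter_upwards [hae] with p hp
      rw [f3_BB h a hp.2, inner_add_right, inner_smul_right, inner_sub_left, inner_smul_left]
      simp only [conj_trivial]
      ring
    have j1 : Integrable (fun p : E 4 × E 4 => inner ℝ p.1 p.2) π := c_int h hπ (by fun_prop)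
    have j2 : Integrable (fun p : E 4 × E 4 => inner ℝ p.2 (BB F p.2)) π :=
      c_int h hπ (by fun_prop)
    have j3 : Integrable (fun p : E 4 × E 4 => (a * g) * inner ℝ p.1 p.2) π := j1.const_mul _
    have j4 : Integrable (fun p : E 4 × E 4 => b * inner ℝ p.2 (BB F p.2)) π := j2.const_mul _
    have j5 : Integrable (fun p : E 4 × E 4 => inner ℝ (p.1 - b • p.2) (BB F p.2) +
        b * inner ℝ p.2 (BB F p.2)) π := hI'.add j4
    rw [integral_congr_ae e1, integral_add j3 j5, integral_add hI' j4, integral_const_mul,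
      integral_const_mul, hzero, ← hb, ← hI]
    ring
  rw [hval] at hmain
  have h64 : 64 / (15 * Real.pi) = 8 * g := by
    rw [hgdef]
    ring
  rw [h64]
  nlinarith

end Pool.Agent.LibSP93
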