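import Pool.Agent.LibSP93.Q1

/-!
[SP93 Q4] PAPER PROOF.  `s = ⟪θ, η⟫`, `η = s θ + r η'` with `r = √(1 - s²)`, `‖η'‖ = 1`, `⟪θ, η'⟫ = 0` (if `r = 0` take for `η'` any unit
vector orthogonal to `θ`).  By `s4_two` the integral is `∫ |t|^i t^m (s t + r w)^k` with `t = ζ 0`, `w = ζ 1`; binomial theorem; the odd powers
of `w` integrate to zero (`s4_perp`, or `s4_iso`), and `|t|^i t^(m+k-2j) = |t|^(i+m+k-2j)` because `m + k - 2 j` is even.
-/

set_option autoImplicit false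

open MeasureTheory Set

namespace Pool.Agent.LibSP93

open Pool.Agent.LibSP74 Pool.Agent.LibSP52

private theorem Q4_perp (θ : E 4) (hθ : ‖θ‖ = 1) : ∃ v : E 4, ‖v‖ = 1 ∧ inner ℝ θ v = 0 := by
  have h1 : ‖θ‖ ^ 2 = 1 := by rw [hθ]; norm_num
  rw [EuclideanSpace.norm_sq_eq, Fin.sum_univ_four] at h1
  simp only [Real.norm_eq_abs, sq_abs] at h1
  refine ⟨!₂[-θ 1, θ 0, -θ 3, θ 2], ?_, ?_⟩
  · have h2 : ‖(!₂[-θ 1, θ 0, -θ 3, θ 2] : E 4)‖ ^ 2 = 1 := by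
      rw [EuclideanSpace.norm_sq_eq, Fin.sum_univ_four]
      simp only [Real.norm_eq_abs, sq_abs]
      simp
      linarith
    exact (pow_eq_one_iff_of_nonneg (norm_nonneg _) two_ne_zero).1 h2
  · rw [PiLp.inner_apply, Fin.sum_univ_four]
    simp
    ring

private theorem Q4_dec (θ η : E 4) (hθ : ‖θ‖ = 1) (hη : ‖η‖ = 1) :
    ∃ (r : ℝ) (v : E 4), r ^ 2 = 1 - inner ℝ θ η ^ 2 ∧ ‖v‖ = 1 ∧ inner ℝ θ v = 0 ∧
      η = inner ℝ θ η • θ + r • v := by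
  have hs : ‖η - inner ℝ θ η • θ‖ ^ 2 = 1 - inner ℝ θ η ^ 2 := by
    rw [norm_sub_sq_real, norm_smul, inner_smul_right, hη, hθ, real_inner_comm, mul_one,
      Real.norm_eq_abs, sq_abs]
    ring
  have ho : inner ℝ θ (η - inner ℝ θ η • θ) = 0 := by
    rw [inner_sub_right, inner_smul_right, real_inner_self_eq_norm_sq, hθ]
    ring
  by_cases h0 : η - inner ℝ θ η • θ = 0
  · obtain ⟨v, hv, hθv⟩ := Q4_perp θ hθ
    refine ⟨0, v, ?_, hv, hθv, ?_⟩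
    · rw [← hs, h0]
      simp
    · rw [zero_smul, add_zero]
      exact sub_eq_zero.1 h0
  · have hr : ‖η - inner ℝ θ η • θ‖ ≠ 0 := norm_ne_zero_iff.2 h0
    refine ⟨‖η - inner ℝ θ η • θ‖, ‖η - inner ℝ θ η • θ‖⁻¹ • (η - inner ℝ θ η • θ), hs, ?_, ?_, ?_⟩
    · rw [norm_smul, norm_inv, norm_norm]
      exact inv_mul_cancel₀ hr
    · rw [inner_smul_right, ho, mul_zero]
    · rw [smul_smul, mul_inv_cancel₀ hr, one_smul]
      abel

private theorem Q4_sum (f : ℕ → ℝ) (k : ℕ) (h : ∀ l, Odd l → f l = 0) :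
    ∑ l ∈ Finset.range (k + 1), f l = ∑ j ∈ Finset.range (k / 2 + 1), f (2 * j) := by
  rw [← Finset.sum_image (f := f) (g := fun j => 2 * j) (s := Finset.range (k / 2 + 1))
    (by intro a _ b _ hab; simpa using hab)]
  symm
  apply Finset.sum_subset
  · intro l hl
    simp only [Finset.mem_image, Finset.mem_range] at hl ⊢
    obtain ⟨j, hj, rfl⟩ := hl
    omega
  · intro l hl hl2
    apply h
    simp only [Finset.mem_image, Finset.mem_range, not_exists, not_and] at hl hl2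
    by_contra hodd
    rw [Nat.not_odd_iff_even] at hodd
    obtain ⟨c, hc⟩ := hodd
    exact hl2 c (by omega) (by omega)

private theorem Q4_flip {g : ℝ → ℝ → ℝ} (hg : Continuous (Function.uncurry g)) :
    ∫ ζ : E 4, g (ζ 0) (-ζ 1) ∂(sg 4) = ∫ ζ : E 4, g (ζ 0) (ζ 1) ∂(sg 4) := by
  have h := s4_two (u := EuclideanSpace.single 0 1) (v := -EuclideanSpace.single 1 1)
    (by simp) (by simp) (by simp [EuclideanSpace.inner_single_left]) hg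
  rw [← h]
  refine integral_congr_ae (Filter.Eventually.of_forall fun ζ => ?_)
  simp [EuclideanSpace.inner_single_left]

private theorem Q4_odd (i n l : ℕ) (hl : Odd l) :
    ∫ ζ : E 4, |ζ 0| ^ i * ζ 0 ^ n * ζ 1 ^ l ∂(sg 4) = 0 := by
  have h := Q4_flip (g := fun t w => |t| ^ i * t ^ n * w ^ l) (by
    show Continuous fun p : ℝ × ℝ => |p.1| ^ i * p.1 ^ n * p.2 ^ l
    fun_prop)
  have h2 : ∫ ζ : E 4, |ζ 0| ^ i * ζ 0 ^ n * (-ζ 1) ^ l ∂(sg 4) =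
      -∫ ζ : E 4, |ζ 0| ^ i * ζ 0 ^ n * ζ 1 ^ l ∂(sg 4) := by
    rw [← integral_neg]
    refine integral_congr_ae (Filter.Eventually.of_forall fun ζ => ?_)
    simp only
    rw [hl.neg_pow]
    ring
  have h3 : ∫ ζ : E 4, |ζ 0| ^ i * ζ 0 ^ n * (-ζ 1) ^ l ∂(sg 4) =
      ∫ ζ : E 4, |ζ 0| ^ i * ζ 0 ^ n * ζ 1 ^ l ∂(sg 4) := h
  rw [h3] at h2
  linarith

private theorem Q4_even (i n j : ℕ) (hn : Even n) :
    ∫ ζ : E 4, |ζ 0| ^ i * ζ 0 ^ n * ζ 1 ^ (2 * j) ∂(sg 4) = mo (i + n) j := by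
  unfold mo
  refine integral_congr_ae (Filter.Eventually.of_forall fun ζ => ?_)
  simp only
  rw [pow_add, hn.pow_abs]

theorem pair_mom {θ η : E 4} (hθ : ‖θ‖ = 1) (hη : ‖η‖ = 1) (i m k : ℕ) (hmk : Even (m + k)) :
    ∫ ζ, |inner ℝ θ ζ| ^ i * inner ℝ θ ζ ^ m * inner ℝ η ζ ^ k ∂(sg 4) =
      ∑ j ∈ Finset.range (k / 2 + 1), (k.choose (2 * j) : ℝ) * inner ℝ θ η ^ (k - 2 * j) *
        (1 - inner ℝ θ η ^ 2) ^ j * mo (i + m + k - 2 * j) j := by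
  obtain ⟨r, v, hr, hv, hθv, hdec⟩ := Q4_dec θ η hθ hη
  generalize hs : inner ℝ θ η = s at hr hdec ⊢
  have h1 : ∫ ζ, |inner ℝ θ ζ| ^ i * inner ℝ θ ζ ^ m * inner ℝ η ζ ^ k ∂(sg 4) =
      ∫ ζ : E 4, |ζ 0| ^ i * ζ 0 ^ m * (r * ζ 1 + s * ζ 0) ^ k ∂(sg 4) := by
    have h2 := s4_two hθ hv hθv (g := fun t w => |t| ^ i * t ^ m * (r * w + s * t) ^ k) (by
      show Continuous fun p : ℝ × ℝ => |p.1| ^ i * p.1 ^ m * (r * p.2 + s * p.1) ^ k
      fun_prop)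
    have h3 : ∫ ζ, |inner ℝ θ ζ| ^ i * inner ℝ θ ζ ^ m *
        (r * inner ℝ v ζ + s * inner ℝ θ ζ) ^ k ∂(sg 4) =
      ∫ ζ : E 4, |ζ 0| ^ i * ζ 0 ^ m * (r * ζ 1 + s * ζ 0) ^ k ∂(sg 4) := h2
    rw [← h3]
    refine integral_congr_ae (Filter.Eventually.of_forall fun ζ => ?_)
    have h4 : inner ℝ η ζ = r * inner ℝ v ζ + s * inner ℝ θ ζ := by
      rw [hdec, inner_add_left, inner_smul_left, inner_smul_left]
      simp
      ring
    simp only [h4]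
  rw [h1]
  have h5 : ∀ ζ : E 4, |ζ 0| ^ i * ζ 0 ^ m * (r * ζ 1 + s * ζ 0) ^ k =
      ∑ l ∈ Finset.range (k + 1), ((k.choose l : ℝ) * s ^ (k - l) * r ^ l) *
        (|ζ 0| ^ i * ζ 0 ^ (m + (k - l)) * ζ 1 ^ l) := by
    intro ζ
    rw [add_pow, Finset.mul_sum]
    refine Finset.sum_congr rfl fun l _ => ?_
    rw [mul_pow, mul_pow, pow_add]
    ring
  simp only [h5]
  rw [integral_finset_sum _ (fun l _ => s4_int (by fun_prop))]
  simp only [integral_const_mul]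
  rw [Q4_sum _ _ (fun l hl => by rw [Q4_odd _ _ _ hl, mul_zero])]
  refine Finset.sum_congr rfl fun j hj => ?_
  have hj2 : 2 * j ≤ k := by
    have := Finset.mem_range.1 hj
    omega
  have he : Even (m + (k - 2 * j)) := by
    obtain ⟨c, hc⟩ := hmk
    exact ⟨c - j, by omega⟩
  rw [Q4_even _ _ _ he, pow_mul, hr]
  have h6 : i + (m + (k - 2 * j)) = i + m + k - 2 * j := by omega
  rw [h6]

end Pool.Agent.LibSP93
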