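import Pool.Agent.LibSP93.Q3
import Pool.Agent.LibSP93.Q4

/-!
[SP93 Q6] Zonal integrals with an absolute value, from `pair_mom` and the values in Q3.
-/

set_option autoImplicit false

open MeasureTheory Set

namespace Pool.Agent.LibSP93

open Pool.Agent.LibSP74 Pool.Agent.LibSP52

theorem z1 {θ : E 4} (hθ : ‖θ‖ = 1) : ∫ ζ, |inner ℝ θ ζ| ∂(sg 4) = 4 / (3 * Real.pi) := by
  have h := pair_mom hθ hθ 1 0 0 (by decide)
  simp only [pow_one, pow_zero, mul_one] at h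
  rw [h]
  simp [Finset.sum_range_succ, mo_odd.1]

theorem z3 {θ : E 4} (hθ : ‖θ‖ = 1) : ∫ ζ, |inner ℝ θ ζ| ^ 3 ∂(sg 4) = 8 / (15 * Real.pi) := by
  have h := pair_mom hθ hθ 3 0 0 (by decide)
  simp only [pow_zero, mul_one] at h
  rw [h]
  simp [Finset.sum_range_succ, mo_odd.2.1]

theorem z14 {θ η : E 4} (hθ : ‖θ‖ = 1) (hη : ‖η‖ = 1) :
    ∫ ζ, |inner ℝ θ ζ| * inner ℝ η ζ ^ 4 ∂(sg 4) =
      (-4 * inner ℝ θ η ^ 4 + 24 * inner ℝ θ η ^ 2 + 12) / (105 * Real.pi) := by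
  have h := pair_mom hθ hη 1 0 4 (by decide)
  simp only [pow_one, pow_zero, mul_one] at h
  rw [h]
  have c0 : (Nat.choose 4 0 : ℝ) = 1 := by norm_num [Nat.choose]
  have c2 : (Nat.choose 4 2 : ℝ) = 6 := by norm_num [Nat.choose]
  have c4 : (Nat.choose 4 4 : ℝ) = 1 := by norm_num [Nat.choose]
  have hp : Real.pi ≠ 0 := Real.pi_ne_zero
  obtain ⟨-, -, h5, -⟩ := mo_odd
  obtain ⟨h31, h12, -, -⟩ := mo_odd2
  simp only [show 4 / 2 + 1 = 3 from rfl, Finset.sum_range_succ, Finset.sum_range_zero, mul_zero, mul_one,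
    show 2 * 2 = 4 from rfl, show 1 + 0 + 4 - 0 = 5 from rfl, show 1 + 0 + 4 - 2 = 3 from rfl,
    show 1 + 0 + 4 - 4 = 1 from rfl, show 4 - 0 = 4 from rfl, show 4 - 2 = 2 from rfl,
    show 4 - 4 = 0 from rfl, c0, c2, c4, h5, h31, h12]
  field_simp
  ring

theorem z34 {θ η : E 4} (hθ : ‖θ‖ = 1) (hη : ‖η‖ = 1) :
    ∫ ζ, |inner ℝ θ ζ| ^ 3 * inner ℝ η ζ ^ 4 ∂(sg 4) =
      (24 * inner ℝ θ η ^ 4 + 144 * inner ℝ θ η ^ 2 + 24) / (945 * Real.pi) := by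
  have h := pair_mom hθ hη 3 0 4 (by decide)
  simp only [pow_zero, mul_one] at h
  rw [h]
  have c0 : (Nat.choose 4 0 : ℝ) = 1 := by norm_num [Nat.choose]
  have c2 : (Nat.choose 4 2 : ℝ) = 6 := by norm_num [Nat.choose]
  have c4 : (Nat.choose 4 4 : ℝ) = 1 := by norm_num [Nat.choose]
  have hp : Real.pi ≠ 0 := Real.pi_ne_zero
  obtain ⟨-, -, -, h7⟩ := mo_odd
  obtain ⟨-, -, h51, h32⟩ := mo_odd2
  simp only [show 4 / 2 + 1 = 3 from rfl, Finset.sum_range_succ, Finset.sum_range_zero, mul_zero, mul_one,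
    show 2 * 2 = 4 from rfl, show 3 + 0 + 4 - 0 = 7 from rfl, show 3 + 0 + 4 - 2 = 5 from rfl,
    show 3 + 0 + 4 - 4 = 3 from rfl, show 4 - 0 = 4 from rfl, show 4 - 2 = 2 from rfl,
    show 4 - 4 = 0 from rfl, c0, c2, c4, h7, h51, h32]
  field_simp
  ring

theorem z23 {θ η : E 4} (hθ : ‖θ‖ = 1) (hη : ‖η‖ = 1) :
    ∫ ζ, |inner ℝ θ ζ| * inner ℝ θ ζ * inner ℝ η ζ ^ 3 ∂(sg 4) =
      (8 * inner ℝ θ η ^ 3 + 24 * inner ℝ θ η) / (105 * Real.pi) := by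
  have h := pair_mom hθ hη 1 1 3 (by decide)
  simp only [pow_one] at h
  rw [h]
  have c0 : (Nat.choose 3 0 : ℝ) = 1 := by norm_num [Nat.choose]
  have c2 : (Nat.choose 3 2 : ℝ) = 3 := by norm_num [Nat.choose]
  have hp : Real.pi ≠ 0 := Real.pi_ne_zero
  obtain ⟨-, -, h5, -⟩ := mo_odd
  obtain ⟨h31, -, -, -⟩ := mo_odd2
  simp only [show 3 / 2 + 1 = 2 from rfl, Finset.sum_range_succ, Finset.sum_range_zero, mul_zero, mul_one,
    show 1 + 1 + 3 - 0 = 5 from rfl, show 1 + 1 + 3 - 2 = 3 from rfl,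
    show 3 - 0 = 3 from rfl, show 3 - 2 = 1 from rfl, c0, c2, h5, h31]
  field_simp
  ring

theorem z25 {θ η : E 4} (hθ : ‖θ‖ = 1) (hη : ‖η‖ = 1) :
    ∫ ζ, |inner ℝ θ ζ| * inner ℝ θ ζ * inner ℝ η ζ ^ 5 ∂(sg 4) =
      (-8 * inner ℝ θ η ^ 5 + 80 * inner ℝ θ η ^ 3 + 120 * inner ℝ θ η) / (945 * Real.pi) := by
  have h := pair_mom hθ hη 1 1 5 (by decide)
  simp only [pow_one] at h
  rw [h]
  have c0 : (Nat.choose 5 0 : ℝ) = 1 := by norm_num [Nat.choose]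
  have c2 : (Nat.choose 5 2 : ℝ) = 10 := by norm_num [Nat.choose]
  have c4 : (Nat.choose 5 4 : ℝ) = 5 := by norm_num [Nat.choose]
  have hp : Real.pi ≠ 0 := Real.pi_ne_zero
  obtain ⟨-, -, -, h7⟩ := mo_odd
  obtain ⟨-, -, h51, h32⟩ := mo_odd2
  simp only [show 5 / 2 + 1 = 3 from rfl, Finset.sum_range_succ, Finset.sum_range_zero, mul_zero, mul_one,
    show 2 * 2 = 4 from rfl, show 1 + 1 + 5 - 0 = 7 from rfl, show 1 + 1 + 5 - 2 = 5 from rfl,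
    show 1 + 1 + 5 - 4 = 3 from rfl, show 5 - 0 = 5 from rfl, show 5 - 2 = 3 from rfl,
    show 5 - 4 = 1 from rfl, c0, c2, c4, h7, h51, h32]
  field_simp
  ring

end Pool.Agent.LibSP93
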