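import Pool.Agent.LibSP93.K6
import Pool.Agent.LibSP93.Q6

/-!
[SP93 K7] `sprawl_cm` for `nrm 4` (`cm (nrm 4) = sg 4` by definition): for `‖x‖ = 1` the inner integral is `Ph4 (nrm 4) x 1`, between (F_lower, F_upper
with `1 - ‖x‖² = 0`) and equal to `8 ∫ ‖ζ‖ |⟪x,ζ⟫|³ = 8 · 8/(15π)` (`z3`, `‖ζ‖ = 1` a.e.).
-/

set_option autoImplicit false

open MeasureTheory Set

namespace Pool.Agent.LibSP93

open Pool.Agent.LibSP74 Pool.Agent.LibSP52

theorem ball4 : sprawl (nrm 4) = 64 / (15 * Real.pi) := by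
  haveI : IsProbabilityMeasure (cm (nrm 4)) := isProb_cm (isN_nrm 4)
  rw [sprawl_cm (isN_nrm 4)]
  have h4 : ∀ᵐ ζ ∂(sg 4), ‖ζ‖ = 1 := ae_cm (isN_nrm 4) (by norm_num)
  have h1 : ∀ᵐ x ∂(cm (nrm 4)), (∫ y, nrm 4 (x - y) ∂(cm (nrm 4))) = 64 / (15 * Real.pi) := by
    filter_upwards [h4] with x hx
    have h2 : (∫ y, nrm 4 (x - y) ∂(cm (nrm 4))) = Ph4 (nrm 4) x 1 := by
      unfold Ph4 sg
      simp only [one_smul]
    have h3 : ∫ ζ, nrm 4 ζ * |inner ℝ x ζ| ^ 3 ∂(sg 4) = 8 / (15 * Real.pi) := by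
      rw [← z3 hx]
      refine integral_congr_ae ?_
      filter_upwards [h4] with ζ hζ
      have h5 : nrm 4 ζ = 1 := hζ
      rw [h5, one_mul]
    have hl := F_lower (isN_nrm 4) (t := x) hx.le
    have hu := F_upper (isN_nrm 4) (t := x) hx.le
    rw [h3] at hl hu
    rw [hx] at hu
    rw [h2]
    have e1 : (64 / (15 * Real.pi) : ℝ) = 8 * (8 / (15 * Real.pi)) := by ring
    rw [e1]
    refine le_antisymm (hu.trans (le_of_eq ?_)) hl
    ring
  rw [integral_congr_ae h1, integral_const, probReal_univ, one_smul]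

end Pool.Agent.LibSP93
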