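import Pool.Agent.LibSP93.Defs

/-!
[SP93 P1] `good_position` (LibSP52/G5.lean) together with the minimality of `T₀` (`exists_min`, LibSP52/G2.lean, `J N T = ∫ N (T z) exp(-‖z‖²)`).
Take the same `T₀` (first part: the proof of `good_position`, `g5_unit`).  Second part: `P = id + s ⟪u,·⟫ u` has determinant `1 + s` (`g3_P`, `g3_P_det`
with `c = s`); `T' = (1+s)^(-1/4) • (T₀ ∘ P)` has determinant `1` (`d = 4`), so `J N T₀ ≤ J N T' = (1+s)^(-1/4) J N (T₀ ∘ P)` (`g2_smul`);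
`radial_moment` (`k = 1`) turns both `J` into sphere integrals with the same positive factor.
-/

set_option autoImplicit false

open MeasureTheory Set

namespace Pool.Agent.LibSP93

open Pool.Agent.LibSP74 Pool.Agent.LibSP52

private lemma p1_radial {N : E 4 → ℝ} (h : IsN N) (T : E 4 →L[ℝ] E 4) :
    J N T = ((4 : ℕ) : ℝ) * vol (nrm 4) *
      (∫ r in Ioi (0 : ℝ), r ^ (4 - 1 + 1) * Real.exp (-r ^ 2)) * ∫ ζ, N (T ζ) ∂(sg 4) :=
  (radial_moment (by norm_num) (f := fun z => N (T z)) (h.cont.comp T.continuous)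
    (fun z => h.nonneg _) 1
    (fun r hr z => by rw [map_smul, h.smul_nonneg hr.le, pow_one])).2

theorem good_position4 {N : E 4 → ℝ} (h : IsN N) :
    ∃ T : E 4 ≃L[ℝ] E 4,
      (∀ u : E 4, ∫ ζ, N (T ζ) * inner ℝ u ζ ^ 2 ∂(sg 4) =
        (∫ ζ, N (T ζ) ∂(sg 4)) / 4 * ‖u‖ ^ 2) ∧
      ∀ u : E 4, ‖u‖ = 1 → ∀ s : ℝ, 0 < s → (1 + s) ^ ((1 : ℝ) / 4) * (∫ ζ, N (T ζ) ∂(sg 4)) ≤
        ∫ ζ, N (T (ζ + (s * inner ℝ u ζ) • u)) ∂(sg 4) := by
  have hd : (4 : ℕ) ≠ 0 := by norm_num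
  obtain ⟨T₀, hdet, hmin⟩ := exists_min h hd
  refine ⟨ContinuousLinearMap.toContinuousLinearEquivOfDetNeZero T₀
    (by rw [hdet]; exact one_ne_zero), ?_, ?_⟩
  · intro u
    simp only [ContinuousLinearMap.toContinuousLinearEquivOfDetNeZero_apply]
    by_cases hu : u = 0
    · subst hu
      simp
    · have hn : 0 < ‖u‖ := norm_pos_iff.2 hu
      have h1 : ‖(‖u‖⁻¹ • u : E 4)‖ = 1 := by
        rw [norm_smul, norm_inv, norm_norm, inv_mul_cancel₀ hn.ne']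
      have h2 := g5_unit h hd hdet hmin h1
      have h3 : ∀ ζ : E 4, N (T₀ ζ) * inner ℝ u ζ ^ 2 =
          ‖u‖ ^ 2 * (N (T₀ ζ) * inner ℝ (‖u‖⁻¹ • u : E 4) ζ ^ 2) := by
        intro ζ
        rw [real_inner_smul_left]
        field_simp
      simp_rw [h3]
      rw [integral_const_mul, h2]
      push_cast
      ring
  · intro u hu s hs
    simp only [ContinuousLinearMap.toContinuousLinearEquivOfDetNeZero_apply]
    have h1 : 0 < 1 + s := by linarith
    set P : E 4 →L[ℝ] E 4 := LinearMap.toContinuousLinearMap (g3_P u s) with hP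
    have hPa : ∀ z, P z = z + (s * inner ℝ u z) • u := fun z => g3_P_apply u s z
    set a : ℝ := (1 + s) ^ ((1 : ℝ) / 4) with ha
    have ha0 : 0 < a := Real.rpow_pos_of_pos h1 _
    have ha4 : a ^ 4 = 1 + s := by
      rw [ha, ← Real.rpow_natCast, ← Real.rpow_mul h1.le]
      norm_num
    have hTdet : (a⁻¹ • (T₀.comp P)).det = 1 := by
      have e1 : (a⁻¹ • (T₀.comp P)).det =
          LinearMap.det (a⁻¹ • ((T₀ : E 4 →ₗ[ℝ] E 4) ∘ₗ (P : E 4 →ₗ[ℝ] E 4))) := rfl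
      have e2 : LinearMap.det (T₀ : E 4 →ₗ[ℝ] E 4) = 1 := hdet
      have e3 : LinearMap.det (P : E 4 →ₗ[ℝ] E 4) = 1 + s := g3_P_det hu s
      rw [e1, LinearMap.det_smul, finrank_euclideanSpace_fin, LinearMap.det_comp, e2, e3, inv_pow,
        ha4, one_mul, inv_mul_cancel₀ h1.ne']
    have hJ := hmin _ hTdet
    rw [g2_smul h, p1_radial h, p1_radial h, abs_of_pos (inv_pos.2 ha0)] at hJ
    have hv : 0 < vol (nrm 4) := (isN_nrm 4).vol_pos
    have hm : 0 < ∫ r in Ioi (0 : ℝ), r ^ (4 - 1 + 1) * Real.exp (-r ^ 2) :=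
      moment_pos (4 - 1 + 1)
    have hB : (∫ ζ, N ((T₀.comp P) ζ) ∂(sg 4)) =
        ∫ ζ, N (T₀ (ζ + (s * inner ℝ u ζ) • u)) ∂(sg 4) := by
      refine integral_congr_ae (Filter.Eventually.of_forall fun ζ => ?_)
      show N (T₀ (P ζ)) = _
      rw [hPa]
    rw [hB] at hJ
    set A := ∫ ζ, N (T₀ ζ) ∂(sg 4) with hA
    set B := ∫ ζ, N (T₀ (ζ + (s * inner ℝ u ζ) • u)) ∂(sg 4) with hBdef
    set c := ((4 : ℕ) : ℝ) * vol (nrm 4) *
      (∫ r in Ioi (0 : ℝ), r ^ (4 - 1 + 1) * Real.exp (-r ^ 2)) with hc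
    have hc0 : 0 < c := by
      rw [hc]
      exact mul_pos (mul_pos (by norm_num) hv) hm
    clear_value A B c
    have h5 : a * (c * A) ≤ c * B := by
      calc a * (c * A) ≤ a * (a⁻¹ * (c * B)) := mul_le_mul_of_nonneg_left hJ ha0.le
        _ = c * B := by rw [← mul_assoc, mul_inv_cancel₀ ha0.ne', one_mul]
    have h7 : c * (a * A) ≤ c * B := by
      calc c * (a * A) = a * (c * A) := by ring
        _ ≤ c * B := h5
    exact le_of_mul_le_mul_left h7 hc0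

end Pool.Agent.LibSP93
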