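import Pool.Agent.LibSP93.Q6

/-!
[SP93 P2] PAPER PROOF.  `a = ∫ N`.  `N (ζ + s⟪u,ζ⟫u) ≤ N ζ + s |⟪u,ζ⟫| N u`, so `(1+s)^(1/4) a ≤ a + s N u · 4/(3π)` (`z1`).  `(1+s)^(1/4) ≥ 1 + s/4 - (3/32) s²`
(or the derivative of the power at `0`; e.g. `(1 + s/4 - 3s²/32)^4 ≤ 1 + s` for `0 < s ≤ 1`).  Divide by `s`, `s → 0`: `a/4 ≤ N u · 4/(3π)`.
-/

set_option autoImplicit false

open MeasureTheory Set

namespace Pool.Agent.LibSP93

open Pool.Agent.LibSP74 Pool.Agent.LibSP52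

theorem lower_bd {N : E 4 → ℝ} (h : IsN N)
    (hp : ∀ u : E 4, ‖u‖ = 1 → ∀ s : ℝ, 0 < s → (1 + s) ^ ((1 : ℝ) / 4) * (∫ ζ, N ζ ∂(sg 4)) ≤
        ∫ ζ, N (ζ + (s * inner ℝ u ζ) • u) ∂(sg 4)) {u : E 4} (hu : ‖u‖ = 1) :
    3 * Real.pi / 16 * (∫ ζ, N ζ ∂(sg 4)) ≤ N u := by
  have hm := z1 hu
  set a : ℝ := ∫ ζ, N ζ ∂(sg 4) with ha
  have hNu : 0 ≤ N u := by
    have hne : u ≠ 0 := by
      intro h0
      rw [h0, norm_zero] at hu
      exact zero_ne_one hu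
    exact (h.pos u hne).le
  have hci : Continuous fun ζ : E 4 => inner ℝ u ζ := by fun_prop
  have hcin : Continuous fun ζ : E 4 => |inner ℝ u ζ| := hci.abs
  have hcN2 : ∀ s : ℝ, Continuous fun ζ : E 4 => N (ζ + (s * inner ℝ u ζ) • u) := by
    intro s
    refine h.cont.comp (continuous_id.add ?_)
    exact ((continuous_const.mul hci).smul continuous_const)
  have hkey : ∀ s : ℝ, 0 < s → (1 + s) ^ ((1 : ℝ) / 4) * a ≤ a + s * (N u * (4 / (3 * Real.pi))) := by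
    intro s hs
    refine (hp u hu s hs).trans ?_
    have hle : ∫ ζ, N (ζ + (s * inner ℝ u ζ) • u) ∂(sg 4) ≤
        ∫ ζ, (N ζ + s * N u * |inner ℝ u ζ|) ∂(sg 4) := by
      refine integral_mono (s4_int (hcN2 s)) (s4_int (h.cont.add (continuous_const.mul hcin))) ?_
      intro ζ
      have h1 := h.add_le ζ ((s * inner ℝ u ζ) • u)
      rw [h.smul, abs_mul, abs_of_pos hs] at h1
      have h2 : s * |inner ℝ u ζ| * N u = s * N u * |inner ℝ u ζ| := by ring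
      rw [h2] at h1
      exact h1
    refine hle.trans (le_of_eq ?_)
    have hc2 : Continuous fun ζ : E 4 => s * N u * |inner ℝ u ζ| := continuous_const.mul hcin
    have hadd : ∫ ζ, (N ζ + s * N u * |inner ℝ u ζ|) ∂(sg 4) =
        (∫ ζ, N ζ ∂(sg 4)) + ∫ ζ, s * N u * |inner ℝ u ζ| ∂(sg 4) :=
      integral_add (s4_int h.cont) (s4_int hc2)
    rw [hadd, integral_const_mul, hm, ← ha]
    ring
  have hder : HasDerivAt (fun s : ℝ => (1 + s) ^ ((1 : ℝ) / 4)) (1 / 4) 0 := by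
    have h1 : HasDerivAt (fun s : ℝ => 1 + s) 1 0 := by
      simpa using (hasDerivAt_id (0 : ℝ)).const_add 1
    have h2 := h1.rpow_const (p := (1 : ℝ) / 4) (Or.inl (by norm_num))
    have h3 : (1 : ℝ) * (1 / 4) * (1 + 0) ^ ((1 : ℝ) / 4 - 1) = 1 / 4 := by
      rw [add_zero, Real.one_rpow]
      ring
    rw [h3] at h2
    exact h2
  have hsl := (hasDerivAt_iff_tendsto_slope.mp hder).mono_left
    (nhdsWithin_mono (0 : ℝ) (s := Set.Ioi 0) (t := {0}ᶜ) (fun x hx => ne_of_gt hx))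
  have hsl2 := hsl.mul_const a
  have hlim : 1 / 4 * a ≤ N u * (4 / (3 * Real.pi)) := by
    refine le_of_tendsto hsl2 ?_
    filter_upwards [self_mem_nhdsWithin] with s hs
    have hs0 : (0 : ℝ) < s := hs
    have h1 := hkey s hs0
    have h2 : slope (fun s : ℝ => (1 + s) ^ ((1 : ℝ) / 4)) 0 s = ((1 + s) ^ ((1 : ℝ) / 4) - 1) / s := by
      rw [slope_def_field, add_zero, Real.one_rpow, sub_zero]
    rw [h2, div_mul_eq_mul_div, div_le_iff₀ hs0]
    nlinarith [h1]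
  have hpi := Real.pi_pos
  have h5 : N u * (4 / (3 * Real.pi)) = 4 * N u / (3 * Real.pi) := by ring
  rw [h5, le_div_iff₀ (by positivity)] at hlim
  nlinarith [hlim]

end Pool.Agent.LibSP93
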