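import Pool.Agent.LibSP93.Q6

/-!
[SP93 P3] PAPER PROOF.  `N` attains its maximum `R` on the unit sphere at some `w` (compactness).  CLAIM `R ⟪w,ξ⟫ ≤ N ξ` for `‖ξ‖ = 1`: for `0 < ε ≤ 1`,
`R = N w ≤ N (w - ε ξ) + ε N ξ ≤ R ‖w - ε ξ‖ + ε N ξ` and `‖w - εξ‖ = √(1 - 2ε⟪w,ξ⟫ + ε²) ≤ 1 - ε⟪w,ξ⟫ + ε²/2`; divide by `ε`, `ε → 0`.
With `-ξ`: `R |⟪w,ξ⟫| ≤ N ξ`.  So `(a/4) = ∫ N ⟪w,ζ⟫² ≥ R ∫ |⟪w,ζ⟫|³ = R · 8/(15π)` (`hg w`, `z3`), and `N u ≤ R`.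
-/

set_option autoImplicit false

open MeasureTheory Set

namespace Pool.Agent.LibSP93

open Pool.Agent.LibSP74 Pool.Agent.LibSP52

private lemma p3_le {N : E 4 → ℝ} (h : IsN N) {R : ℝ} (hR : ∀ z : E 4, ‖z‖ = 1 → N z ≤ R)
    (z : E 4) : N z ≤ R * ‖z‖ := by
  by_cases hz : z = 0
  · rw [hz, h.zero, norm_zero, mul_zero]
  · have hn : 0 < ‖z‖ := norm_pos_iff.2 hz
    have h1 : ‖(‖z‖)⁻¹ • z‖ = 1 := by
      rw [norm_smul, norm_inv, norm_norm, inv_mul_cancel₀ hn.ne']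
    have h2 := hR _ h1
    rw [h.smul_nonneg (inv_nonneg.2 hn.le)] at h2
    rw [inv_mul_le_iff₀ hn] at h2
    linarith

private lemma p3_dist {w ξ : E 4} (hw : ‖w‖ = 1) (hξ : ‖ξ‖ = 1) {ε : ℝ} (he : 0 < ε)
    (he1 : ε ≤ 1) : ‖w - ε • ξ‖ ≤ 1 - ε * inner ℝ w ξ + ε ^ 2 / 2 := by
  have hc : |inner ℝ w ξ| ≤ 1 := by
    have := abs_real_inner_le_norm w ξ
    rwa [hw, hξ, mul_one] at this
  have hc1 : inner ℝ w ξ ≤ 1 := (abs_le.1 hc).2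
  have h0 : 0 ≤ 1 - ε * inner ℝ w ξ + ε ^ 2 / 2 := by nlinarith
  have h1 : ‖w - ε • ξ‖ ^ 2 = 1 - 2 * ε * inner ℝ w ξ + ε ^ 2 := by
    rw [norm_sub_sq_real, real_inner_smul_right, norm_smul, hw, hξ, Real.norm_eq_abs,
      mul_one, sq_abs]
    ring
  refine abs_le_of_sq_le_sq' ?_ h0 |>.2
  rw [h1]
  nlinarith [sq_nonneg (ε * inner ℝ w ξ - ε ^ 2 / 2)]

private lemma p3_claim {N : E 4 → ℝ} (h : IsN N) {w : E 4} (hw : ‖w‖ = 1)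
    (hR : ∀ z : E 4, ‖z‖ = 1 → N z ≤ N w) {ξ : E 4} (hξ : ‖ξ‖ = 1) :
    N w * inner ℝ w ξ ≤ N ξ := by
  have hw0 : 0 ≤ N w := h.nonneg w
  by_contra hcon
  rw [not_le] at hcon
  have hd : 0 < N w * inner ℝ w ξ - N ξ := by linarith
  have hpos : 0 < N w + 1 := by linarith
  obtain ⟨ε, he, he1, he2⟩ : ∃ ε : ℝ, 0 < ε ∧ ε ≤ 1 ∧ N w * ε ≤ N w * inner ℝ w ξ - N ξ := by
    refine ⟨min 1 ((N w * inner ℝ w ξ - N ξ) / (N w + 1)), lt_min one_pos (div_pos hd hpos),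
      min_le_left _ _, ?_⟩
    have h1 : min 1 ((N w * inner ℝ w ξ - N ξ) / (N w + 1)) ≤
        (N w * inner ℝ w ξ - N ξ) / (N w + 1) := min_le_right _ _
    have h2 : N w * ((N w * inner ℝ w ξ - N ξ) / (N w + 1)) ≤ N w * inner ℝ w ξ - N ξ := by
      rw [← mul_div_assoc, div_le_iff₀ hpos]
      nlinarith
    exact (mul_le_mul_of_nonneg_left h1 hw0).trans h2
  have h3 : N w ≤ N (w - ε • ξ) + ε * N ξ := by
    have h4 := h.add_le (w - ε • ξ) (ε • ξ)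
    rw [sub_add_cancel, h.smul_nonneg he.le] at h4
    exact h4
  have h5 := p3_le h hR (w - ε • ξ)
  have h6 := mul_le_mul_of_nonneg_left (p3_dist hw hξ he he1) hw0
  have h7 : ε * (N w * inner ℝ w ξ - N ξ) ≤ ε * (N w * ε / 2) := by nlinarith
  have h8 : N w * inner ℝ w ξ - N ξ ≤ N w * ε / 2 := le_of_mul_le_mul_left h7 he
  linarith

theorem upper_bd {N : E 4 → ℝ} (h : IsN N)
    (hg : ∀ u : E 4, ∫ ζ, N ζ * inner ℝ u ζ ^ 2 ∂(sg 4) = (∫ ζ, N ζ ∂(sg 4)) / 4 * ‖u‖ ^ 2)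
    {u : E 4} (hu : ‖u‖ = 1) : N u ≤ 15 * Real.pi / 32 * ∫ ζ, N ζ ∂(sg 4) := by
  obtain ⟨w, hw, hmax⟩ := (isCompact_sphere (0 : E 4) 1).exists_isMaxOn
    ⟨u, by rw [mem_sphere_iff_norm, sub_zero, hu]⟩ h.cont.continuousOn
  have hw1 : ‖w‖ = 1 := by rwa [mem_sphere_iff_norm, sub_zero] at hw
  have hR : ∀ z : E 4, ‖z‖ = 1 → N z ≤ N w := fun z hz =>
    hmax (by rw [mem_sphere_iff_norm, sub_zero, hz])
  have hcl : ∀ ξ : E 4, ‖ξ‖ = 1 → N w * |inner ℝ w ξ| ≤ N ξ := by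
    intro ξ hξ
    rcases abs_choice (inner ℝ w ξ) with h1 | h1
    · rw [h1]
      exact p3_claim h hw1 hR hξ
    · rw [h1]
      have h2 := p3_claim h hw1 hR (ξ := -ξ) (by rw [norm_neg, hξ])
      rw [inner_neg_right, h.neg] at h2
      exact h2
  have hcw : Continuous fun ζ : E 4 => inner ℝ w ζ := by fun_prop
  have h1 : ∫ ζ, N w * |inner ℝ w ζ| ^ 3 ∂(sg 4) ≤ ∫ ζ, N ζ * inner ℝ w ζ ^ 2 ∂(sg 4) := by
    refine integral_mono_ae (s4_int (by fun_prop)) (s4_int (h.cont.mul (hcw.pow 2))) ?_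
    filter_upwards [s4_ae] with ζ hζ
    have h2 := hcl ζ hζ
    have h3 : |inner ℝ w ζ| ^ 2 = inner ℝ w ζ ^ 2 := sq_abs _
    show N w * |inner ℝ w ζ| ^ 3 ≤ N ζ * inner ℝ w ζ ^ 2
    calc N w * |inner ℝ w ζ| ^ 3 = (N w * |inner ℝ w ζ|) * |inner ℝ w ζ| ^ 2 := by ring
      _ ≤ N ζ * |inner ℝ w ζ| ^ 2 := mul_le_mul_of_nonneg_right h2 (by positivity)
      _ = N ζ * inner ℝ w ζ ^ 2 := by rw [h3]
  rw [integral_const_mul, z3 hw1, hg w, hw1, one_pow, mul_one] at h1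
  have hpi := Real.pi_pos
  have h4 : N w * (8 / (15 * Real.pi)) * (15 * Real.pi / 8) = N w := by field_simp
  have h5 : N w ≤ (∫ ζ, N ζ ∂(sg 4)) / 4 * (15 * Real.pi / 8) := by
    rw [← h4]
    exact mul_le_mul_of_nonneg_right h1 (by positivity)
  have h6 := hR u hu
  linarith

end Pool.Agent.LibSP93
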