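import Pool.Agent.LibSP93.T1

/-!
[SP93 P4] PAPER PROOF.  `integral_cm`: `vol N ∫ ‖x‖² ∂cm N = ∫_{N ≤ 1} ‖z‖² / N(z)² dz`; polar coordinates for `nrm 4` (`polar`, LibSP52/P1.lean):
`= 4 vol(nrm 4) ∫_ζ ∫_0^{1/N ζ} r³ N(ζ)^(-2) dr = vol(nrm 4) ∫_ζ N(ζ)^(-6)`.  Second statement: `vol_ratio` (LibSP52/P3.lean), `cm (nrm 4) = sg 4`.
-/

set_option autoImplicit false

open MeasureTheory Set
open scoped ENNReal

namespace Pool.Agent.LibSP93

open Pool.Agent.LibSP74 Pool.Agent.LibSP52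

private lemma p4_pow {R : ℝ} (hR : 0 ≤ R) :
    ∫⁻ r in Ioc (0 : ℝ) R, ENNReal.ofReal (r ^ (4 - 1)) = ENNReal.ofReal (R ^ 4 / 4) := by
  have h1 : IntegrableOn (fun r : ℝ => r ^ 3) (Ioc 0 R) volume :=
    (intervalIntegrable_iff_integrableOn_Ioc_of_le hR).mp
      ((continuous_pow 3).intervalIntegrable 0 R)
  have h2 : 0 ≤ᵐ[volume.restrict (Ioc (0 : ℝ) R)] fun r : ℝ => r ^ 3 := by
    filter_upwards [ae_restrict_mem measurableSet_Ioc] with r hr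
    exact pow_nonneg hr.1.le 3
  have h3 := ofReal_integral_eq_lintegral_ofReal h1 h2
  show ∫⁻ r in Ioc (0 : ℝ) R, ENNReal.ofReal (r ^ 3) = ENNReal.ofReal (R ^ 4 / 4)
  rw [← h3, ← intervalIntegral.integral_of_le hR, integral_pow]
  congr 1
  norm_num

private lemma p4_inner {N : E 4 → ℝ} (h : IsN N) {x : E 4} (hx : nrm 4 x = 1) :
    ∫⁻ r in Ioi (0 : ℝ), ENNReal.ofReal (r ^ (4 - 1)) *
      ({z : E 4 | N z ≤ 1}).indicator
        (fun z : E 4 => ENNReal.ofReal (‖(N z)⁻¹ • z‖ ^ 2)) (r • x) =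
      ENNReal.ofReal ((N x ^ 6)⁻¹ / 4) := by
  have hx1 : ‖x‖ = 1 := hx
  have hx0 : x ≠ 0 := by
    intro h0
    rw [h0, norm_zero] at hx1
    exact zero_ne_one hx1
  have hN : 0 < N x := h.pos x hx0
  have h1 : ∫⁻ r in Ioi (0 : ℝ), ENNReal.ofReal (r ^ (4 - 1)) *
      ({z : E 4 | N z ≤ 1}).indicator
        (fun z : E 4 => ENNReal.ofReal (‖(N z)⁻¹ • z‖ ^ 2)) (r • x) =
      ∫⁻ r in Ioi (0 : ℝ), (Iic ((N x)⁻¹)).indicator
        (fun r : ℝ => ENNReal.ofReal (r ^ (4 - 1)) * ENNReal.ofReal ((N x ^ 2)⁻¹)) r := by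
    apply setLIntegral_congr_fun measurableSet_Ioi
    intro r hr
    have hr0 : (0 : ℝ) < r := hr
    have h2 : N (r • x) = r * N x := h.smul_nonneg hr0.le x
    have h3 : r • x ∈ {z : E 4 | N z ≤ 1} ↔ r ∈ Iic ((N x)⁻¹) := by
      rw [mem_ofPred_eq, h2, mem_Iic, ← one_div, le_div_iff₀ hN]
    have h4 : ‖(N (r • x))⁻¹ • (r • x)‖ ^ 2 = (N x ^ 2)⁻¹ := by
      rw [h2, smul_smul, norm_smul, hx1, mul_one, Real.norm_eq_abs, sq_abs]
      field_simp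
    show ENNReal.ofReal (r ^ (4 - 1)) *
      ({z : E 4 | N z ≤ 1}).indicator
        (fun z : E 4 => ENNReal.ofReal (‖(N z)⁻¹ • z‖ ^ 2)) (r • x) =
      (Iic ((N x)⁻¹)).indicator
        (fun r : ℝ => ENNReal.ofReal (r ^ (4 - 1)) * ENNReal.ofReal ((N x ^ 2)⁻¹)) r
    by_cases h7 : r ∈ Iic ((N x)⁻¹)
    · rw [indicator_of_mem h7, indicator_of_mem (h3.mpr h7), h4]
    · rw [indicator_of_notMem h7, indicator_of_notMem (fun h8 => h7 (h3.mp h8)), mul_zero]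
  have hm : Measurable fun r : ℝ => ENNReal.ofReal (r ^ (4 - 1)) :=
    (measurable_id.pow_const _).ennreal_ofReal
  rw [h1, lintegral_indicator measurableSet_Iic, Measure.restrict_restrict measurableSet_Iic,
    inter_comm, Ioi_inter_Iic, lintegral_mul_const _ hm, p4_pow (inv_nonneg.2 hN.le),
    ← ENNReal.ofReal_mul (by positivity)]
  congr 1
  field_simp

theorem cm_sq {N : E 4 → ℝ} (h : IsN N) :
    (vol N / vol (nrm 4)) * (∫ x, ‖x‖ ^ 2 ∂(cm N)) = ∫ ζ, (N ζ ^ 6)⁻¹ ∂(sg 4) := by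
  have hvN := h.vol_pos
  have hM : IsN (nrm 4) := isN_nrm 4
  have hvM := hM.vol_pos
  have hNm : Measurable N := h.cont.measurable
  have hS : MeasurableSet {z : E 4 | N z ≤ 1} := h.measurableSet_ball 1
  have hF0 : Measurable fun z : E 4 => ‖(N z)⁻¹ • z‖ ^ 2 :=
    (hNm.inv.smul measurable_id).norm.pow_const 2
  have hF : Measurable fun z : E 4 => ENNReal.ofReal (‖(N z)⁻¹ • z‖ ^ 2) := hF0.ennreal_ofReal
  have h1 := integral_cm h (f := fun x : E 4 => ‖x‖ ^ 2) (measurable_norm.pow_const 2)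
  have h2 : ∫ z in {z : E 4 | N z ≤ 1}, ‖(N z)⁻¹ • z‖ ^ 2 =
      vol (nrm 4) * ∫ ζ, (N ζ ^ 6)⁻¹ ∂(sg 4) := by
    have h3 : ∫ z in {z : E 4 | N z ≤ 1}, ‖(N z)⁻¹ • z‖ ^ 2 =
        (∫⁻ z in {z : E 4 | N z ≤ 1}, ENNReal.ofReal (‖(N z)⁻¹ • z‖ ^ 2)).toReal := by
      rw [integral_eq_lintegral_of_nonneg_ae]
      · exact Filter.Eventually.of_forall fun z => by positivity
      · exact hF0.aestronglyMeasurable
    have h4 : ∫ ζ, (N ζ ^ 6)⁻¹ ∂(sg 4) = (∫⁻ ζ, ENNReal.ofReal ((N ζ ^ 6)⁻¹) ∂(sg 4)).toReal := by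
      rw [integral_eq_lintegral_of_nonneg_ae]
      · exact Filter.Eventually.of_forall fun z => inv_nonneg.2 (pow_nonneg (h.nonneg z) 6)
      · exact ((hNm.pow_const 6).inv).aestronglyMeasurable
    have h5 := polar hM (by norm_num : (4 : ℕ) ≠ 0) (hF.indicator hS)
    rw [lintegral_indicator hS] at h5
    have h6 : ∫⁻ x, ∫⁻ r in Ioi (0 : ℝ), ENNReal.ofReal (r ^ (4 - 1)) *
        ({z : E 4 | N z ≤ 1}).indicator
          (fun z : E 4 => ENNReal.ofReal (‖(N z)⁻¹ • z‖ ^ 2)) (r • x) ∂volume ∂(cm (nrm 4)) =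
        ∫⁻ x, ENNReal.ofReal ((N x ^ 6)⁻¹) * ENNReal.ofReal (1 / 4) ∂(sg 4) := by
      show _ = ∫⁻ x, ENNReal.ofReal ((N x ^ 6)⁻¹) * ENNReal.ofReal (1 / 4) ∂(cm (nrm 4))
      apply lintegral_congr_ae
      filter_upwards [ae_cm hM (by norm_num)] with x hx
      rw [p4_inner h hx, ← ENNReal.ofReal_mul (inv_nonneg.2 (pow_nonneg (h.nonneg x) 6))]
      congr 1
      ring
    have h7 : Measurable fun x : E 4 => ENNReal.ofReal ((N x ^ 6)⁻¹) :=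
      (hNm.pow_const 6).inv.ennreal_ofReal
    rw [h3, h5, h6, lintegral_mul_const _ h7, h4,
      ENNReal.toReal_mul, ENNReal.toReal_mul, ENNReal.toReal_ofReal (by positivity),
      ENNReal.toReal_ofReal (by norm_num)]
    push_cast
    ring
  rw [h1, h2]
  field_simp

theorem vol4 {N : E 4 → ℝ} (h : IsN N) : vol N / vol (nrm 4) = ∫ ζ, (N ζ ^ 4)⁻¹ ∂(sg 4) := by
  have h1 := vol_ratio h (isN_nrm 4) (by norm_num : (4 : ℕ) ≠ 0)
  have hvM := (isN_nrm 4).vol_pos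
  rw [h1, mul_div_cancel_left₀ _ hvM.ne']
  rfl

end Pool.Agent.LibSP93
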