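import Pool.Agent.LibSP93.F3
import Pool.Agent.LibSP93.F2
import Pool.Agent.LibSP93.F1
import Pool.Agent.LibSP93.P1
import Pool.Agent.LibSP93.P2
import Pool.Agent.LibSP93.P3
import Pool.Agent.LibSP93.P4
import Pool.Agent.LibSP93.K7

/-!
[SP93 F4] THE LOWER BOUND.  By `good_position4` and `sprawl_comp` (LibSP52/P4.lean) `N` is in good position.  `a = ∫ N > 0`, `P = vol N / vol (nrm 4) > 0`
(`vol4`), `ρ = P^(1/4)` (`√√P`), `Q = ∫ N^(-6)`, `M = Q / P` (`cm_sq`), `V = ∫ (N - a)²`.  `jensen` (LibSP52/P3.lean): `1 ≤ a⁴ P`, so `a ρ ≥ 1`.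
`ρ² ≤ M`: otherwise (or by `b² ≤ M` for the couplings, see below).  `ψ(b) = a b - √(11/25 V) √(M - b²)` is continuous and increasing on `[0, √M]`.
Suppose `sprawl N < 64/(15π)`, `τ = sprawl N / (64/(15π)) < 1`.  CLAIM `ρ ≤ √M`: all couplings have `b ≤ √M` (`cpl_bound`), so `thmW`
(with `santalo 4`, `S = √M`) gives `P ≤ M²`.  `scalar`, `int_ineq`, `lower_bd`, `upper_bd`: `ψ(ρ) ≥ 1 > τ`.  By continuity there is `0 ≤ S < ρ` with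
`ψ(S) > τ`; every coupling has `ψ(b) ≤ τ` (`cpl_bound`) hence `b ≤ S` (if `b > S` then `ψ(b) ≥ ψ(S)`), so `thmW` gives `P ≤ S⁴ < ρ⁴ = P`.
-/

set_option autoImplicit false

open MeasureTheory Set

namespace Pool.Agent.LibSP93

open Pool.Agent.LibSP74 Pool.Agent.LibSP52

private theorem f4_good {N : E 4 → ℝ} (h : IsN N)
    (hg : ∀ u : E 4, ∫ ζ, N ζ * inner ℝ u ζ ^ 2 ∂(sg 4) = (∫ ζ, N ζ ∂(sg 4)) / 4 * ‖u‖ ^ 2)
    (hp : ∀ u : E 4, ‖u‖ = 1 → ∀ s : ℝ, 0 < s → (1 + s) ^ ((1 : ℝ) / 4) * (∫ ζ, N ζ ∂(sg 4)) ≤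
        ∫ ζ, N (ζ + (s * inner ℝ u ζ) • u) ∂(sg 4)) :
    64 / (15 * Real.pi) ≤ sprawl N := by
  have hd : (4 : ℕ) ≠ 0 := by norm_num
  have hj := jensen h hd
  obtain ⟨a, ha⟩ : ∃ a : ℝ, a = ∫ ζ, N ζ ∂(sg 4) := ⟨_, rfl⟩
  obtain ⟨V, hV⟩ : ∃ V : ℝ, V = ∫ ζ, (N ζ - a) ^ 2 ∂(sg 4) := ⟨_, rfl⟩
  obtain ⟨M, hM⟩ : ∃ M : ℝ, M = ∫ x, ‖x‖ ^ 2 ∂(cm N) := ⟨_, rfl⟩
  obtain ⟨P, hP⟩ : ∃ P : ℝ, P = vol N / vol (nrm 4) := ⟨_, rfl⟩
  obtain ⟨Q, hQ⟩ : ∃ Q : ℝ, Q = ∫ ζ, (N ζ ^ 6)⁻¹ ∂(sg 4) := ⟨_, rfl⟩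
  rw [← ha, ← hP] at hj
  have ha0 : 0 ≤ a := by rw [ha]; exact integral_nonneg fun ζ => h.nonneg ζ
  have hapos : 0 < a := by
    rcases ha0.eq_or_lt with h0 | h0
    · rw [← h0] at hj
      norm_num at hj
    · exact h0
  have hPpos : 0 < P := by
    by_contra hc
    have h1 : a ^ 4 * P ≤ 0 := mul_nonpos_of_nonneg_of_nonpos (by positivity) (not_lt.1 hc)
    linarith
  have hV0 : 0 ≤ V := by rw [hV]; exact integral_nonneg fun ζ => sq_nonneg _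
  have hM0 : 0 ≤ M := by rw [hM]; exact integral_nonneg fun ζ => sq_nonneg _
  have hPM : P * M = Q := by rw [hP, hM, hQ]; exact cm_sq h
  have hQP : Q / P = M := by
    rw [← hPM]
    field_simp
  have hii := int_ineq h ha (fun u hu => by rw [ha]; exact lower_bd h hp hu)
    (fun u hu => by rw [ha]; exact upper_bd h hg hu)
  rw [← vol4 h, ← hV, ← hQ, ← hP] at hii
  obtain ⟨ρ, hρ⟩ : ∃ ρ : ℝ, ρ = √(√P) := ⟨_, rfl⟩
  have hρ0 : 0 < ρ := by rw [hρ]; exact Real.sqrt_pos.2 (Real.sqrt_pos.2 hPpos)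
  have hρ2 : ρ ^ 2 = √P := by rw [hρ]; exact Real.sq_sqrt (Real.sqrt_nonneg _)
  have hρ4 : P = ρ ^ 4 := by
    have h1 : ρ ^ 4 = (ρ ^ 2) ^ 2 := by ring
    rw [h1, hρ2, Real.sq_sqrt hPpos.le]
  have hp1 : 1 ≤ a * ρ := by
    by_contra hc
    have h1 : (a * ρ) ^ 4 < 1 := pow_lt_one₀ (by positivity) (not_le.1 hc) (by norm_num)
    rw [mul_pow, ← hρ4] at h1
    linarith
  have hcp : ∀ π : Measure (E 4 × E 4), IsCpl N π → (∫ p, inner ℝ p.1 p.2 ∂π) ^ 2 ≤ M ∧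
      64 / (15 * Real.pi) * (a * (∫ p, inner ℝ p.1 p.2 ∂π) -
        √(11 / 25 * V) * √(M - (∫ p, inner ℝ p.1 p.2 ∂π) ^ 2)) ≤ sprawl N :=
    fun π hπ => cpl_bound h hg hπ ha rfl hM hV
  have hρM : ρ ^ 2 ≤ M := by
    have h1 := (thmW h hd (santalo 4) (√M) (fun π hπ => Real.le_sqrt_of_sq_le (hcp π hπ).1)).2
    rw [← hP] at h1
    have h2 : √M ^ 4 = M ^ 2 := by
      have h3 : √M ^ 4 = (√M ^ 2) ^ 2 := by ring
      rw [h3, Real.sq_sqrt hM0]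
    rw [h2, hρ4] at h1
    have h3 : (ρ ^ 2) ^ 2 ≤ M ^ 2 := by nlinarith
    exact (sq_le_sq₀ (by positivity) hM0).1 h3
  have hsc := scalar hapos hV0 hρ0 hρ4 hp1 (by rw [hQP]; exact hρM) hii
  rw [hQP] at hsc
  have hκ : 0 < 64 / (15 * Real.pi) := by
    have := Real.pi_pos
    positivity
  by_contra hcon
  have hlt : sprawl N < 64 / (15 * Real.pi) := not_le.1 hcon
  obtain ⟨τ, hτ⟩ : ∃ τ : ℝ, τ = sprawl N / (64 / (15 * Real.pi)) := ⟨_, rfl⟩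
  have hτ1 : τ < 1 := by rw [hτ, div_lt_one hκ]; exact hlt
  obtain ⟨ψ, hψ⟩ : ∃ ψ : ℝ → ℝ, ψ = fun x => a * x - √(11 / 25 * V) * √(M - x ^ 2) := ⟨_, rfl⟩
  have hψc : Continuous ψ := by
    rw [hψ]
    fun_prop
  have hψρ : 1 ≤ ψ ρ := by
    rw [hψ]
    change 1 ≤ a * ρ - √(11 / 25 * V) * √(M - ρ ^ 2)
    have h1 : √(11 / 25 * V) * √(M - ρ ^ 2) ≤ a * ρ - 1 := by
      rw [← Real.sqrt_mul (by positivity)]
      rw [Real.sqrt_le_left (by linarith)]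
      exact hsc
    linarith
  have hopen : IsOpen {x : ℝ | τ < ψ x} := isOpen_lt continuous_const hψc
  have hmem : ρ ∈ {x : ℝ | τ < ψ x} := lt_of_lt_of_le hτ1 hψρ
  obtain ⟨ε, hε, hball⟩ := Metric.isOpen_iff.1 hopen ρ hmem
  obtain ⟨S, hS0, hSρ, hSd⟩ : ∃ S : ℝ, 0 ≤ S ∧ S < ρ ∧ τ < ψ S := by
    refine ⟨max 0 (ρ - ε / 2), le_max_left _ _, max_lt hρ0 (by linarith), ?_⟩
    apply hball
    rw [Metric.mem_ball, Real.dist_eq, abs_lt]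
    rcases le_total 0 (ρ - ε / 2) with h1 | h1
    · rw [max_eq_right h1]
      constructor <;> linarith
    · rw [max_eq_left h1]
      constructor <;> linarith
  have hbS : ∀ π : Measure (E 4 × E 4), IsCpl N π → ∫ p, inner ℝ p.1 p.2 ∂π ≤ S := by
    intro π hπ
    obtain ⟨h1, h2⟩ := hcp π hπ
    by_contra hc
    have h3 : S < ∫ p, inner ℝ p.1 p.2 ∂π := not_le.1 hc
    generalize (∫ p, inner ℝ p.1 p.2 ∂π) = b at h1 h2 h3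
    have h4 : ψ b ≤ τ := by
      rw [hτ, le_div_iff₀ hκ, mul_comm, hψ]
      exact h2
    have h5 : ψ S ≤ ψ b := by
      rw [hψ]
      change a * S - √(11 / 25 * V) * √(M - S ^ 2) ≤ a * b - √(11 / 25 * V) * √(M - b ^ 2)
      have h6 : √(M - b ^ 2) ≤ √(M - S ^ 2) := Real.sqrt_le_sqrt (by nlinarith)
      have h7 : √(11 / 25 * V) * √(M - b ^ 2) ≤ √(11 / 25 * V) * √(M - S ^ 2) :=
        mul_le_mul_of_nonneg_left h6 (Real.sqrt_nonneg _)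
      have h8 : a * S ≤ a * b := mul_le_mul_of_nonneg_left h3.le ha0
      linarith
    linarith
  have hW := (thmW h hd (santalo 4) S hbS).2
  rw [← hP, hρ4] at hW
  have h9 : S ^ 4 < ρ ^ 4 := pow_lt_pow_left₀ hSρ hS0 (by norm_num)
  linarith

theorem lower4 {N : E 4 → ℝ} (h : IsN N) : 64 / (15 * Real.pi) ≤ sprawl N := by
  obtain ⟨T, hT1, hT2⟩ := good_position4 h
  rw [← sprawl_comp h T]
  exact f4_good (isN_comp h T) hT1 hT2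

end Pool.Agent.LibSP93
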