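import Pool.Agent.LibSP93.Defs

/-!
[SP93 K2] COPY of LibSP52/K2.lean (`continuous_Ph`, `solid_spheres`, there for `d = 3`) with 3 replaced by 4.
-/

set_option autoImplicit false

open MeasureTheory Set

namespace Pool.Agent.LibSP93

open Pool.Agent.LibSP74 Pool.Agent.LibSP52

private lemma K2_ae : ∀ᵐ φ ∂(sg 4), ‖φ‖ = 1 := ae_cm (isN_nrm 4) (by norm_num)

private lemma K2_prob : IsProbabilityMeasure (sg 4) := isProb_cm (isN_nrm 4)

theorem continuous_Ph4 {N : E 4 → ℝ} (h : IsN N) : Continuous fun p : E 4 × ℝ => Ph4 N p.1 p.2 := by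
  have := K2_prob
  obtain ⟨C, hC0, hC⟩ := k2_bound h
  rw [continuous_iff_continuousAt]
  intro p₀
  unfold Ph4
  refine continuousAt_of_dominated (bound := fun _ => C * ((‖p₀.1‖ + 1) + (|p₀.2| + 1))) ?_ ?_ ?_ ?_
  · refine Filter.Eventually.of_forall fun p => ?_
    have hc : Continuous fun φ : E 4 => N (p.1 - p.2 • φ) :=
      h.cont.comp (continuous_const.sub (continuous_id.const_smul p.2))
    exact hc.aestronglyMeasurable
  · filter_upwards [Metric.ball_mem_nhds p₀ one_pos] with p hp
    filter_upwards [K2_ae] with φ hφ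
    rw [Real.norm_eq_abs, abs_of_nonneg (h.nonneg _)]
    refine (hC _).trans (mul_le_mul_of_nonneg_left ?_ hC0)
    have hp' : dist p p₀ < 1 := hp
    rw [Prod.dist_eq, max_lt_iff] at hp'
    have h1 : ‖p.1‖ ≤ ‖p₀.1‖ + 1 := by
      have := norm_le_norm_add_norm_sub' p.1 p₀.1
      rw [← dist_eq_norm] at this
      linarith [hp'.1]
    have h2 : |p.2| ≤ |p₀.2| + 1 := by
      have := norm_le_norm_add_norm_sub' p.2 p₀.2
      rw [← dist_eq_norm] at this
      rw [Real.norm_eq_abs, Real.norm_eq_abs] at this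
      linarith [hp'.2]
    refine (norm_sub_le _ _).trans ?_
    rw [norm_smul, hφ, mul_one, Real.norm_eq_abs]
    linarith
  · exact integrable_const _
  · refine Filter.Eventually.of_forall fun φ => ?_
    have : Continuous fun p : E 4 × ℝ => N (p.1 - p.2 • φ) :=
      h.cont.comp (continuous_fst.sub (continuous_snd.smul continuous_const))
    exact this.continuousAt

theorem solid_spheres4 {N : E 4 → ℝ} (h : IsN N) (t : E 4) {ρ : ℝ} (hρ : 0 ≤ ρ) :
    ∫ z in {z : E 4 | ‖t - z‖ ≤ ρ}, N z =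
      4 * vol (nrm 4) * ∫ s in (0 : ℝ)..ρ, s ^ 3 * Ph4 N t s := by
  have := K2_prob
  have hms : MeasurableSet {z : E 4 | ‖t - z‖ ≤ ρ} :=
    measurableSet_le (continuous_const.sub continuous_id).norm.measurable measurable_const
  have hmw : MeasurableSet {w : E 4 | ‖w‖ ≤ ρ} :=
    measurableSet_le continuous_norm.measurable measurable_const
  -- the substitution
  rw [← integral_indicator hms, ← integral_sub_left_eq_self _ volume t]
  set G : E 4 → ℝ := fun w => {w : E 4 | ‖w‖ ≤ ρ}.indicator (fun w => N (t - w)) w with hG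
  have hcongr : (fun w : E 4 => {z : E 4 | ‖t - z‖ ≤ ρ}.indicator (fun z => N z) (t - w)) = G := by
    funext w
    by_cases hw : ‖w‖ ≤ ρ
    · rw [hG]
      simp only
      rw [indicator_of_mem (show t - w ∈ {z : E 4 | ‖t - z‖ ≤ ρ} by
        show ‖t - (t - w)‖ ≤ ρ
        rwa [sub_sub_cancel]), indicator_of_mem (show w ∈ {w : E 4 | ‖w‖ ≤ ρ} from hw)]
    · rw [hG]
      simp only
      rw [indicator_of_notMem (show t - w ∉ {z : E 4 | ‖t - z‖ ≤ ρ} by
        intro hh
        apply hw
        have h2 : ‖t - (t - w)‖ ≤ ρ := hh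
        rwa [sub_sub_cancel] at h2), indicator_of_notMem (show w ∉ {w : E 4 | ‖w‖ ≤ ρ} from hw)]
  have hcong2 : ∫ w : E 4, {z : E 4 | ‖t - z‖ ≤ ρ}.indicator (fun z => N z) (t - w) = ∫ w, G w := by
    rw [hcongr]
  rw [hcong2]
  have hG0 : ∀ w, 0 ≤ G w := fun w => indicator_nonneg (fun w _ => h.nonneg _) w
  have hcN : Continuous fun w : E 4 => N (t - w) := h.cont.comp (continuous_const.sub continuous_id)
  have hGm : Measurable G := hcN.measurable.indicator hmw
  rw [integral_eq_lintegral_of_nonneg_ae (Filter.Eventually.of_forall hG0)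
    hGm.aestronglyMeasurable, polar (isN_nrm 4) (by norm_num) hGm.ennreal_ofReal]
  have hvol : 0 ≤ (4 : ℝ) * vol (nrm 4) := by
    have := (isN_nrm 4).vol_pos
    positivity
  -- the inner integral
  have hinner : ∫⁻ x, ∫⁻ r in Ioi (0 : ℝ), ENNReal.ofReal (r ^ (4 - 1)) * ENNReal.ofReal (G (r • x))
      ∂volume ∂(cm (nrm 4)) =
      ∫⁻ x, ∫⁻ r in Ioc (0 : ℝ) ρ, ENNReal.ofReal (r ^ 3 * N (t - r • x)) ∂volume ∂(sg 4) := by
    refine lintegral_congr_ae ?_
    have hae : ∀ᵐ x ∂(cm (nrm 4)), ‖x‖ = 1 := K2_ae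
    filter_upwards [hae] with x hx
    rw [← lintegral_indicator measurableSet_Ioi, ← lintegral_indicator measurableSet_Ioc]
    refine lintegral_congr fun r => ?_
    by_cases hr : 0 < r
    · rw [indicator_of_mem (show r ∈ Ioi (0 : ℝ) from hr)]
      have hnr : ‖r • x‖ = r := by
        rw [norm_smul, hx, mul_one, Real.norm_eq_abs, abs_of_pos hr]
      by_cases hrρ : r ≤ ρ
      · rw [indicator_of_mem (show r ∈ Ioc (0 : ℝ) ρ from ⟨hr, hrρ⟩)]
        have hGr : G (r • x) = N (t - r • x) := by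
          rw [hG]
          exact indicator_of_mem (show r • x ∈ {w : E 4 | ‖w‖ ≤ ρ} by
            show ‖r • x‖ ≤ ρ
            rw [hnr]
            exact hrρ) _
        rw [hGr, ← ENNReal.ofReal_mul (by positivity)]
      · rw [indicator_of_notMem (show r ∉ Ioc (0 : ℝ) ρ from fun hh => hrρ hh.2)]
        have hGr : G (r • x) = 0 := by
          rw [hG]
          exact indicator_of_notMem (show r • x ∉ {w : E 4 | ‖w‖ ≤ ρ} by
            intro hh
            have h2 : ‖r • x‖ ≤ ρ := hh
            rw [hnr] at h2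
            exact hrρ h2) _
        rw [hGr, ENNReal.ofReal_zero, mul_zero]
    · rw [indicator_of_notMem (show r ∉ Ioi (0 : ℝ) from hr),
        indicator_of_notMem (show r ∉ Ioc (0 : ℝ) ρ from fun hh => hr hh.1)]
  have hPc : Continuous fun r : ℝ => r ^ 3 * Ph4 N t r :=
    (continuous_id.pow 3).mul ((continuous_Ph4 h).comp (continuous_const.prodMk continuous_id))
  have hPh0 : ∀ r : ℝ, 0 ≤ Ph4 N t r := fun r => integral_nonneg fun φ => h.nonneg _
  obtain ⟨C, hC0, hC⟩ := k2_bound h
  have hjoint : Continuous fun p : E 4 × ℝ => p.2 ^ 3 * N (t - p.2 • p.1) :=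
    (continuous_snd.pow 3).mul (h.cont.comp (continuous_const.sub (continuous_snd.smul continuous_fst)))
  have houter : ∫⁻ x, ∫⁻ r in Ioc (0 : ℝ) ρ, ENNReal.ofReal (r ^ 3 * N (t - r • x)) ∂volume ∂(sg 4) =
      ENNReal.ofReal (∫ s in (0 : ℝ)..ρ, s ^ 3 * Ph4 N t s) := by
    rw [lintegral_lintegral_swap (hjoint.measurable.ennreal_ofReal.aemeasurable),
      intervalIntegral.integral_of_le hρ,
      ofReal_integral_eq_lintegral_ofReal (hPc.integrableOn_Ioc)
        (ae_restrict_of_forall_mem measurableSet_Ioc fun r hr =>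
          mul_nonneg (pow_nonneg hr.1.le 3) (hPh0 r))]
    refine setLIntegral_congr_fun measurableSet_Ioc fun r hr => ?_
    have hc : Continuous fun φ : E 4 => N (t - r • φ) :=
      h.cont.comp (continuous_const.sub (continuous_id.const_smul r))
    have hint : Integrable (fun φ : E 4 => r ^ 3 * N (t - r • φ)) (sg 4) := by
      refine (integrable_cm (isN_nrm 4) (by norm_num) hc.measurable (C := C * (‖t‖ + |r|)) ?_).const_mul _
      intro x hx
      have hx' : ‖x‖ = 1 := hx
      rw [abs_of_nonneg (h.nonneg _)]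
      refine (hC _).trans (mul_le_mul_of_nonneg_left ?_ hC0)
      refine (norm_sub_le _ _).trans ?_
      rw [norm_smul, hx', mul_one, Real.norm_eq_abs]
    rw [← ofReal_integral_eq_lintegral_ofReal hint
      (Filter.Eventually.of_forall fun φ => mul_nonneg (pow_nonneg hr.1.le 3) (h.nonneg _)),
      integral_const_mul]
    rfl
  rw [hinner, houter, ENNReal.toReal_mul, ENNReal.toReal_ofReal (by simpa using hvol),
    ENNReal.toReal_ofReal (intervalIntegral.integral_nonneg hρ fun s hs =>
      mul_nonneg (pow_nonneg hs.1 3) (hPh0 s))]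
  norm_num

end Pool.Agent.LibSP93
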