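import Pool.Agent.LibSP93.K1
import Pool.Agent.LibSP93.K2

/-!
[SP93 K3] PAPER PROOF.  Differentiate the two formulas for `∫_{‖t-z‖ ≤ ρ} N` at `ρ = 1` (both hold for `‖t‖ < ρ`).  Left: `4 vol · 1 · Ph4 N t 1`
(`intervalIntegral.integral_hasDerivAt_right`, continuity K2).  Right: `(4 vol / 5) ∫ N 5 (c + D)^4 dD/dρ`, `dD/dρ = ρ / D`
(`hasDerivAt_integral_of_dominated_loc_of_deriv_le` on a small ball around `1` where `ρ² - ‖t‖² ≥ (1 - ‖t‖²)/2 > 0`; on the unit sphere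
everything is bounded: `|c| ≤ 1`, `D ≤ 3`).  `vol (nrm 4) > 0`.
-/

set_option autoImplicit false

open MeasureTheory Set

namespace Pool.Agent.LibSP93

open Pool.Agent.LibSP74 Pool.Agent.LibSP52

private lemma sp93k3_der {c a ρ : ℝ} (hp : 0 < c ^ 2 + (ρ ^ 2 - a)) :
    HasDerivAt (fun ρ : ℝ => (c + √(c ^ 2 + (ρ ^ 2 - a))) ^ 5)
      (5 * (c + √(c ^ 2 + (ρ ^ 2 - a))) ^ 4 * (ρ / √(c ^ 2 + (ρ ^ 2 - a)))) ρ := by
  have e1 : HasDerivAt (fun ρ : ℝ => c ^ 2 + (ρ ^ 2 - a)) (2 * ρ) ρ := by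
    have := ((hasDerivAt_pow 2 ρ).sub_const a).const_add (c ^ 2)
    simpa using this
  have e2 := e1.sqrt hp.ne'
  have e3 := (e2.const_add c).fun_pow 5
  refine e3.congr_deriv ?_
  have h3 : 2 * ρ / (2 * √(c ^ 2 + (ρ ^ 2 - a))) = ρ / √(c ^ 2 + (ρ ^ 2 - a)) :=
    mul_div_mul_left _ _ two_ne_zero
  rw [h3]
  norm_num

theorem kernel_lt {N : E 4 → ℝ} (h : IsN N) {t : E 4} (ht : ‖t‖ < 1) :
    Ph4 N t 1 = ∫ ζ, N ζ * ((inner ℝ t ζ + √(inner ℝ t ζ ^ 2 + (1 - ‖t‖ ^ 2))) ^ 4 /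
      √(inner ℝ t ζ ^ 2 + (1 - ‖t‖ ^ 2))) ∂(sg 4) := by
  have hvol : 0 < vol (nrm 4) := (isN_nrm 4).vol_pos
  have hae : ∀ᵐ ζ ∂(sg 4), ‖ζ‖ = 1 := ae_cm (isN_nrm 4) (by norm_num)
  obtain ⟨C, hC0, hC⟩ := k2_bound h
  have ht0 : 0 ≤ ‖t‖ := norm_nonneg t
  have hPc : Continuous fun r : ℝ => r ^ 3 * Ph4 N t r :=
    (continuous_id.pow 3).mul ((continuous_Ph4 h).comp (continuous_const.prodMk continuous_id))
  have hd1 : HasDerivAt (fun ρ : ℝ => ∫ s in (0 : ℝ)..ρ, s ^ 3 * Ph4 N t s) (1 ^ 3 * Ph4 N t 1) 1 :=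
    intervalIntegral.integral_hasDerivAt_right (hPc.intervalIntegrable _ _)
      (hPc.stronglyMeasurableAtFilter _ _) hPc.continuousAt
  set m : ℝ := (1 - ‖t‖) * (1 + 3 * ‖t‖) / 4 with hm
  have hm0 : 0 < m := by
    have h1 : 0 < 1 - ‖t‖ := by linarith
    have h2 : 0 < 1 + 3 * ‖t‖ := by linarith
    rw [hm]
    positivity
  have hball : ∀ ρ ∈ Metric.ball (1 : ℝ) ((1 - ‖t‖) / 2), (1 + ‖t‖) / 2 < ρ ∧ ρ < 2 ∧
      m ≤ ρ ^ 2 - ‖t‖ ^ 2 ∧ ρ ^ 2 - ‖t‖ ^ 2 ≤ 4 := by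
    intro ρ hρ
    rw [Metric.mem_ball, Real.dist_eq, abs_lt] at hρ
    have h1 : (1 + ‖t‖) / 2 < ρ := by linarith [hρ.1]
    have h2 : ρ < 2 := by linarith [hρ.2]
    refine ⟨h1, h2, ?_, ?_⟩
    · rw [hm]
      nlinarith
    · nlinarith
  -- the derivative of the integrand
  have hint : ∀ ρ : ℝ, Continuous fun ζ : E 4 =>
      N ζ * (inner ℝ t ζ + √(inner ℝ t ζ ^ 2 + (ρ ^ 2 - ‖t‖ ^ 2))) ^ 5 := by
    intro ρ
    have hi : Continuous fun ζ : E 4 => (inner ℝ t ζ : ℝ) := continuous_const.inner continuous_id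
    exact h.cont.mul ((hi.add ((hi.pow 2).add continuous_const).sqrt).pow 5)
  have hc1 : ∀ ζ : E 4, ‖ζ‖ = 1 → |(inner ℝ t ζ : ℝ)| ≤ 1 := by
    intro ζ hζ
    have := abs_real_inner_le_norm t ζ
    rw [hζ, mul_one] at this
    linarith
  have hN1 : ∀ ζ : E 4, ‖ζ‖ = 1 → N ζ ≤ C := by
    intro ζ hζ
    have := hC ζ
    rwa [hζ, mul_one] at this
  have hD3 : ∀ (ζ : E 4) (ρ : ℝ), ‖ζ‖ = 1 → ρ ^ 2 - ‖t‖ ^ 2 ≤ 4 →
      √(inner ℝ t ζ ^ 2 + (ρ ^ 2 - ‖t‖ ^ 2)) ≤ 3 := by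
    intro ζ ρ hζ hρ
    have h1 : (inner ℝ t ζ : ℝ) ^ 2 ≤ 1 := by
      have := hc1 ζ hζ
      rw [← sq_abs]
      nlinarith [abs_nonneg (inner ℝ t ζ : ℝ)]
    rw [Real.sqrt_le_left (by norm_num)]
    linarith
  have hsum : ∀ (ζ : E 4) (ρ : ℝ), ‖ζ‖ = 1 → ρ ^ 2 - ‖t‖ ^ 2 ≤ 4 →
      |(inner ℝ t ζ : ℝ) + √(inner ℝ t ζ ^ 2 + (ρ ^ 2 - ‖t‖ ^ 2))| ≤ 4 := by
    intro ζ ρ hζ hρ
    have h1 := hD3 ζ ρ hζ hρ
    have h2 := hc1 ζ hζ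
    have h3 := Real.sqrt_nonneg ((inner ℝ t ζ : ℝ) ^ 2 + (ρ ^ 2 - ‖t‖ ^ 2))
    calc |(inner ℝ t ζ : ℝ) + √(inner ℝ t ζ ^ 2 + (ρ ^ 2 - ‖t‖ ^ 2))|
        ≤ |(inner ℝ t ζ : ℝ)| + |√(inner ℝ t ζ ^ 2 + (ρ ^ 2 - ‖t‖ ^ 2))| := abs_add_le _ _
      _ ≤ 1 + 3 := by rw [abs_of_nonneg h3]; linarith
      _ = 4 := by norm_num
  have hd2 := hasDerivAt_integral_of_dominated_loc_of_deriv_le
    (μ := sg 4) (x₀ := (1 : ℝ)) (s := Metric.ball (1 : ℝ) ((1 - ‖t‖) / 2))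
    (F := fun (ρ : ℝ) (ζ : E 4) =>
      N ζ * (inner ℝ t ζ + √(inner ℝ t ζ ^ 2 + (ρ ^ 2 - ‖t‖ ^ 2))) ^ 5)
    (F' := fun (ρ : ℝ) (ζ : E 4) =>
      N ζ * (5 * (inner ℝ t ζ + √(inner ℝ t ζ ^ 2 + (ρ ^ 2 - ‖t‖ ^ 2))) ^ 4 *
        (ρ / √(inner ℝ t ζ ^ 2 + (ρ ^ 2 - ‖t‖ ^ 2)))))
    (bound := fun _ => C * (5 * 4 ^ 4 * (2 / √m)))
    (Metric.ball_mem_nhds _ (by linarith))
    (Filter.Eventually.of_forall fun ρ => (hint ρ).aestronglyMeasurable)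
    (by
      refine integrable_cm (isN_nrm 4) (by norm_num) (hint 1).measurable (C := C * 4 ^ 5) ?_
      intro ζ hζ
      have hζ' : ‖ζ‖ = 1 := hζ
      rw [abs_mul, abs_of_nonneg (h.nonneg _), abs_pow]
      refine mul_le_mul (hN1 ζ hζ') (pow_le_pow_left₀ (abs_nonneg _) (hsum ζ 1 hζ' ?_) 5)
        (by positivity) hC0
      nlinarith)
    (by
      have hi : Continuous fun ζ : E 4 => (inner ℝ t ζ : ℝ) := continuous_const.inner continuous_id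
      have hs : Continuous fun ζ : E 4 => √((inner ℝ t ζ : ℝ) ^ 2 + (1 ^ 2 - ‖t‖ ^ 2)) :=
        ((hi.pow 2).add continuous_const).sqrt
      exact (h.cont.measurable.mul (((measurable_const.mul
        ((hi.add hs).pow 4).measurable)).mul
          (measurable_const.div hs.measurable))).aestronglyMeasurable)
    (by
      filter_upwards [hae] with ζ hζ ρ hρ
      obtain ⟨h1, h2, h3, h4⟩ := hball ρ hρ
      have hD : √m ≤ √((inner ℝ t ζ : ℝ) ^ 2 + (ρ ^ 2 - ‖t‖ ^ 2)) :=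
        Real.sqrt_le_sqrt (by nlinarith [sq_nonneg (inner ℝ t ζ : ℝ)])
      have hsm : 0 < √m := Real.sqrt_pos.2 hm0
      have hρ0 : 0 ≤ ρ := by linarith
      rw [Real.norm_eq_abs, abs_mul, abs_of_nonneg (h.nonneg _), abs_mul, abs_mul, abs_pow,
        abs_of_nonneg (show (0 : ℝ) ≤ 5 by norm_num),
        abs_of_nonneg (div_nonneg hρ0 (Real.sqrt_nonneg _))]
      refine mul_le_mul (hN1 ζ hζ) (mul_le_mul (mul_le_mul_of_nonneg_left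
        (pow_le_pow_left₀ (abs_nonneg _) (hsum ζ ρ hζ h4) 4) (by norm_num)) ?_
          (div_nonneg hρ0 (Real.sqrt_nonneg _)) (by positivity)) (by positivity) hC0
      exact div_le_div₀ (by norm_num) h2.le hsm hD)
    (by
      have : IsProbabilityMeasure (sg 4) := isProb_cm (isN_nrm 4)
      exact integrable_const _)
    (by
      filter_upwards [hae] with ζ hζ ρ hρ
      obtain ⟨h1, h2, h3, h4⟩ := hball ρ hρ
      exact (sp93k3_der (by nlinarith [sq_nonneg (inner ℝ t ζ : ℝ)])).const_mul (N ζ))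
  have hd3 := hd2.2
  have hev : (fun ρ : ℝ => ∫ ζ, N ζ * (inner ℝ t ζ +
      √(inner ℝ t ζ ^ 2 + (ρ ^ 2 - ‖t‖ ^ 2))) ^ 5 ∂(sg 4)) =ᶠ[nhds 1]
      (fun ρ : ℝ => 5 * ∫ s in (0 : ℝ)..ρ, s ^ 3 * Ph4 N t s) := by
    filter_upwards [lt_mem_nhds ht] with ρ hρ
    have hρ0 : 0 ≤ ρ := ht0.trans hρ.le
    have h1 := solid_center4 h hρ
    rw [solid_spheres4 h t hρ0] at h1
    have h2 : 4 * vol (nrm 4) ≠ 0 := by positivity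
    apply mul_left_cancel₀ h2
    linarith
  have hd4 := (hd3.congr_of_eventuallyEq hev.symm).unique (hd1.const_mul 5)
  have hd5 : ∫ ζ, N ζ * (5 * (inner ℝ t ζ + √(inner ℝ t ζ ^ 2 + (1 ^ 2 - ‖t‖ ^ 2))) ^ 4 *
      (1 / √(inner ℝ t ζ ^ 2 + (1 ^ 2 - ‖t‖ ^ 2)))) ∂(sg 4) =
      5 * ∫ ζ, N ζ * ((inner ℝ t ζ + √(inner ℝ t ζ ^ 2 + (1 - ‖t‖ ^ 2))) ^ 4 /
      √(inner ℝ t ζ ^ 2 + (1 - ‖t‖ ^ 2))) ∂(sg 4) := by
    rw [← integral_const_mul]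
    refine integral_congr_ae (Filter.Eventually.of_forall fun ζ => ?_)
    simp only [one_pow]
    ring
  rw [hd5] at hd4
  linarith

end Pool.Agent.LibSP93
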