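import Pool.Agent.LibSP93.T1

/-!
[SP93 T3] Symmetries.  `s4_iso`: `b3_map` (LibSP52/B3.lean) and `integral_map`.  `s4_odd`: `s4_iso` with `LinearIsometryEquiv.neg`.
`s4_perp`: `s4_iso` with the reflection in the hyperplane orthogonal to `w` (`reflection (Submodule.span ℝ {w})ᗮ`; it fixes vectors
orthogonal to `w` and sends `w` to `-w`): the integral is equal to its negative.  (`w = 0` is trivial.)
-/

set_option autoImplicit false

open MeasureTheory Set

namespace Pool.Agent.LibSP93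

open Pool.Agent.LibSP74 Pool.Agent.LibSP52

theorem s4_iso {G : Type*} [NormedAddCommGroup G] [NormedSpace ℝ G] (U : E 4 ≃ₗᵢ[ℝ] E 4) {f : E 4 → G}
    (hf : Continuous f) : ∫ ζ, f (U ζ) ∂(sg 4) = ∫ ζ, f ζ ∂(sg 4) := by
  have hm : Measurable U := U.continuous.measurable
  calc ∫ ζ, f (U ζ) ∂(sg 4) = ∫ ζ, f ζ ∂((sg 4).map U) :=
        (integral_map hm.aemeasurable hf.aestronglyMeasurable).symm
    _ = _ := by rw [b3_map]

theorem s4_odd {f : E 4 → ℝ} (hf : Continuous f) (ho : ∀ ζ, f (-ζ) = -f ζ) :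
    ∫ ζ, f ζ ∂(sg 4) = 0 := by
  have h := s4_iso (LinearIsometryEquiv.neg ℝ (E := E 4)) hf
  have h1 : ∫ ζ, f (LinearIsometryEquiv.neg ℝ (E := E 4) ζ) ∂(sg 4) = -∫ ζ, f ζ ∂(sg 4) := by
    rw [← integral_neg]
    refine integral_congr_ae (Filter.Eventually.of_forall fun ζ => ?_)
    exact ho ζ
  rw [h1] at h
  linarith

theorem s4_perp {θ η w : E 4} (h1 : inner ℝ θ w = 0) (h2 : inner ℝ η w = 0) {g : ℝ → ℝ → ℝ}
    (hg : Continuous (Function.uncurry g)) :
    ∫ ζ, g (inner ℝ θ ζ) (inner ℝ η ζ) * inner ℝ w ζ ∂(sg 4) = 0 := by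
  set U : E 4 ≃ₗᵢ[ℝ] E 4 := (ℝ ∙ w)ᗮ.reflection with hU
  have hw : U w = -w := Submodule.reflection_orthogonalComplement_singleton_eq_neg w
  have hθ : U θ = θ := Submodule.reflection_mem_subspace_eq_self (by
    rw [Submodule.mem_orthogonal_singleton_iff_inner_left]; exact h1)
  have hη : U η = η := Submodule.reflection_mem_subspace_eq_self (by
    rw [Submodule.mem_orthogonal_singleton_iff_inner_left]; exact h2)
  have k1 : ∀ ζ, inner ℝ θ (U ζ) = inner ℝ θ ζ := fun ζ => by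
    conv_lhs => rw [← hθ]
    exact U.inner_map_map θ ζ
  have k2 : ∀ ζ, inner ℝ η (U ζ) = inner ℝ η ζ := fun ζ => by
    conv_lhs => rw [← hη]
    exact U.inner_map_map η ζ
  have k3 : ∀ ζ, inner ℝ w (U ζ) = -inner ℝ w ζ := fun ζ => by
    have h3 : inner ℝ (U w) (U ζ) = inner ℝ w ζ := U.inner_map_map w ζ
    rw [hw, inner_neg_left] at h3
    linarith
  have hc : Continuous fun ζ : E 4 => g (inner ℝ θ ζ) (inner ℝ η ζ) * inner ℝ w ζ := by
    have hc1 : Continuous fun ζ : E 4 => ((inner ℝ θ ζ : ℝ), (inner ℝ η ζ : ℝ)) := by fun_prop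
    have hc2 : Continuous fun ζ : E 4 => (inner ℝ w ζ : ℝ) := by fun_prop
    exact (hg.comp hc1).mul hc2
  have h := s4_iso U hc
  have h4 : ∫ ζ, (fun ζ : E 4 => g (inner ℝ θ ζ) (inner ℝ η ζ) * inner ℝ w ζ) (U ζ) ∂(sg 4)
      = -∫ ζ, g (inner ℝ θ ζ) (inner ℝ η ζ) * inner ℝ w ζ ∂(sg 4) := by
    rw [← integral_neg]
    refine integral_congr_ae (Filter.Eventually.of_forall fun ζ => ?_)
    simp only [k1, k2, k3, mul_neg]
  rw [h4] at h
  linarith

end Pool.Agent.LibSP93
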