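import Pool.Agent.LibSP93.K3
import Pool.Agent.LibSP93.T3

/-!
[SP93 K4] Even part: replace `ζ` by `-ζ` (`s4_iso` with `LinearIsometryEquiv.neg`, `h.neg`), take the mean:
`((D + c)^4 + (D - c)^4)/(2 D) = (D⁴ + 6 D² c² + c⁴)/D = (8 c⁴ + 8 e c² + e²)/D` because `D² = c² + e`.
-/

set_option autoImplicit false

open MeasureTheory Set

namespace Pool.Agent.LibSP93

open Pool.Agent.LibSP74 Pool.Agent.LibSP52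

private lemma k4_pt (n c e : ℝ) (he : 0 < e) :
    n * ((c + √(c ^ 2 + e)) ^ 4 / √(c ^ 2 + e)) + n * ((-c + √(c ^ 2 + e)) ^ 4 / √(c ^ 2 + e)) =
      2 * (n * ((8 * c ^ 4 + 8 * e * c ^ 2 + e ^ 2) / √(c ^ 2 + e))) := by
  have h0 : 0 < c ^ 2 + e := by positivity
  have hD : 0 < √(c ^ 2 + e) := Real.sqrt_pos.2 h0
  have hs : √(c ^ 2 + e) ^ 2 = c ^ 2 + e := Real.sq_sqrt h0.le
  generalize √(c ^ 2 + e) = D at hD hs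
  have he' : e = D ^ 2 - c ^ 2 := by linarith
  subst he'
  field_simp
  ring

theorem kernel_even {N : E 4 → ℝ} (h : IsN N) {t : E 4} (ht : ‖t‖ < 1) :
    Ph4 N t 1 = ∫ ζ, N ζ * ((8 * inner ℝ t ζ ^ 4 + 8 * (1 - ‖t‖ ^ 2) * inner ℝ t ζ ^ 2 +
      (1 - ‖t‖ ^ 2) ^ 2) / √(inner ℝ t ζ ^ 2 + (1 - ‖t‖ ^ 2))) ∂(sg 4) := by
  have he : 0 < 1 - ‖t‖ ^ 2 := by
    have := norm_nonneg t
    nlinarith
  have hpos : ∀ ζ : E 4, 0 < inner ℝ t ζ ^ 2 + (1 - ‖t‖ ^ 2) := fun ζ => by positivity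
  have hcont : Continuous fun ζ : E 4 => N ζ * ((inner ℝ t ζ + √(inner ℝ t ζ ^ 2 + (1 - ‖t‖ ^ 2))) ^ 4 /
      √(inner ℝ t ζ ^ 2 + (1 - ‖t‖ ^ 2))) := by
    refine h.cont.mul (Continuous.div (by fun_prop) (by fun_prop) fun ζ => ?_)
    exact (Real.sqrt_pos.2 (hpos ζ)).ne'
  have hneg := s4_iso (LinearIsometryEquiv.neg ℝ) hcont
  have h2 : (2 : ℝ) * Ph4 N t 1 = 2 * ∫ ζ, N ζ * ((8 * inner ℝ t ζ ^ 4 + 8 * (1 - ‖t‖ ^ 2) * inner ℝ t ζ ^ 2 +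
      (1 - ‖t‖ ^ 2) ^ 2) / √(inner ℝ t ζ ^ 2 + (1 - ‖t‖ ^ 2))) ∂(sg 4) := by
    rw [two_mul]
    nth_rewrite 2 [kernel_lt h ht]
    rw [← hneg, kernel_lt h ht, ← integral_add (s4_int hcont)
      (s4_int (f := fun ζ => N ((LinearIsometryEquiv.neg ℝ : E 4 ≃ₗᵢ[ℝ] E 4) ζ) * ((inner ℝ t ((LinearIsometryEquiv.neg ℝ : E 4 ≃ₗᵢ[ℝ] E 4) ζ) + √(inner ℝ t ((LinearIsometryEquiv.neg ℝ : E 4 ≃ₗᵢ[ℝ] E 4) ζ) ^ 2 + (1 - ‖t‖ ^ 2))) ^ 4 /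
      √(inner ℝ t ((LinearIsometryEquiv.neg ℝ : E 4 ≃ₗᵢ[ℝ] E 4) ζ) ^ 2 + (1 - ‖t‖ ^ 2))))
        (hcont.comp (LinearIsometryEquiv.neg ℝ : E 4 ≃ₗᵢ[ℝ] E 4).continuous)),
      ← integral_const_mul]
    refine integral_congr_ae (Filter.Eventually.of_forall fun ζ => ?_)
    simp only [LinearIsometryEquiv.coe_neg, inner_neg_right, h.neg, neg_sq]
    exact k4_pt _ _ _ he
  linarith

end Pool.Agent.LibSP93
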