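import Pool.Agent.LibSP93.Defs

/-!
[SP93 K5] Elementary.  `x = |c|`, `e = q²`, `q = √e > 0`, `D = √(x² + q²)`, `D² = x² + q²`.  Lower: `8 x³ D ≤ 8x⁴ + 8q²x² + q⁴`: the squares differ by
`(8x⁴+8q²x²+q⁴)² - 64x⁶(x²+q²) = 64x⁶q² + 80x⁴q⁴ + 16x²q⁶ + q⁸ ≥ 0`.  Upper: `(8x³+4q²x+q³)² (x²+q²) - (8x⁴+8q²x²+q⁴)² =
16x⁵q³ + 24x³q⁵ + x²q⁶ + 8xq⁷ ≥ 0` (checked).  Use `abs_le_of_sq_le_sq'`/`pow_le_pow_left` and `div_le_iff₀`, `le_div_iff₀`.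
-/

set_option autoImplicit false

open MeasureTheory Set

namespace Pool.Agent.LibSP93

open Pool.Agent.LibSP74 Pool.Agent.LibSP52

private theorem K5_le_of_sq {a b : ℝ} (h : a ^ 2 ≤ b ^ 2) (hb : 0 ≤ b) : a ≤ b :=
  le_trans (le_abs_self a) (abs_le_of_sq_le_sq h hb)

theorem ker_real {c e : ℝ} (he : 0 < e) :
    8 * |c| ^ 3 ≤ (8 * c ^ 4 + 8 * e * c ^ 2 + e ^ 2) / √(c ^ 2 + e) ∧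
      (8 * c ^ 4 + 8 * e * c ^ 2 + e ^ 2) / √(c ^ 2 + e) ≤ 8 * |c| ^ 3 + 4 * e * |c| + e * √e := by
  obtain ⟨q, hq, hqe, hsq⟩ : ∃ q : ℝ, 0 < q ∧ q ^ 2 = e ∧ √e = q :=
    ⟨√e, Real.sqrt_pos.2 he, Real.sq_sqrt he.le, rfl⟩
  rw [hsq, ← hqe]
  obtain ⟨x, hx, hxc⟩ : ∃ x : ℝ, 0 ≤ x ∧ x = |c| := ⟨|c|, abs_nonneg c, rfl⟩
  have hc2 : c ^ 2 = x ^ 2 := by rw [hxc, sq_abs]
  have hc4 : c ^ 4 = x ^ 4 := by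
    have : c ^ 4 = (c ^ 2) ^ 2 := by ring
    rw [this, hc2]; ring
  rw [← hxc, hc4, hc2]
  have hD0 : 0 < x ^ 2 + q ^ 2 := by positivity
  obtain ⟨D, hD, hD2, hDe⟩ : ∃ D : ℝ, 0 < D ∧ D ^ 2 = x ^ 2 + q ^ 2 ∧ √(x ^ 2 + q ^ 2) = D :=
    ⟨√(x ^ 2 + q ^ 2), Real.sqrt_pos.2 hD0, Real.sq_sqrt hD0.le, rfl⟩
  rw [hDe]
  constructor
  · rw [le_div_iff₀ hD]
    refine K5_le_of_sq ?_ (by positivity)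
    have h : (8 * x ^ 4 + 8 * q ^ 2 * x ^ 2 + (q ^ 2) ^ 2) ^ 2 - (8 * x ^ 3 * D) ^ 2 =
        64 * x ^ 6 * q ^ 2 + 80 * x ^ 4 * q ^ 4 + 16 * x ^ 2 * q ^ 6 + q ^ 8 := by
      have : (8 * x ^ 3 * D) ^ 2 = 64 * x ^ 6 * D ^ 2 := by ring
      rw [this, hD2]; ring
    have h2 : 0 ≤ 64 * x ^ 6 * q ^ 2 + 80 * x ^ 4 * q ^ 4 + 16 * x ^ 2 * q ^ 6 + q ^ 8 := by positivity
    linarith
  · rw [div_le_iff₀ hD]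
    refine K5_le_of_sq ?_ (by positivity)
    have h : ((8 * x ^ 3 + 4 * q ^ 2 * x + q ^ 2 * q) * D) ^ 2 - (8 * x ^ 4 + 8 * q ^ 2 * x ^ 2 + (q ^ 2) ^ 2) ^ 2 =
        16 * x ^ 5 * q ^ 3 + 24 * x ^ 3 * q ^ 5 + x ^ 2 * q ^ 6 + 8 * x * q ^ 7 := by
      have : ((8 * x ^ 3 + 4 * q ^ 2 * x + q ^ 2 * q) * D) ^ 2 = (8 * x ^ 3 + 4 * q ^ 2 * x + q ^ 2 * q) ^ 2 * D ^ 2 := by ring
      rw [this, hD2]; ring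
    have h2 : 0 ≤ 16 * x ^ 5 * q ^ 3 + 24 * x ^ 3 * q ^ 5 + x ^ 2 * q ^ 6 + 8 * x * q ^ 7 := by positivity
    linarith

end Pool.Agent.LibSP93
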