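import Pool.Agent.LibSP93.K4
import Pool.Agent.LibSP93.K5
import Pool.Agent.LibSP93.K2
import Pool.Agent.LibSP93.T2

/-!
[SP93 K6] For `‖t‖ < 1`: `kernel_even` and `ker_real` (`integral_mono`, the integrands are continuous since `e > 0`; `s4_int`).  For `‖t‖ = 1`: both
sides are continuous in `t` (K2, `s4_cont`); take `t' = r t`, `r → 1`, `r < 1` (`le_of_tendsto_of_tendsto`, or
`closure`-argument for a closed set of `t`).
-/

set_option autoImplicit false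

open MeasureTheory Set

namespace Pool.Agent.LibSP93

open Pool.Agent.LibSP74 Pool.Agent.LibSP52

private theorem k6_nonneg {N : E 4 → ℝ} (h : IsN N) (z : E 4) : 0 ≤ N z := by
  by_cases hz : z = 0
  · subst hz
    have h1 := h.smul 0 0
    simp at h1
    exact h1.ge
  · exact (h.pos z hz).le

private theorem k6_ci (t : E 4) : Continuous fun ζ : E 4 => (inner ℝ t ζ : ℝ) :=
  continuous_const.inner continuous_id

private theorem k6_e {t : E 4} (ht : ‖t‖ < 1) : 0 < 1 - ‖t‖ ^ 2 := by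
  nlinarith [norm_nonneg t]

private theorem k6_cker {N : E 4 → ℝ} (h : IsN N) {t : E 4} (ht : ‖t‖ < 1) :
    Continuous fun ζ : E 4 => N ζ * ((8 * inner ℝ t ζ ^ 4 + 8 * (1 - ‖t‖ ^ 2) * inner ℝ t ζ ^ 2 +
      (1 - ‖t‖ ^ 2) ^ 2) / √(inner ℝ t ζ ^ 2 + (1 - ‖t‖ ^ 2))) := by
  have he := k6_e ht
  have hc := k6_ci t
  have hcN := h.cont
  refine hcN.mul (Continuous.div ?_ ?_ ?_)
  · exact ((continuous_const.mul (hc.pow 4)).add (continuous_const.mul (hc.pow 2))).add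
      continuous_const
  · exact ((hc.pow 2).add continuous_const).sqrt
  · intro ζ
    have h1 : 0 < (inner ℝ t ζ : ℝ) ^ 2 + (1 - ‖t‖ ^ 2) := by positivity
    exact (Real.sqrt_pos.2 h1).ne'

private theorem k6_lower {N : E 4 → ℝ} (h : IsN N) {t : E 4} (ht : ‖t‖ < 1) :
    8 * ∫ ζ, N ζ * |inner ℝ t ζ| ^ 3 ∂(sg 4) ≤ Ph4 N t 1 := by
  have he := k6_e ht
  have hc := k6_ci t
  rw [kernel_even h ht, ← integral_const_mul]
  refine integral_mono (s4_int ?_) (s4_int (k6_cker h ht)) ?_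
  · exact continuous_const.mul (h.cont.mul (hc.abs.pow 3))
  · intro ζ
    have h1 := mul_le_mul_of_nonneg_left (ker_real (c := inner ℝ t ζ) he).1 (k6_nonneg h ζ)
    show 8 * (N ζ * |inner ℝ t ζ| ^ 3) ≤ _
    calc 8 * (N ζ * |inner ℝ t ζ| ^ 3) = N ζ * (8 * |inner ℝ t ζ| ^ 3) := by ring
      _ ≤ _ := h1

private theorem k6_upper {N : E 4 → ℝ} (h : IsN N) {t : E 4} (ht : ‖t‖ < 1) :
    Ph4 N t 1 ≤ 8 * (∫ ζ, N ζ * |inner ℝ t ζ| ^ 3 ∂(sg 4)) +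
      4 * (1 - ‖t‖ ^ 2) * (∫ ζ, N ζ * |inner ℝ t ζ| ∂(sg 4)) +
      (1 - ‖t‖ ^ 2) * √(1 - ‖t‖ ^ 2) * ∫ ζ, N ζ ∂(sg 4) := by
  have he := k6_e ht
  have hc := k6_ci t
  have i3 : Integrable (fun ζ : E 4 => 8 * (N ζ * |inner ℝ t ζ| ^ 3)) (sg 4) :=
    s4_int (continuous_const.mul (h.cont.mul (hc.abs.pow 3)))
  have i1 : Integrable (fun ζ : E 4 => 4 * (1 - ‖t‖ ^ 2) * (N ζ * |inner ℝ t ζ|)) (sg 4) :=
    s4_int (continuous_const.mul (h.cont.mul hc.abs))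
  have i0 : Integrable (fun ζ : E 4 => (1 - ‖t‖ ^ 2) * √(1 - ‖t‖ ^ 2) * N ζ) (sg 4) :=
    s4_int (continuous_const.mul h.cont)
  have i4 : Integrable (fun ζ : E 4 => 8 * (N ζ * |inner ℝ t ζ| ^ 3) +
      4 * (1 - ‖t‖ ^ 2) * (N ζ * |inner ℝ t ζ|)) (sg 4) := i3.add i1
  rw [kernel_even h ht, ← integral_const_mul, ← integral_const_mul, ← integral_const_mul,
    ← integral_add i3 i1, ← integral_add i4 i0]
  refine integral_mono (s4_int (k6_cker h ht)) (i4.add i0) ?_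
  intro ζ
  have h1 := mul_le_mul_of_nonneg_left (ker_real (c := inner ℝ t ζ) he).2 (k6_nonneg h ζ)
  calc _ ≤ N ζ * (8 * |inner ℝ t ζ| ^ 3 + 4 * (1 - ‖t‖ ^ 2) * |inner ℝ t ζ| +
        (1 - ‖t‖ ^ 2) * √(1 - ‖t‖ ^ 2)) := h1
    _ = 8 * (N ζ * |inner ℝ t ζ| ^ 3) + 4 * (1 - ‖t‖ ^ 2) * (N ζ * |inner ℝ t ζ|) +
        (1 - ‖t‖ ^ 2) * √(1 - ‖t‖ ^ 2) * N ζ := by ring

private theorem k6_cP {N : E 4 → ℝ} (h : IsN N) : Continuous fun t : E 4 => Ph4 N t 1 :=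
  (continuous_Ph4 h).comp (continuous_id.prodMk continuous_const)

private theorem k6_c3 {N : E 4 → ℝ} (h : IsN N) :
    Continuous fun t : E 4 => ∫ ζ, N ζ * |inner ℝ t ζ| ^ 3 ∂(sg 4) := by
  apply s4_cont
  exact (h.cont.comp continuous_snd).mul ((continuous_fst.inner continuous_snd).abs.pow 3)

private theorem k6_c1 {N : E 4 → ℝ} (h : IsN N) :
    Continuous fun t : E 4 => ∫ ζ, N ζ * |inner ℝ t ζ| ∂(sg 4) := by
  apply s4_cont
  exact (h.cont.comp continuous_snd).mul (continuous_fst.inner continuous_snd).abs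

private theorem k6_ext {f g : E 4 → ℝ} (hf : Continuous f) (hg : Continuous g)
    (h : ∀ t : E 4, ‖t‖ < 1 → f t ≤ g t) {t : E 4} (ht : ‖t‖ ≤ 1) : f t ≤ g t := by
  have h1 : IsClosed {t : E 4 | f t ≤ g t} := isClosed_le hf hg
  have h2 : Metric.ball (0 : E 4) 1 ⊆ {t : E 4 | f t ≤ g t} := fun s hs => by
    apply h s
    simpa using hs
  have h3 : closure (Metric.ball (0 : E 4) 1) ⊆ {t : E 4 | f t ≤ g t} := h1.closure_subset_iff.2 h2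
  apply h3
  rw [closure_ball (0 : E 4) one_ne_zero]
  simpa using ht

theorem F_lower {N : E 4 → ℝ} (h : IsN N) {t : E 4} (ht : ‖t‖ ≤ 1) :
    8 * ∫ ζ, N ζ * |inner ℝ t ζ| ^ 3 ∂(sg 4) ≤ Ph4 N t 1 := by
  exact k6_ext (f := fun t => 8 * ∫ ζ, N ζ * |inner ℝ t ζ| ^ 3 ∂(sg 4))
    (g := fun t => Ph4 N t 1) (continuous_const.mul (k6_c3 h)) (k6_cP h)
    (fun s hs => k6_lower h hs) ht

theorem F_upper {N : E 4 → ℝ} (h : IsN N) {t : E 4} (ht : ‖t‖ ≤ 1) :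
    Ph4 N t 1 ≤ 8 * (∫ ζ, N ζ * |inner ℝ t ζ| ^ 3 ∂(sg 4)) +
      4 * (1 - ‖t‖ ^ 2) * (∫ ζ, N ζ * |inner ℝ t ζ| ∂(sg 4)) +
      (1 - ‖t‖ ^ 2) * √(1 - ‖t‖ ^ 2) * ∫ ζ, N ζ ∂(sg 4) := by
  have ce : Continuous fun t : E 4 => (1 : ℝ) - ‖t‖ ^ 2 :=
    continuous_const.sub (continuous_norm.pow 2)
  exact k6_ext (f := fun t => Ph4 N t 1)
    (g := fun t => 8 * (∫ ζ, N ζ * |inner ℝ t ζ| ^ 3 ∂(sg 4)) +
      4 * (1 - ‖t‖ ^ 2) * (∫ ζ, N ζ * |inner ℝ t ζ| ∂(sg 4)) +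
      (1 - ‖t‖ ^ 2) * √(1 - ‖t‖ ^ 2) * ∫ ζ, N ζ ∂(sg 4)) (k6_cP h)
    (((continuous_const.mul (k6_c3 h)).add ((continuous_const.mul ce).mul (k6_c1 h))).add
      ((ce.mul ce.sqrt).mul continuous_const))
    (fun s hs => k6_upper h hs) ht

end Pool.Agent.LibSP93
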