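import Pool.Agent.LibSP93.Defs

/-!
[SP93 M2] Elementary: by cases on the signs of `t` and `t - δ` (`abs_cases`, `nlinarith`).  If `t ≥ 0`, `t ≥ δ`: `(t-δ)³ = t³ - 3t²δ + 3tδ² - δ³`.  If
`t ≥ 0`, `δ > t`: `(δ-t)³ = (δ³ - 3δ²t + 3δt² - t³)` and `t³ - 3t²δ + 3(t+δ)δ² - (δ-t)³ = 2δ³ + 6tδ² - 6t²δ + 2t³ ≥ 0` (δ > t ≥ 0).
Replace `(t, δ)` by `(-t, -δ)` for `t < 0`.
-/

set_option autoImplicit false

open MeasureTheory Set

namespace Pool.Agent.LibSP93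

open Pool.Agent.LibSP74 Pool.Agent.LibSP52

/-- The case `0 ≤ t`. -/
private theorem M2_nonneg (t δ : ℝ) (ht : 0 ≤ t) :
    |t - δ| ^ 3 ≤ |t| ^ 3 - 3 * |t| * t * δ + 3 * (|t| + |δ|) * δ ^ 2 := by
  rw [abs_of_nonneg ht]
  rcases le_total δ t with h | h
  · rw [abs_of_nonneg (sub_nonneg.2 h)]
    rcases le_total 0 δ with hd | hd
    · rw [abs_of_nonneg hd]
      have h3 : 0 ≤ δ ^ 3 := by positivity
      nlinarith [h3]
    · rw [abs_of_nonpos hd]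
      have h3 : 0 ≤ (-δ) ^ 3 := pow_nonneg (by linarith) 3
      have e : (-δ) ^ 3 = -(δ ^ 3) := by ring
      rw [e] at h3
      nlinarith [h3]
  · have hd : 0 ≤ δ := le_trans ht h
    rw [abs_of_nonneg hd, abs_of_nonpos (sub_nonpos.2 h)]
    obtain ⟨s, hs, rfl⟩ : ∃ s : ℝ, 0 ≤ s ∧ δ = t + s := ⟨δ - t, by linarith, by ring⟩
    have key : t ^ 3 - 3 * t * t * (t + s) + 3 * (t + (t + s)) * (t + s) ^ 2
        - (-(t - (t + s))) ^ 3 = 4 * t ^ 3 + 12 * t ^ 2 * s + 12 * t * s ^ 2 + 2 * s ^ 3 := by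
      ring
    have hpos : 0 ≤ 4 * t ^ 3 + 12 * t ^ 2 * s + 12 * t * s ^ 2 + 2 * s ^ 3 := by positivity
    linarith [key, hpos]

theorem cube_taylor (t δ : ℝ) :
    |t - δ| ^ 3 ≤ |t| ^ 3 - 3 * |t| * t * δ + 3 * (|t| + |δ|) * δ ^ 2 := by
  rcases le_total 0 t with h | h
  · exact M2_nonneg t δ h
  · have h1 := M2_nonneg (-t) (-δ) (by linarith)
    have e1 : |-t - -δ| = |t - δ| := by
      rw [← abs_neg (t - δ)]
      congr 1
      ring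
    rw [e1, abs_neg, abs_neg] at h1
    have e2 : |t| ^ 3 - 3 * |t| * -t * -δ + 3 * (|t| + |δ|) * (-δ) ^ 2
        = |t| ^ 3 - 3 * |t| * t * δ + 3 * (|t| + |δ|) * δ ^ 2 := by ring
    rw [e2] at h1
    exact h1

end Pool.Agent.LibSP93
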