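import Pool.Agent.LibSP93.K6
import Pool.Agent.LibSP93.M2
import Pool.Agent.LibSP93.T1

/-!
[SP93 M3] PAPER PROOF.  `t' = (1-sL)θ - s x`, `‖t'‖ ≤ 1`.  `F_upper`.  For `‖ζ‖ = 1`: `⟪t',ζ⟫ = t - δ`, `t = ⟪θ,ζ⟫`, `δ = s (L t + ⟪x,ζ⟫)`, `|t| ≤ 1`, `|δ| ≤ 2 s L`.
`cube_taylor`: `|⟪t',ζ⟫|³ ≤ |t|³ - 3|t|t δ + 3 (1 + 2 s L) (2 s L)² ≤ |t|³ - 3|t|tδ + 36 (sL)²`; `|⟪t',ζ⟫| ≤ |t| + 2 s L`.
`e = 1 - ‖t'‖² = 2sL - s²L² + 2s⟪x,θ⟫ - 2s²L⟪x,θ⟫ - s²‖x‖²`, so `0 ≤ e ≤ 2s(L + ⟪x,θ⟫) + 2s²L²` and `e ≤ 6 s L` (`|⟪x,θ⟫| ≤ L`).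
Sum of the errors: `8·36 (sL)² a + 8 (sL)² a + 4·6sL·2sL a + (6sL)√(6sL) a ≤ 344 (sL)² a + 15 (sL)√(sL) a ≤ 360 (sL)√(sL) a`, `(sL)² ≤ (sL)√(sL)`.
-/

set_option autoImplicit false

open MeasureTheory Set

namespace Pool.Agent.LibSP93

open Pool.Agent.LibSP74 Pool.Agent.LibSP52

private theorem M3_sqrt {q e : ℝ} (hq0 : 0 ≤ q) (he : e ≤ 6 * q) :
    e * √e ≤ 15 * (q * √q) := by
  have h1 : √e ≤ √(6 * q) := Real.sqrt_le_sqrt he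
  have h2 : √(6 * q) = √6 * √q := Real.sqrt_mul (by norm_num) q
  have h3 : √(6 : ℝ) ≤ 5 / 2 := by
    rw [Real.sqrt_le_left (by norm_num)]
    norm_num
  have h4 : 0 ≤ √q := Real.sqrt_nonneg q
  rw [h2] at h1
  calc e * √e ≤ (6 * q) * (√6 * √q) :=
        mul_le_mul he h1 (Real.sqrt_nonneg e) (by positivity)
    _ ≤ (6 * q) * (5 / 2 * √q) := by gcongr
    _ = 15 * (q * √q) := by ring

private theorem M3_le_sqrt {q : ℝ} (hq0 : 0 ≤ q) (hq1 : q ≤ 1) : q ^ 2 ≤ q * √q := by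
  rw [sq]
  apply mul_le_mul_of_nonneg_left _ hq0
  exact Real.le_sqrt_of_sq_le (by nlinarith)

private theorem M3_pt {θ x ζ : E 4} {L s : ℝ} (hθ : ‖θ‖ = 1) (hx : ‖x‖ ≤ L) (hs : 0 < s)
    (hL : 1 ≤ L) (hζ : ‖ζ‖ = 1) :
    |inner ℝ θ ζ| ≤ 1 ∧ |s * (L * inner ℝ θ ζ + inner ℝ x ζ)| ≤ 2 * (s * L) ∧
      inner ℝ ((1 - s * L) • θ - s • x) ζ =
        inner ℝ θ ζ - s * (L * inner ℝ θ ζ + inner ℝ x ζ) := by
  have h1 : |inner ℝ θ ζ| ≤ 1 := by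
    have := abs_real_inner_le_norm θ ζ
    rwa [hθ, hζ, one_mul] at this
  have h2 : |inner ℝ x ζ| ≤ L := by
    have := abs_real_inner_le_norm x ζ
    rw [hζ, mul_one] at this
    exact this.trans hx
  refine ⟨h1, ?_, ?_⟩
  · rw [abs_mul, abs_of_pos hs]
    have h3 : |L * inner ℝ θ ζ + inner ℝ x ζ| ≤ 2 * L := by
      refine (abs_add_le _ _).trans ?_
      rw [abs_mul, abs_of_pos (by linarith : (0 : ℝ) < L)]
      nlinarith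
    calc s * |L * inner ℝ θ ζ + inner ℝ x ζ| ≤ s * (2 * L) :=
          mul_le_mul_of_nonneg_left h3 hs.le
      _ = 2 * (s * L) := by ring
  · rw [inner_sub_left, inner_smul_left, inner_smul_left]
    simp only [conj_trivial]
    ring

private theorem M3_I3 {N : E 4 → ℝ} (h : IsN N) {θ x : E 4} {L s : ℝ} (hθ : ‖θ‖ = 1)
    (hL : 1 ≤ L) (hx : ‖x‖ ≤ L) (hs : 0 < s) (hsL : s * L ≤ 1) :
    ∫ ζ, N ζ * |inner ℝ ((1 - s * L) • θ - s • x) ζ| ^ 3 ∂(sg 4) ≤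
      (∫ ζ, N ζ * |inner ℝ θ ζ| ^ 3 ∂(sg 4)) -
      3 * s * (∫ ζ, N ζ * (|inner ℝ θ ζ| * inner ℝ θ ζ * (L * inner ℝ θ ζ + inner ℝ x ζ)) ∂(sg 4)) +
      36 * (s * L) ^ 2 * ∫ ζ, N ζ ∂(sg 4) := by
  have hc := h.cont
  have i0 : Integrable (fun ζ : E 4 => N ζ * |inner ℝ ((1 - s * L) • θ - s • x) ζ| ^ 3) (sg 4) :=
    s4_int (by fun_prop)
  have i1 : Integrable (fun ζ : E 4 => N ζ * |inner ℝ θ ζ| ^ 3) (sg 4) := s4_int (by fun_prop)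
  have i2 : Integrable (fun ζ : E 4 =>
      N ζ * (|inner ℝ θ ζ| * inner ℝ θ ζ * (L * inner ℝ θ ζ + inner ℝ x ζ))) (sg 4) :=
    s4_int (by fun_prop)
  have i3 : Integrable (fun ζ : E 4 => N ζ) (sg 4) := s4_int hc
  have i12 : Integrable (fun ζ : E 4 => N ζ * |inner ℝ θ ζ| ^ 3 - 3 * s *
      (N ζ * (|inner ℝ θ ζ| * inner ℝ θ ζ * (L * inner ℝ θ ζ + inner ℝ x ζ)))) (sg 4) :=
    i1.sub (i2.const_mul _)
  rw [← integral_const_mul, ← integral_const_mul, ← integral_sub i1 (i2.const_mul _),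
    ← integral_add i12 (i3.const_mul _)]
  refine integral_mono_ae i0 (i12.add (i3.const_mul _)) ?_
  filter_upwards [s4_ae] with ζ hζ
  obtain ⟨h1, h2, h3⟩ := M3_pt hθ hx hs hL hζ
  have hN := h.nonneg ζ
  show N ζ * |inner ℝ ((1 - s * L) • θ - s • x) ζ| ^ 3 ≤
    N ζ * |inner ℝ θ ζ| ^ 3 - 3 * s *
      (N ζ * (|inner ℝ θ ζ| * inner ℝ θ ζ * (L * inner ℝ θ ζ + inner ℝ x ζ))) +
      36 * (s * L) ^ 2 * N ζ
  rw [h3]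
  have h4 := cube_taylor (inner ℝ θ ζ) (s * (L * inner ℝ θ ζ + inner ℝ x ζ))
  set t : ℝ := inner ℝ θ ζ with ht
  set y : ℝ := inner ℝ x ζ with hy
  set δ : ℝ := s * (L * t + y) with hδ
  have hq0 : 0 < s * L := mul_pos hs (by linarith)
  have h5 : δ ^ 2 ≤ (2 * (s * L)) ^ 2 := by
    rw [← sq_abs δ]
    exact pow_le_pow_left₀ (abs_nonneg _) h2 2
  have h6 : 3 * (|t| + |δ|) * δ ^ 2 ≤ 36 * (s * L) ^ 2 := by
    have h7 : |t| + |δ| ≤ 3 := by linarith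
    calc 3 * (|t| + |δ|) * δ ^ 2 ≤ 3 * 3 * (2 * (s * L)) ^ 2 := by gcongr
      _ = 36 * (s * L) ^ 2 := by ring
  have h8 : |t - δ| ^ 3 ≤ |t| ^ 3 - 3 * |t| * t * δ + 36 * (s * L) ^ 2 := by linarith
  calc N ζ * |t - δ| ^ 3 ≤ N ζ * (|t| ^ 3 - 3 * |t| * t * δ + 36 * (s * L) ^ 2) :=
        mul_le_mul_of_nonneg_left h8 hN
    _ = N ζ * |t| ^ 3 - 3 * s * (N ζ * (|t| * t * (L * t + y))) + 36 * (s * L) ^ 2 * N ζ := by
        rw [hδ]; ring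

private theorem M3_I1 {N : E 4 → ℝ} (h : IsN N) {θ x : E 4} {L s : ℝ} (hθ : ‖θ‖ = 1)
    (hL : 1 ≤ L) (hx : ‖x‖ ≤ L) (hs : 0 < s) :
    ∫ ζ, N ζ * |inner ℝ ((1 - s * L) • θ - s • x) ζ| ∂(sg 4) ≤
      (∫ ζ, N ζ * |inner ℝ θ ζ| ∂(sg 4)) + 2 * (s * L) * ∫ ζ, N ζ ∂(sg 4) := by
  have hc := h.cont
  have i0 : Integrable (fun ζ : E 4 => N ζ * |inner ℝ ((1 - s * L) • θ - s • x) ζ|) (sg 4) :=
    s4_int (by fun_prop)
  have i1 : Integrable (fun ζ : E 4 => N ζ * |inner ℝ θ ζ|) (sg 4) := s4_int (by fun_prop)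
  have i3 : Integrable (fun ζ : E 4 => N ζ) (sg 4) := s4_int hc
  rw [← integral_const_mul, ← integral_add i1 (i3.const_mul _)]
  refine integral_mono_ae i0 (i1.add (i3.const_mul _)) ?_
  filter_upwards [s4_ae] with ζ hζ
  obtain ⟨h1, h2, h3⟩ := M3_pt hθ hx hs hL hζ
  have hN := h.nonneg ζ
  show N ζ * |inner ℝ ((1 - s * L) • θ - s • x) ζ| ≤
    N ζ * |inner ℝ θ ζ| + 2 * (s * L) * N ζ
  rw [h3]
  have h4 := abs_sub (inner ℝ θ ζ) (s * (L * inner ℝ θ ζ + inner ℝ x ζ))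
  calc N ζ * |inner ℝ θ ζ - s * (L * inner ℝ θ ζ + inner ℝ x ζ)| ≤
        N ζ * (|inner ℝ θ ζ| + 2 * (s * L)) := mul_le_mul_of_nonneg_left (by linarith) hN
    _ = N ζ * |inner ℝ θ ζ| + 2 * (s * L) * N ζ := by ring

private theorem M3_le {N : E 4 → ℝ} (h : IsN N) {θ : E 4} (hθ : ‖θ‖ = 1) :
    ∫ ζ, N ζ * |inner ℝ θ ζ| ∂(sg 4) ≤ ∫ ζ, N ζ ∂(sg 4) := by
  have hc := h.cont
  refine integral_mono_ae (s4_int (by fun_prop)) (s4_int hc) ?_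
  filter_upwards [s4_ae] with ζ hζ
  have h1 : |inner ℝ θ ζ| ≤ 1 := by
    have := abs_real_inner_le_norm θ ζ
    rwa [hθ, hζ, one_mul] at this
  have hN := h.nonneg ζ
  show N ζ * |inner ℝ θ ζ| ≤ N ζ
  nlinarith

theorem F_step {N : E 4 → ℝ} (h : IsN N) {θ x : E 4} {L s : ℝ} (hθ : ‖θ‖ = 1) (hL : 1 ≤ L)
    (hx : ‖x‖ ≤ L) (hs : 0 < s) (hsL : s * L ≤ 1) :
    Ph4 N ((1 - s * L) • θ - s • x) 1 ≤ 8 * (∫ ζ, N ζ * |inner ℝ θ ζ| ^ 3 ∂(sg 4)) -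
      24 * s * (∫ ζ, N ζ * (|inner ℝ θ ζ| * inner ℝ θ ζ * (L * inner ℝ θ ζ + inner ℝ x ζ)) ∂(sg 4)) +
      8 * s * (L + inner ℝ x θ) * (∫ ζ, N ζ * |inner ℝ θ ζ| ∂(sg 4)) +
      360 * (s * L) * √(s * L) * ∫ ζ, N ζ ∂(sg 4) := by
  have hq0 : 0 < s * L := mul_pos hs (by linarith)
  have hin : |inner ℝ x θ| ≤ L := by
    have := abs_real_inner_le_norm x θ
    rw [hθ, mul_one] at this
    exact this.trans hx
  have hin1 := (abs_le.1 hin).1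
  have hin2 := (abs_le.1 hin).2
  have ht : ‖(1 - s * L) • θ - s • x‖ ≤ 1 := by
    refine (norm_sub_le _ _).trans ?_
    rw [norm_smul, norm_smul, hθ, mul_one, Real.norm_eq_abs, Real.norm_eq_abs,
      abs_of_nonneg (by linarith : (0 : ℝ) ≤ 1 - s * L), abs_of_pos hs]
    have := mul_le_mul_of_nonneg_left hx hs.le
    linarith
  have hsq : ‖(1 - s * L) • θ - s • x‖ ^ 2 =
      (1 - s * L) ^ 2 - 2 * (1 - s * L) * s * inner ℝ x θ + s ^ 2 * ‖x‖ ^ 2 := by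
    rw [norm_sub_sq_real, norm_smul, norm_smul, hθ, inner_smul_left, inner_smul_right,
      real_inner_comm x θ, mul_pow, mul_pow, Real.norm_eq_abs, Real.norm_eq_abs, sq_abs, sq_abs]
    simp only [conj_trivial]
    ring
  have hFu := F_upper h ht
  have h3 := M3_I3 h hθ hL hx hs hsL
  have h1 := M3_I1 h hθ hL hx hs
  have h1a := M3_le h hθ
  have ha : 0 ≤ ∫ ζ, N ζ ∂(sg 4) := integral_nonneg fun ζ => h.nonneg ζ
  have hI1 : 0 ≤ ∫ ζ, N ζ * |inner ℝ θ ζ| ∂(sg 4) :=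
    integral_nonneg fun ζ => mul_nonneg (h.nonneg ζ) (abs_nonneg _)
  have he0 : 0 ≤ 1 - ‖(1 - s * L) • θ - s • x‖ ^ 2 := by
    have := norm_nonneg ((1 - s * L) • θ - s • x)
    nlinarith
  have hkey : s ^ 2 * L * (-inner ℝ x θ) ≤ s ^ 2 * L * L := by
    apply mul_le_mul_of_nonneg_left _ (by positivity)
    linarith
  have he1 : 1 - ‖(1 - s * L) • θ - s • x‖ ^ 2 ≤
      2 * s * (L + inner ℝ x θ) + 2 * (s * L) ^ 2 := by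
    rw [hsq]
    have hx2 : 0 ≤ s ^ 2 * ‖x‖ ^ 2 := by positivity
    nlinarith [sq_nonneg (s * L)]
  have he2 : 1 - ‖(1 - s * L) • θ - s • x‖ ^ 2 ≤ 6 * (s * L) := by
    have h5 : 2 * s * (L + inner ℝ x θ) ≤ 4 * (s * L) := by
      have := mul_le_mul_of_nonneg_left hin2 hs.le
      nlinarith
    nlinarith
  have hs1 := M3_sqrt hq0.le he2
  have hs2 := M3_le_sqrt hq0.le hsL
  generalize 1 - ‖(1 - s * L) • θ - s • x‖ ^ 2 = e at *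
  generalize ∫ ζ, N ζ * |inner ℝ ((1 - s * L) • θ - s • x) ζ| ^ 3 ∂(sg 4) = J3 at *
  generalize ∫ ζ, N ζ * |inner ℝ ((1 - s * L) • θ - s • x) ζ| ∂(sg 4) = J1 at *
  generalize ∫ ζ, N ζ * (|inner ℝ θ ζ| * inner ℝ θ ζ * (L * inner ℝ θ ζ + inner ℝ x ζ)) ∂(sg 4) =
    K at *
  generalize ∫ ζ, N ζ * |inner ℝ θ ζ| ^ 3 ∂(sg 4) = I3 at *
  generalize ∫ ζ, N ζ * |inner ℝ θ ζ| ∂(sg 4) = I1 at *
  generalize ∫ ζ, N ζ ∂(sg 4) = a at *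
  generalize Ph4 N ((1 - s * L) • θ - s • x) 1 = P at *
  have e1 : 4 * e * J1 ≤ 4 * e * (I1 + 2 * (s * L) * a) :=
    mul_le_mul_of_nonneg_left h1 (by linarith)
  have e2 : 4 * e * I1 ≤ 4 * (2 * s * (L + inner ℝ x θ) + 2 * (s * L) ^ 2) * I1 :=
    mul_le_mul_of_nonneg_right (by linarith) hI1
  have e3 : 8 * (s * L) ^ 2 * I1 ≤ 8 * (s * L) ^ 2 * a :=
    mul_le_mul_of_nonneg_left h1a (by positivity)
  have e4 : 8 * (s * L) * a * e ≤ 8 * (s * L) * a * (6 * (s * L)) :=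
    mul_le_mul_of_nonneg_left he2 (by positivity)
  have e5 : e * √e * a ≤ 15 * (s * L * √(s * L)) * a := mul_le_mul_of_nonneg_right hs1 ha
  have e6 : 344 * (s * L) ^ 2 * a ≤ 344 * (s * L * √(s * L)) * a :=
    mul_le_mul_of_nonneg_right (by linarith) ha
  have e7 : 0 ≤ s * L * √(s * L) * a := by positivity
  nlinarith

end Pool.Agent.LibSP93
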