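import Pool.Agent.LibSP93.Q5
import Pool.Agent.LibSP93.O6

/-!
[SP93 S2] `inner_vv`: `integral_inner`-type lemma (`⟪w, ∫ X⟫ = ∫ ⟪w, X⟫`), no condition on `θ`.  `vv_sq`, PAPER PROOF:
`‖vv F θ‖² = ∫_ζ ∫_ω F ζ F ω ⟪θ,ζ⟫³ ⟪θ,ω⟫³ ⟪ζ,ω⟫` (`inner_vv` twice); integrate over `θ`, exchange (`s4_swap`, joint continuity; do it in two
steps), `z33` for a.e. `ζ, ω`: `∫_ζ ∫_ω F ζ F ω u (6 u³ + 9 u)/192`, `u = ⟪ζ, ω⟫`; `∫_ω F ω u² = 0` (`h.two`), `∫_ω F ω u⁴ = hh F ζ`; so it is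
`(1/32) ∫ F hh F = (80/32) ∫ (hh F)²` (`int_F_hh`).
-/

set_option autoImplicit false

open MeasureTheory Set

namespace Pool.Agent.LibSP93

open Pool.Agent.LibSP74 Pool.Agent.LibSP52

theorem inner_vv {F : E 4 → ℝ} (hF : Continuous F) (w θ : E 4) :
    inner ℝ w (vv F θ) = ∫ ζ, F ζ * (inner ℝ θ ζ ^ 3 * inner ℝ w ζ) ∂(sg 4) := by
  have hc : Continuous fun ζ : E 4 => (F ζ * inner ℝ θ ζ ^ 3) • ζ := by fun_prop
  have hi := s4_int hc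
  unfold vv
  rw [← integral_inner hi w]
  refine integral_congr_ae (Filter.Eventually.of_forall fun ζ => ?_)
  simp only [real_inner_smul_right]
  ring

theorem inner_vv_self {F : E 4 → ℝ} (hF : Continuous F) (θ : E 4) :
    inner ℝ θ (vv F θ) = hh F θ := by
  rw [inner_vv hF θ θ]
  unfold hh
  refine integral_congr_ae (Filter.Eventually.of_forall fun ζ => ?_)
  simp only
  ring

private theorem S2_sq {F : E 4 → ℝ} (hF : Continuous F) (θ : E 4) :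
    ‖vv F θ‖ ^ 2 = ∫ ζ, ∫ ω, F ζ * inner ℝ θ ζ ^ 3 * (F ω * (inner ℝ θ ω ^ 3 * inner ℝ ζ ω))
      ∂(sg 4) ∂(sg 4) := by
  rw [← real_inner_self_eq_norm_sq, inner_vv hF (vv F θ) θ]
  refine integral_congr_ae (Filter.Eventually.of_forall fun ζ => ?_)
  simp only
  rw [real_inner_comm ζ (vv F θ), inner_vv hF ζ θ, integral_const_mul]
  ring

private theorem S2_inner {F : E 4 → ℝ} (h : Ort F) {ζ : E 4} (hζ : ‖ζ‖ = 1) :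
    ∫ ω, ∫ θ, F ζ * inner ℝ θ ζ ^ 3 * (F ω * (inner ℝ θ ω ^ 3 * inner ℝ ζ ω))
      ∂(sg 4) ∂(sg 4) = 1 / 32 * (F ζ * hh F ζ) := by
  have hF := h.cont
  have e1 : ∀ᵐ ω ∂(sg 4), ∫ θ, F ζ * inner ℝ θ ζ ^ 3 * (F ω * (inner ℝ θ ω ^ 3 * inner ℝ ζ ω))
      ∂(sg 4) = F ζ / 32 * (F ω * inner ℝ ζ ω ^ 4) + F ζ * 3 / 64 * (F ω * inner ℝ ζ ω ^ 2) := by
    filter_upwards [s4_ae] with ω hω
    have e2 : ∫ θ, F ζ * inner ℝ θ ζ ^ 3 * (F ω * (inner ℝ θ ω ^ 3 * inner ℝ ζ ω)) ∂(sg 4)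
        = ∫ θ, (F ζ * F ω * inner ℝ ζ ω) * (inner ℝ ζ θ ^ 3 * inner ℝ ω θ ^ 3) ∂(sg 4) := by
      refine integral_congr_ae (Filter.Eventually.of_forall fun θ => ?_)
      simp only
      rw [real_inner_comm ζ θ, real_inner_comm ω θ]
      ring
    rw [e2, integral_const_mul, z33 hζ hω]
    ring
  rw [integral_congr_ae e1]
  have i1 : Integrable (fun ω : E 4 => F ζ / 32 * (F ω * inner ℝ ζ ω ^ 4)) (sg 4) :=
    s4_int (by fun_prop)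
  have i2 : Integrable (fun ω : E 4 => F ζ * 3 / 64 * (F ω * inner ℝ ζ ω ^ 2)) (sg 4) :=
    s4_int (by fun_prop)
  rw [integral_add i1 i2, integral_const_mul, integral_const_mul, h.two ζ]
  unfold hh
  ring

theorem vv_sq {F : E 4 → ℝ} (h : Ort F) :
    ∫ θ, ‖vv F θ‖ ^ 2 ∂(sg 4) = 5 / 2 * ∫ θ, hh F θ ^ 2 ∂(sg 4) := by
  have hF := h.cont
  have e1 : ∫ θ, ‖vv F θ‖ ^ 2 ∂(sg 4) = ∫ θ, ∫ ζ, ∫ ω,
      F ζ * inner ℝ θ ζ ^ 3 * (F ω * (inner ℝ θ ω ^ 3 * inner ℝ ζ ω))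
      ∂(sg 4) ∂(sg 4) ∂(sg 4) :=
    integral_congr_ae (Filter.Eventually.of_forall fun θ => S2_sq hF θ)
  rw [e1]
  have hc : Continuous (Function.uncurry fun θ ζ : E 4 => ∫ ω,
      F ζ * inner ℝ θ ζ ^ 3 * (F ω * (inner ℝ θ ω ^ 3 * inner ℝ ζ ω)) ∂(sg 4)) := by
    have := s4_cont (X := E 4 × E 4) (f := fun p ω =>
      F p.2 * inner ℝ p.1 p.2 ^ 3 * (F ω * (inner ℝ p.1 ω ^ 3 * inner ℝ p.2 ω)))
      (by unfold Function.uncurry; fun_prop)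
    exact this
  rw [s4_swap hc]
  have e2 : ∀ᵐ ζ ∂(sg 4), ∫ θ, ∫ ω,
      F ζ * inner ℝ θ ζ ^ 3 * (F ω * (inner ℝ θ ω ^ 3 * inner ℝ ζ ω)) ∂(sg 4) ∂(sg 4)
      = 1 / 32 * (F ζ * hh F ζ) := by
    filter_upwards [s4_ae] with ζ hζ
    rw [← S2_inner h hζ]
    exact s4_swap (f := fun θ ω : E 4 =>
      F ζ * inner ℝ θ ζ ^ 3 * (F ω * (inner ℝ θ ω ^ 3 * inner ℝ ζ ω)))
      (by unfold Function.uncurry; fun_prop)
  rw [integral_congr_ae e2, integral_const_mul, int_F_hh h]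
  ring

end Pool.Agent.LibSP93
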