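import Pool.Agent.LibSP93.Q6
import Pool.Agent.LibSP93.S2

/-!
[SP93 S4a] `inner_BB`: `⟪w, ∫ X⟫ = ∫ ⟪w, X⟫`.  `cross_a`, PAPER PROOF.  For `‖θ‖ = 1`: `⟪θ, BB G θ⟫ = ∫_ζ G ζ (6 |t|³ - 2 |t|)`, `t = ⟪θ,ζ⟫`.
So the integral is `∫_ζ G ζ K ζ`, `K ζ = ∫_θ hh F θ (6 |t|³ - 2 |t|)` (`s4_swap`).  `K ζ = ∫_ω F ω ∫_θ ⟪θ,ω⟫⁴ (6 |⟪θ,ζ⟫|³ - 2 |⟪θ,ζ⟫|)`
`= ∫_ω F ω (6 z34 - 2 z14)(ζ, ω) = c hh F ζ` (the lower terms vanish: `h.two`, `h.zero`), for a.e. `ζ`.  Finally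
`∫_ζ G ζ hh F ζ = ∫_ω F ω ∫_ζ G ζ ⟪ω, ζ⟫⁴ = 0` (`hG.four`): put this in `int_G_hh`.
-/

set_option autoImplicit false

open MeasureTheory Set

namespace Pool.Agent.LibSP93

open Pool.Agent.LibSP74 Pool.Agent.LibSP52

theorem inner_BB {G : E 4 → ℝ} (hG : Continuous G) (w θ : E 4) :
    inner ℝ w (BB G θ) = ∫ ζ, G ζ * inner ℝ w (kk θ ζ) ∂(sg 4) := by
  have hk : Continuous fun ζ : E 4 => G ζ • kk θ ζ := by
    unfold kk
    fun_prop
  unfold BB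
  rw [← integral_inner (s4_int hk) w]
  refine integral_congr_ae (Filter.Eventually.of_forall fun ζ => ?_)
  exact inner_smul_right _ _ _

theorem int_G_hh {F G : E 4 → ℝ} (hF : Continuous F) (hG : Ort4 G) :
    ∫ ζ, G ζ * hh F ζ ∂(sg 4) = 0 := by
  have hGc : Continuous G := hG.cont
  have h1 : ∫ ζ, G ζ * hh F ζ ∂(sg 4) =
      ∫ ζ, ∫ ω, G ζ * (F ω * inner ℝ ζ ω ^ 4) ∂(sg 4) ∂(sg 4) := by
    refine integral_congr_ae (Filter.Eventually.of_forall fun ζ => ?_)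
    change G ζ * hh F ζ = ∫ ω, G ζ * (F ω * inner ℝ ζ ω ^ 4) ∂(sg 4)
    rw [integral_const_mul]
    rfl
  have hc : Continuous (Function.uncurry fun ζ ω : E 4 => G ζ * (F ω * inner ℝ ζ ω ^ 4)) := by
    unfold Function.uncurry
    fun_prop
  rw [h1, s4_swap hc]
  have h2 : ∀ ω : E 4, ∫ ζ, G ζ * (F ω * inner ℝ ζ ω ^ 4) ∂(sg 4) = 0 := by
    intro ω
    have h3 : ∫ ζ, G ζ * (F ω * inner ℝ ζ ω ^ 4) ∂(sg 4) =
        F ω * ∫ ζ, G ζ * inner ℝ ω ζ ^ 4 ∂(sg 4) := by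
      rw [← integral_const_mul]
      refine integral_congr_ae (Filter.Eventually.of_forall fun ζ => ?_)
      change G ζ * (F ω * inner ℝ ζ ω ^ 4) = F ω * (G ζ * inner ℝ ω ζ ^ 4)
      rw [real_inner_comm ζ ω]
      ring
    rw [h3, hG.four ω, mul_zero]
  simp only [h2, integral_zero]

/-- the scalar kernel -/
private noncomputable def ka (t : ℝ) : ℝ := 6 * |t| ^ 3 - 2 * |t|

private theorem ka_cont : Continuous ka := by
  unfold ka
  fun_prop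

private theorem ka_int {F : E 4 → ℝ} (h : Ort F) {ζ : E 4} (hζ : ‖ζ‖ = 1) :
    ∫ θ, hh F θ * ka (inner ℝ θ ζ) ∂(sg 4) = 216 / (945 * Real.pi) * hh F ζ := by
  have hFc : Continuous F := h.cont
  have hkc : Continuous ka := ka_cont
  have h1 : ∫ θ, hh F θ * ka (inner ℝ θ ζ) ∂(sg 4) =
      ∫ θ, ∫ ω, F ω * inner ℝ θ ω ^ 4 * ka (inner ℝ θ ζ) ∂(sg 4) ∂(sg 4) := by
    refine integral_congr_ae (Filter.Eventually.of_forall fun θ => ?_)
    change hh F θ * ka (inner ℝ θ ζ) = ∫ ω, F ω * inner ℝ θ ω ^ 4 * ka (inner ℝ θ ζ) ∂(sg 4)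
    rw [integral_mul_const]
    rfl
  have hc : Continuous (Function.uncurry fun θ ω : E 4 =>
      F ω * inner ℝ θ ω ^ 4 * ka (inner ℝ θ ζ)) := by
    unfold Function.uncurry
    fun_prop
  rw [h1, s4_swap hc]
  have h2 : ∀ᵐ ω ∂(sg 4), ∫ θ, F ω * inner ℝ θ ω ^ 4 * ka (inner ℝ θ ζ) ∂(sg 4) =
      216 / (945 * Real.pi) * (F ω * inner ℝ ζ ω ^ 4) +
        (432 / (945 * Real.pi) * (F ω * inner ℝ ζ ω ^ 2) + (-72 / (945 * Real.pi)) * F ω) := by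
    filter_upwards [s4_ae] with ω hω
    have h3 : ∫ θ, F ω * inner ℝ θ ω ^ 4 * ka (inner ℝ θ ζ) ∂(sg 4) =
        F ω * (6 * (∫ θ, |inner ℝ ζ θ| ^ 3 * inner ℝ ω θ ^ 4 ∂(sg 4)) -
          2 * ∫ θ, |inner ℝ ζ θ| * inner ℝ ω θ ^ 4 ∂(sg 4)) := by
      have c1 : Continuous fun θ : E 4 => |inner ℝ ζ θ| ^ 3 * inner ℝ ω θ ^ 4 := by fun_prop
      have c2 : Continuous fun θ : E 4 => |inner ℝ ζ θ| * inner ℝ ω θ ^ 4 := by fun_prop
      rw [← integral_const_mul, ← integral_const_mul,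
        ← integral_sub ((s4_int c1).const_mul 6) ((s4_int c2).const_mul 2), ← integral_const_mul]
      refine integral_congr_ae (Filter.Eventually.of_forall fun θ => ?_)
      change F ω * inner ℝ θ ω ^ 4 * (6 * |inner ℝ θ ζ| ^ 3 - 2 * |inner ℝ θ ζ|) =
        F ω * (6 * (|inner ℝ ζ θ| ^ 3 * inner ℝ ω θ ^ 4) - 2 * (|inner ℝ ζ θ| * inner ℝ ω θ ^ 4))
      rw [real_inner_comm ω θ, real_inner_comm ζ θ]
      ring
    rw [h3, z34 hζ hω, z14 hζ hω]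
    have hpi : Real.pi ≠ 0 := Real.pi_ne_zero
    field_simp
    ring
  rw [integral_congr_ae h2]
  have c1 : Continuous fun ω : E 4 => F ω * inner ℝ ζ ω ^ 4 := by fun_prop
  have c2 : Continuous fun ω : E 4 => F ω * inner ℝ ζ ω ^ 2 := by fun_prop
  have e1 : Integrable (fun ω : E 4 => 216 / (945 * Real.pi) * (F ω * inner ℝ ζ ω ^ 4)) (sg 4) :=
    (s4_int c1).const_mul _
  have e2 : Integrable (fun ω : E 4 => 432 / (945 * Real.pi) * (F ω * inner ℝ ζ ω ^ 2)) (sg 4) :=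
    (s4_int c2).const_mul _
  have e3 : Integrable (fun ω : E 4 => (-72 / (945 * Real.pi)) * F ω) (sg 4) :=
    (s4_int hFc).const_mul _
  have e23 : Integrable (fun ω : E 4 => 432 / (945 * Real.pi) * (F ω * inner ℝ ζ ω ^ 2) +
      (-72 / (945 * Real.pi)) * F ω) (sg 4) := e2.add e3
  rw [integral_add e1 e23, integral_add e2 e3, integral_const_mul, integral_const_mul, integral_const_mul,
    h.two ζ, h.zero]
  unfold hh
  ring

theorem cross_a {F G : E 4 → ℝ} (h : Ort F) (hG : Ort4 G) :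
    ∫ θ, hh F θ * inner ℝ θ (BB G θ) ∂(sg 4) = 0 := by
  have hFc : Continuous F := h.cont
  have hGc : Continuous G := hG.cont
  have hhc : Continuous (hh F) := continuous_hh hFc
  have hkc : Continuous ka := ka_cont
  have h1 : ∫ θ, hh F θ * inner ℝ θ (BB G θ) ∂(sg 4) =
      ∫ θ, ∫ ζ, hh F θ * (G ζ * ka (inner ℝ θ ζ)) ∂(sg 4) ∂(sg 4) := by
    refine integral_congr_ae ?_
    filter_upwards [s4_ae] with θ hθ
    rw [inner_BB hGc θ θ, ← integral_const_mul]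
    refine integral_congr_ae (Filter.Eventually.of_forall fun ζ => ?_)
    change hh F θ * (G ζ * inner ℝ θ (kk θ ζ)) = hh F θ * (G ζ * ka (inner ℝ θ ζ))
    have h2 : inner ℝ θ (kk θ ζ) = ka (inner ℝ θ ζ) := by
      unfold kk ka
      rw [inner_sub_right, inner_smul_right, inner_smul_right, real_inner_self_eq_norm_sq, hθ]
      have h4 : |(inner ℝ θ ζ : ℝ)| ^ 3 = |(inner ℝ θ ζ : ℝ)| * (inner ℝ θ ζ : ℝ) ^ 2 := by
        rw [pow_succ', sq_abs]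
      rw [h4]
      ring
    rw [h2]
  have hc : Continuous (Function.uncurry fun θ ζ : E 4 => hh F θ * (G ζ * ka (inner ℝ θ ζ))) := by
    unfold Function.uncurry
    fun_prop
  rw [h1, s4_swap hc]
  have h3 : ∀ᵐ ζ ∂(sg 4), ∫ θ, hh F θ * (G ζ * ka (inner ℝ θ ζ)) ∂(sg 4) =
      216 / (945 * Real.pi) * (G ζ * hh F ζ) := by
    filter_upwards [s4_ae] with ζ hζ
    have h4 : ∫ θ, hh F θ * (G ζ * ka (inner ℝ θ ζ)) ∂(sg 4) =
        G ζ * ∫ θ, hh F θ * ka (inner ℝ θ ζ) ∂(sg 4) := by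
      rw [← integral_const_mul]
      refine integral_congr_ae (Filter.Eventually.of_forall fun θ => ?_)
      change hh F θ * (G ζ * ka (inner ℝ θ ζ)) = G ζ * (hh F θ * ka (inner ℝ θ ζ))
      ring
    rw [h4, ka_int h hζ]
    ring
  rw [integral_congr_ae h3, integral_const_mul, int_G_hh hFc hG, mul_zero]

end Pool.Agent.LibSP93
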