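import Pool.Agent.LibSP93.M1
import Pool.Agent.LibSP93.M3
import Pool.Agent.LibSP93.S4a
import Pool.Agent.LibSP93.Q6
import Pool.Agent.LibSP93.T2

/-!
[SP93 M4] PAPER PROOF.  Integrate `c_tri` over `π × π` (`x = q.1.1`, `θ = q.1.2`, `y = q.2.1`, `φ = q.2.2`).  `a = ∫ N`, `g = 8/(15π)`, `μ = 4/(3π)`.
`∫ N (θ - φ) = ∫ Ph4 N θ 1 ∂π ≥ 8 ∫_θ ∫_ζ N |t|³ = 8 g a` (`c_diff`, `F_lower`, `c_snd`, `s4_swap`, `z3`).  The two other terms are
`∫ Ph4 N ((1-sL)θ - s x) 1 ∂π` (`c_diff`, `c_diff'`), bounded by `F_step` (a.e., `c_ae`, `hLN`); their integrals: `∫_p ∫_ζ N |t|³ = g a`,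
`∫_p ∫_ζ N |t| t (L t) = L g a`, `∫_p ∫_ζ N |t| = μ a`, `X1 = ∫_p ∫_ζ N |t| t ⟪x,ζ⟫`, `X2 = ∫_p ⟪x,θ⟫ ∫_ζ N |t|`.  Result:
`s (-8 L g a + 48 L g a + 48 X1 - 16 L μ a - 16 X2) - 720 (sL)√(sL) a ≤ s sprawl`; `40 g = 16 μ`; `8 ⟪x, BB N θ⟫ = ∫_ζ N (48 |t| t ⟪x,ζ⟫ - 16 |t| ⟪x,θ⟫)`
(`inner_BB`, `kk`).
-/

set_option autoImplicit false

open MeasureTheory Set

namespace Pool.Agent.LibSP93

open Pool.Agent.LibSP74 Pool.Agent.LibSP52

/-- the third absolute moment -/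
private noncomputable def A3 (N : E 4 → ℝ) (θ : E 4) : ℝ := ∫ ζ, N ζ * |inner ℝ θ ζ| ^ 3 ∂(sg 4)

/-- the first absolute moment -/
private noncomputable def A1 (N : E 4 → ℝ) (θ : E 4) : ℝ := ∫ ζ, N ζ * |inner ℝ θ ζ| ∂(sg 4)

private theorem cont_A3 {N : E 4 → ℝ} (h : IsN N) : Continuous (A3 N) := by
  have hN := h.cont
  exact s4_cont (f := fun θ ζ => N ζ * |inner ℝ θ ζ| ^ 3) (by fun_prop)

private theorem cont_A1 {N : E 4 → ℝ} (h : IsN N) : Continuous (A1 N) := by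
  have hN := h.cont
  exact s4_cont (f := fun θ ζ => N ζ * |inner ℝ θ ζ|) (by fun_prop)

private theorem cont_BB {N : E 4 → ℝ} (h : IsN N) : Continuous (BB N) := by
  have hN := h.cont
  refine s4_cont (f := fun θ ζ => N ζ • kk θ ζ) ?_
  unfold kk
  fun_prop

private theorem int_A3 {N : E 4 → ℝ} (h : IsN N) :
    ∫ θ, A3 N θ ∂(sg 4) = 8 / (15 * Real.pi) * ∫ ζ, N ζ ∂(sg 4) := by
  have hN := h.cont
  unfold A3
  rw [s4_swap (f := fun θ ζ => N ζ * |inner ℝ θ ζ| ^ 3) (by fun_prop), ← integral_const_mul]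
  refine integral_congr_ae ?_
  filter_upwards [s4_ae] with ζ hζ
  rw [integral_const_mul]
  have : (∫ θ : E 4, |inner ℝ θ ζ| ^ 3 ∂(sg 4)) = 8 / (15 * Real.pi) := by
    rw [← z3 hζ]
    refine integral_congr_ae (Filter.Eventually.of_forall fun θ => ?_)
    simp only [real_inner_comm]
  rw [this]
  ring

private theorem int_A1 {N : E 4 → ℝ} (h : IsN N) :
    ∫ θ, A1 N θ ∂(sg 4) = 4 / (3 * Real.pi) * ∫ ζ, N ζ ∂(sg 4) := by
  have hN := h.cont
  unfold A1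
  rw [s4_swap (f := fun θ ζ => N ζ * |inner ℝ θ ζ|) (by fun_prop), ← integral_const_mul]
  refine integral_congr_ae ?_
  filter_upwards [s4_ae] with ζ hζ
  rw [integral_const_mul]
  have : (∫ θ : E 4, |inner ℝ θ ζ| ∂(sg 4)) = 4 / (3 * Real.pi) := by
    rw [← z1 hζ]
    refine integral_congr_ae (Filter.Eventually.of_forall fun θ => ?_)
    simp only [real_inner_comm]
  rw [this]
  ring

private theorem step_pt {N : E 4 → ℝ} (h : IsN N) {θ x : E 4} {L s : ℝ} (hθ : ‖θ‖ = 1) (hL : 1 ≤ L)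
    (hx : ‖x‖ ≤ L) (hs : 0 < s) (hsL : s * L ≤ 1) :
    Ph4 N ((1 - s * L) • θ - s • x) 1 ≤ (8 - 24 * s * L) * A3 N θ - 4 * s * inner ℝ x (BB N θ) +
      8 * s * L * A1 N θ + 360 * (s * L) * √(s * L) * ∫ ζ, N ζ ∂(sg 4) := by
  have hN := h.cont
  have h0 := F_step h hθ hL hx hs hsL
  have e1 : (∫ ζ, N ζ * (|inner ℝ θ ζ| * inner ℝ θ ζ * (L * inner ℝ θ ζ + inner ℝ x ζ)) ∂(sg 4)) =
      L * A3 N θ + ∫ ζ, N ζ * (|inner ℝ θ ζ| * inner ℝ θ ζ * inner ℝ x ζ) ∂(sg 4) := by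
    unfold A3
    rw [← integral_const_mul, ← integral_add (s4_int (by fun_prop)) (s4_int (by fun_prop))]
    refine integral_congr_ae (Filter.Eventually.of_forall fun ζ => ?_)
    have h3 : |inner ℝ θ ζ| ^ 3 = |inner ℝ θ ζ| * (inner ℝ θ ζ * inner ℝ θ ζ) := by
      rw [← abs_mul_abs_self (inner ℝ θ ζ)]
      ring
    simp only [h3]
    ring
  have e2 : inner ℝ x (BB N θ) =
      6 * (∫ ζ, N ζ * (|inner ℝ θ ζ| * inner ℝ θ ζ * inner ℝ x ζ) ∂(sg 4)) -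
        2 * inner ℝ x θ * A1 N θ := by
    unfold A1
    rw [inner_BB hN, ← integral_const_mul, ← integral_const_mul,
      ← integral_sub (s4_int (by fun_prop)) (s4_int (by fun_prop))]
    refine integral_congr_ae (Filter.Eventually.of_forall fun ζ => ?_)
    simp only [kk, inner_sub_right, inner_smul_right]
    ring
  rw [e1] at h0
  have e3 : (∫ ζ, N ζ * |inner ℝ θ ζ| ^ 3 ∂(sg 4)) = A3 N θ := rfl
  have e4 : (∫ ζ, N ζ * |inner ℝ θ ζ| ∂(sg 4)) = A1 N θ := rfl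
  rw [e3, e4] at h0
  refine h0.trans (le_of_eq ?_)
  rw [e2]
  ring

theorem step4 {N : E 4 → ℝ} (h : IsN N) {π : Measure (E 4 × E 4)} (hπ : IsCpl N π) {L s : ℝ}
    (hL : 1 ≤ L) (hLN : ∀ x, N x ≤ 1 → ‖x‖ ≤ L) (hs : 0 < s) (hsL : s * L ≤ 1) :
    s * (8 * ∫ p, inner ℝ p.1 (BB N p.2) ∂π) -
      720 * (s * L) * √(s * L) * (∫ ζ, N ζ ∂(sg 4)) ≤ s * sprawl N := by
  have hprob := hπ.prob
  have hN := h.cont
  have hB := cont_BB h
  have hA3 := cont_A3 h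
  have hA1 := cont_A1 h
  set a := ∫ ζ, N ζ ∂(sg 4) with ha
  have hPh : Continuous fun p : E 4 × E 4 => Ph4 N ((1 - s * L) • p.2 - s • p.1) 1 :=
    (continuous_Ph4 h).comp (f := fun p : E 4 × E 4 => ((1 - s * L) • p.2 - s • p.1, (1 : ℝ)))
      (by fun_prop)
  have hPh1 : Continuous fun p : E 4 × E 4 => Ph4 N p.2 1 :=
    (continuous_Ph4 h).comp (f := fun p : E 4 × E 4 => (p.2, (1 : ℝ))) (by fun_prop)
  have J3 : ∫ p, A3 N p.2 ∂π = 8 / (15 * Real.pi) * a := by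
    rw [c_snd hπ hA3, int_A3 h]
  have J1 : ∫ p, A1 N p.2 ∂π = 4 / (3 * Real.pi) * a := by
    rw [c_snd hπ hA1, int_A1 h]
  -- the lower bound
  have K1 : 8 * (8 / (15 * Real.pi) * a) ≤ ∫ q, N (q.1.2 - q.2.2) ∂(π.prod π) := by
    rw [c_diff h hπ (g := fun p => p.2) (by fun_prop), ← J3, ← integral_const_mul]
    refine integral_mono_ae (c_int h hπ (by fun_prop)) (c_int h hπ hPh1) ?_
    filter_upwards [c_ae h hπ] with p hp
    exact F_lower h hp.2.le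
  -- the upper bound
  have K2 : ∫ p, Ph4 N ((1 - s * L) • p.2 - s • p.1) 1 ∂π ≤
      (8 - 24 * s * L) * (8 / (15 * Real.pi) * a) - 4 * s * (∫ p, inner ℝ p.1 (BB N p.2) ∂π) +
      8 * s * L * (4 / (3 * Real.pi) * a) + 360 * (s * L) * √(s * L) * a := by
    have e : ∫ p, ((8 - 24 * s * L) * A3 N p.2 - 4 * s * inner ℝ p.1 (BB N p.2) +
        8 * s * L * A1 N p.2 + 360 * (s * L) * √(s * L) * a) ∂π =
        (8 - 24 * s * L) * (8 / (15 * Real.pi) * a) - 4 * s * (∫ p, inner ℝ p.1 (BB N p.2) ∂π) +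
      8 * s * L * (4 / (3 * Real.pi) * a) + 360 * (s * L) * √(s * L) * a := by
      rw [integral_add (c_int h hπ (by fun_prop)) (c_int h hπ (by fun_prop)),
        integral_add (c_int h hπ (by fun_prop)) (c_int h hπ (by fun_prop)),
        integral_sub (c_int h hπ (by fun_prop)) (c_int h hπ (by fun_prop)),
        integral_const_mul, integral_const_mul, integral_const_mul, J3, J1, integral_const]
      simp only [probReal_univ, one_smul]
    rw [← e]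
    refine integral_mono_ae (c_int h hπ hPh) (c_int h hπ (by fun_prop)) ?_
    filter_upwards [c_ae h hπ] with p hp
    exact step_pt h hp.2 hL (hLN p.1 hp.1.le) hs hsL
  have I2 := c_diff h hπ (g := fun p => (1 - s * L) • p.2 - s • p.1) (by fun_prop)
  have I3 := c_diff' h hπ (g := fun p => (1 - s * L) • p.2 - s • p.1) (by fun_prop)
  have key : ∫ q, ((2 - s * L) * N (q.1.2 - q.2.2) - N ((1 - s * L) • q.1.2 - s • q.1.1 - q.2.2) -
      N (q.1.2 - ((1 - s * L) • q.2.2 - s • q.2.1))) ∂(π.prod π) ≤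
      ∫ q, s * N (q.1.1 - q.2.1) ∂(π.prod π) := by
    refine integral_mono (c_int2 h hπ (by fun_prop)) (c_int2 h hπ (by fun_prop)) fun q => ?_
    exact c_tri h hs.le (by linarith) q.1.1 q.2.1 q.1.2 q.2.2
  rw [integral_const_mul, c_sprawl h hπ, integral_sub (c_int2 h hπ (by fun_prop)) (c_int2 h hπ (by fun_prop)),
    integral_sub (c_int2 h hπ (by fun_prop)) (c_int2 h hπ (by fun_prop)), integral_const_mul] at key
  rw [I2, I3] at key
  have K3 : (2 - s * L) * (8 * (8 / (15 * Real.pi) * a)) ≤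
      (2 - s * L) * ∫ q, N (q.1.2 - q.2.2) ∂(π.prod π) :=
    mul_le_mul_of_nonneg_left K1 (by linarith)
  have hg : (4 : ℝ) / (3 * Real.pi) * a = 5 / 2 * (8 / (15 * Real.pi) * a) := by
    have := Real.pi_pos
    field_simp
    ring
  rw [hg] at K2
  generalize 8 / (15 * Real.pi) * a = G at *
  linarith

end Pool.Agent.LibSP93
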