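import Pool.Agent.LibSP93.M4

/-!
[SP93 M5] `step4` for `s → 0`: divide by `s`, `720 L √(sL) a → 0` (as at the end of LibSP52/M.lean: `L` from the compactness of `{N ≤ 1}`, `L ≥ 1`;
by contradiction choose `s` small, or `le_of_tendsto`).
-/

set_option autoImplicit false

open MeasureTheory Set

namespace Pool.Agent.LibSP93

open Pool.Agent.LibSP74 Pool.Agent.LibSP52

theorem main_ineq4 {N : E 4 → ℝ} (h : IsN N) {π : Measure (E 4 × E 4)} (hπ : IsCpl N π) :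
    8 * ∫ p, inner ℝ p.1 (BB N p.2) ∂π ≤ sprawl N := by
  obtain ⟨L₀, hL₀⟩ : ∃ L, ∀ x ∈ {x : E 4 | N x ≤ 1}, ‖x‖ ≤ L := by
    obtain ⟨C, hC⟩ := (h.isCompact_ball 1).exists_bound_of_continuousOn continuousOn_id
    exact ⟨C, hC⟩
  obtain ⟨L, hL1, hLN⟩ : ∃ L : ℝ, 1 ≤ L ∧ ∀ x, N x ≤ 1 → ‖x‖ ≤ L :=
    ⟨max L₀ 1, le_max_right _ _, fun x hx => (hL₀ x hx).trans (le_max_left _ _)⟩
  have hL0 : 0 < L := by linarith
  have hstep : ∀ t : ℝ, 0 < t → t ≤ 1 →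
      8 * ∫ p, inner ℝ p.1 (BB N p.2) ∂π ≤
        sprawl N + t * (720 * L * |∫ ζ, N ζ ∂(sg 4)|) := by
    intro t ht ht1
    have e : t ^ 2 / L * L = t ^ 2 := by field_simp
    have hs : 0 < t ^ 2 / L := by positivity
    have h1 := step4 h hπ hL1 hLN hs (by rw [e]; nlinarith)
    rw [e, Real.sqrt_sq ht.le] at h1
    have h2 : t ^ 2 / L * (8 * ∫ p, inner ℝ p.1 (BB N p.2) ∂π) ≤
        t ^ 2 / L * (sprawl N + t * (720 * L * |∫ ζ, N ζ ∂(sg 4)|)) := by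
      have h3 : 720 * t ^ 2 * t * (∫ ζ, N ζ ∂(sg 4)) ≤
          720 * t ^ 2 * t * |∫ ζ, N ζ ∂(sg 4)| :=
        mul_le_mul_of_nonneg_left (le_abs_self _) (by positivity)
      have h4 : t ^ 2 / L * (sprawl N + t * (720 * L * |∫ ζ, N ζ ∂(sg 4)|)) =
          t ^ 2 / L * sprawl N + 720 * t ^ 2 * t * |∫ ζ, N ζ ∂(sg 4)| := by
        field_simp
      rw [h4]
      linarith
    exact le_of_mul_le_mul_left h2 hs
  have hC1 : 0 < 720 * L * |∫ ζ, N ζ ∂(sg 4)| + 1 := by positivity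
  refine le_of_forall_pos_le_add fun ε hε => ?_
  have h0 : 0 < min 1 (ε / (720 * L * |∫ ζ, N ζ ∂(sg 4)| + 1)) :=
    lt_min one_pos (div_pos hε hC1)
  have h1 := hstep _ h0 (min_le_left _ _)
  refine h1.trans ?_
  have h2 : min 1 (ε / (720 * L * |∫ ζ, N ζ ∂(sg 4)| + 1)) *
      (720 * L * |∫ ζ, N ζ ∂(sg 4)|) ≤ ε := by
    calc min 1 (ε / (720 * L * |∫ ζ, N ζ ∂(sg 4)| + 1)) * (720 * L * |∫ ζ, N ζ ∂(sg 4)|)
        ≤ min 1 (ε / (720 * L * |∫ ζ, N ζ ∂(sg 4)| + 1)) *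
          (720 * L * |∫ ζ, N ζ ∂(sg 4)| + 1) :=
          mul_le_mul_of_nonneg_left (by linarith) h0.le
      _ ≤ ε / (720 * L * |∫ ζ, N ζ ∂(sg 4)| + 1) * (720 * L * |∫ ζ, N ζ ∂(sg 4)| + 1) :=
          mul_le_mul_of_nonneg_right (min_le_right _ _) hC1.le
      _ = ε := div_mul_cancel₀ _ hC1.ne'
  linarith

end Pool.Agent.LibSP93
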