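import Pool.Agent.LibSP93.F4
import Pool.Agent.LibSP93.K7

set_option autoImplicit false

namespace Pool.Agent.LibSP93

open Pool.Agent.LibSP74 Pool.Agent.LibSP52

theorem main4 :
    ∀ E : Set (EuclideanSpace ℝ (Fin 4)) → ℝ,
      E = (fun K : Set (EuclideanSpace ℝ (Fin 4)) =>
        (∫ x in K, ∫ y in K,
            gauge K ((gauge K x)⁻¹ • x - (gauge K y)⁻¹ • y)) /
          ((MeasureTheory.volume K).toReal ^ 2)) →
      {e : ℝ | ∃ K : Set (EuclideanSpace ℝ (Fin 4)),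
          Convex ℝ K ∧ IsCompact K ∧ (interior K).Nonempty ∧
          (∀ x ∈ K, -x ∈ K) ∧ e = E K} =
        Set.Icc (E (Metric.closedBall (0 : EuclideanSpace ℝ (Fin 4)) 1))
          (E {x : EuclideanSpace ℝ (Fin 4) |
              ∀ i : Fin 4, |EuclideanSpace.proj (𝕜 := ℝ) i x| ≤ 1}) ∧
      E (Metric.closedBall (0 : EuclideanSpace ℝ (Fin 4)) 1) = 64 / (15 * Real.pi) := by
  intro E hE
  obtain ⟨h1, h2⟩ := full_of_lower (d := 4) (by norm_num) (fun N hN => by rw [ball4]; exact lower4 hN) E hE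
  exact ⟨h1, by rw [h2, ball4]⟩

end Pool.Agent.LibSP93
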