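import Pool.Agent.LibSP93.Q5
import Pool.Agent.LibSP93.O1

/-!
[SP93 O3] PAPER PROOF.  `hh (hh F) η = ∫_ζ (∫_ω F ω ⟪ζ, ω⟫^4) ⟪η, ζ⟫^4 = ∫_ω F ω ∫_ζ ⟪ω, ζ⟫^4 ⟪η, ζ⟫^4` (`s4_swap`; the integrand in `ζ, ω` is
continuous), for `‖ω‖ = 1` (a.e., `s4_ae`) the inner integral is `z44`; the terms with `⟪ω,η⟫^2` and the constant vanish by `h.two`, `h.zero`.
-/

set_option autoImplicit false

open MeasureTheory Set

namespace Pool.Agent.LibSP93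

open Pool.Agent.LibSP74 Pool.Agent.LibSP52

theorem hh_hh {F : E 4 → ℝ} (h : Ort F) {η : E 4} (hη : ‖η‖ = 1) : hh (hh F) η = hh F η / 80 := by
  have hF := h.cont
  have e1 : hh (hh F) η =
      ∫ ζ, ∫ ω, F ω * inner ℝ ζ ω ^ 4 * inner ℝ η ζ ^ 4 ∂(sg 4) ∂(sg 4) := by
    have e0 : hh (hh F) η = ∫ ζ, hh F ζ * inner ℝ η ζ ^ 4 ∂(sg 4) := rfl
    rw [e0]
    refine integral_congr_ae (Filter.Eventually.of_forall fun ζ => ?_)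
    show (∫ ω, F ω * inner ℝ ζ ω ^ 4 ∂(sg 4)) * inner ℝ η ζ ^ 4 = _
    rw [← integral_mul_const]
  have e2 : ∫ ζ, ∫ ω, F ω * inner ℝ ζ ω ^ 4 * inner ℝ η ζ ^ 4 ∂(sg 4) ∂(sg 4) =
      ∫ ω, ∫ ζ, F ω * inner ℝ ζ ω ^ 4 * inner ℝ η ζ ^ 4 ∂(sg 4) ∂(sg 4) := by
    refine s4_swap (f := fun ζ ω => F ω * inner ℝ ζ ω ^ 4 * inner ℝ η ζ ^ 4) ?_
    show Continuous fun p : E 4 × E 4 => F p.2 * inner ℝ p.1 p.2 ^ 4 * inner ℝ η p.1 ^ 4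
    fun_prop
  have e3 : ∫ ω, ∫ ζ, F ω * inner ℝ ζ ω ^ 4 * inner ℝ η ζ ^ 4 ∂(sg 4) ∂(sg 4) =
      ∫ ω, (1 / 80 * (F ω * inner ℝ η ω ^ 4) + (72 / 1920 * (F ω * inner ℝ η ω ^ 2) +
        9 / 1920 * F ω)) ∂(sg 4) := by
    refine integral_congr_ae ?_
    filter_upwards [s4_ae] with ω hω
    have h1 : ∫ ζ, F ω * inner ℝ ζ ω ^ 4 * inner ℝ η ζ ^ 4 ∂(sg 4) =
        F ω * ∫ ζ, inner ℝ ω ζ ^ 4 * inner ℝ η ζ ^ 4 ∂(sg 4) := by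
      rw [← integral_const_mul]
      refine integral_congr_ae (Filter.Eventually.of_forall fun ζ => ?_)
      show F ω * inner ℝ ζ ω ^ 4 * inner ℝ η ζ ^ 4 = F ω * (inner ℝ ω ζ ^ 4 * inner ℝ η ζ ^ 4)
      rw [real_inner_comm ζ ω]
      ring
    rw [h1, z44 hω hη, real_inner_comm η ω]
    ring
  have i1 : Integrable (fun ω => 1 / 80 * (F ω * inner ℝ η ω ^ 4)) (sg 4) :=
    s4_int (by fun_prop)
  have i2 : Integrable (fun ω => 72 / 1920 * (F ω * inner ℝ η ω ^ 2)) (sg 4) :=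
    s4_int (by fun_prop)
  have i3 : Integrable (fun ω => 9 / 1920 * F ω) (sg 4) := s4_int (by fun_prop)
  have i4 : Integrable (fun ω => 72 / 1920 * (F ω * inner ℝ η ω ^ 2) + 9 / 1920 * F ω) (sg 4) :=
    i2.add i3
  rw [e1, e2, e3, integral_add i1 i4, integral_add i2 i3, integral_const_mul,
    integral_const_mul, integral_const_mul, h.two η, h.zero]
  unfold hh
  ring

end Pool.Agent.LibSP93
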