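import Pool.Agent.LibSP93.Q1

/-!
[SP93 Q2] The moments by Gaussian integrals.  PAPER PROOF.  `f z = |z 0|^i * z 1^(2j)` is continuous, nonnegative, homogeneous of degree
`k = i + 2j`: `radial_moment` (LibSP52/G1.lean, `d = 4`) gives
`∫ f z exp(-‖z‖²) = 4 vol(nrm 4) (∫_0^∞ r^(3+k) exp(-r²)) ∫ f ∂sg`, and `g1_moment` gives the radial integral `= 1/2 Gamma((k+4)/2)`.
The left side is a product of four integrals on the line (`EuclideanSpace.volume_preserving_measurableEquiv` or `..._symm_..`, and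
`integral_fintype_prod_eq_prod`): `∫ |x|^i e^(-x²) = Gamma((i+1)/2)`, `∫ x^(2j) e^(-x²) = Gamma(j+1/2)`, `∫ e^(-x²) = √π` twice.
The same for `i = j = 0` (`mo 0 0 = 1`) gives `4 vol(nrm 4) = 2 π²`.
-/

set_option autoImplicit false

open MeasureTheory Set

namespace Pool.Agent.LibSP93

open Pool.Agent.LibSP74 Pool.Agent.LibSP52

private lemma q2_abs (n : ℕ) : ∫ x : ℝ, |x| ^ n * Real.exp (-x ^ 2) = Real.Gamma (((n : ℝ) + 1) / 2) := by
  have h := integral_comp_abs (f := fun r : ℝ => r ^ n * Real.exp (-r ^ 2))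
  simp only [sq_abs] at h
  rw [h, g1_moment]
  ring

private lemma q2_even (j : ℕ) : ∫ x : ℝ, x ^ (2 * j) * Real.exp (-x ^ 2) = Real.Gamma ((j : ℝ) + 1 / 2) := by
  have h := q2_abs (2 * j)
  have h1 : ∀ x : ℝ, |x| ^ (2 * j) = x ^ (2 * j) := fun x => (even_two_mul j).pow_abs x
  simp only [h1] at h
  rw [h]
  congr 1
  push_cast
  ring

private lemma q2_gauss : ∫ x : ℝ, Real.exp (-x ^ 2) = Real.sqrt Real.pi := by
  have h := q2_even 0
  simp only [Nat.mul_zero, pow_zero, one_mul, Nat.cast_zero, zero_add] at h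
  rw [h, Real.Gamma_one_half_eq]

private noncomputable def q2_g (i j : ℕ) : Fin 4 → ℝ → ℝ :=
  ![fun x : ℝ => |x| ^ i * Real.exp (-x ^ 2), fun x : ℝ => x ^ (2 * j) * Real.exp (-x ^ 2),
    fun x : ℝ => Real.exp (-x ^ 2), fun x : ℝ => Real.exp (-x ^ 2)]

private lemma q2_line (i j : ℕ) :
    ∫ z : E 4, (|z 0| ^ i * z 1 ^ (2 * j)) * Real.exp (-‖z‖ ^ 2) =
      Real.Gamma (((i : ℝ) + 1) / 2) * Real.Gamma ((j : ℝ) + 1 / 2) * Real.pi := by
  have hmp := PiLp.volume_preserving_ofLp (Fin 4)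
  have e1 : ∀ z : E 4, (|z 0| ^ i * z 1 ^ (2 * j)) * Real.exp (-‖z‖ ^ 2) =
      ∏ a : Fin 4, q2_g i j a (WithLp.ofLp z a) := by
    intro z
    have hn : ‖z‖ ^ 2 = z 0 ^ 2 + z 1 ^ 2 + z 2 ^ 2 + z 3 ^ 2 := by
      rw [EuclideanSpace.real_norm_sq_eq, Fin.sum_univ_four]
    have hexp : Real.exp (-‖z‖ ^ 2) = Real.exp (-z 0 ^ 2) * Real.exp (-z 1 ^ 2) *
        Real.exp (-z 2 ^ 2) * Real.exp (-z 3 ^ 2) := by
      rw [hn, ← Real.exp_add, ← Real.exp_add, ← Real.exp_add]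
      congr 1
      ring
    rw [hexp, Fin.prod_univ_four]
    simp only [q2_g, Matrix.cons_val_zero, Matrix.cons_val_one, Matrix.cons_val]
    ring
  have e2 : ∫ z : E 4, (|z 0| ^ i * z 1 ^ (2 * j)) * Real.exp (-‖z‖ ^ 2) =
      ∫ z : E 4, (∏ a : Fin 4, q2_g i j a (WithLp.ofLp z a)) :=
    integral_congr_ae (Filter.Eventually.of_forall e1)
  have e3 : ∫ z : E 4, (∏ a : Fin 4, q2_g i j a (WithLp.ofLp z a)) =
      ∫ x : Fin 4 → ℝ, ∏ a : Fin 4, q2_g i j a (x a) :=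
    hmp.integral_comp (MeasurableEquiv.toLp 2 (Fin 4 → ℝ)).symm.measurableEmbedding
      (fun x : Fin 4 → ℝ => ∏ a : Fin 4, q2_g i j a (x a))
  rw [e2, e3, integral_fintype_prod_volume_eq_prod, Fin.prod_univ_four]
  simp only [q2_g, Matrix.cons_val_zero, Matrix.cons_val_one, Matrix.cons_val]
  rw [q2_abs, q2_even, q2_gauss]
  have hpi : Real.sqrt Real.pi * Real.sqrt Real.pi = Real.pi := Real.mul_self_sqrt Real.pi_pos.le
  linear_combination (Real.Gamma (((i : ℝ) + 1) / 2) * Real.Gamma ((j : ℝ) + 1 / 2)) * hpi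

private lemma q2_radial (i j : ℕ) :
    Real.Gamma (((i : ℝ) + 1) / 2) * Real.Gamma ((j : ℝ) + 1 / 2) * Real.pi =
      (4 : ℝ) * vol (nrm 4) * (1 / 2 * Real.Gamma (((i : ℝ) + 2 * j) / 2 + 2)) * mo i j := by
  have hf : Continuous fun z : E 4 => |z 0| ^ i * z 1 ^ (2 * j) := by fun_prop
  have h0 : ∀ z : E 4, 0 ≤ |z 0| ^ i * z 1 ^ (2 * j) := fun z =>
    mul_nonneg (pow_nonneg (abs_nonneg _) _) ((even_two_mul j).pow_nonneg _)
  have hk : ∀ r : ℝ, 0 < r → ∀ z : E 4, |(r • z) 0| ^ i * (r • z) 1 ^ (2 * j) =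
      r ^ (i + 2 * j) * (|z 0| ^ i * z 1 ^ (2 * j)) := by
    intro r hr z
    simp only [PiLp.smul_apply, smul_eq_mul, abs_mul, abs_of_pos hr, mul_pow, pow_add]
    ring
  have h := (radial_moment (d := 4) (by norm_num) hf h0 (i + 2 * j) hk).2
  rw [q2_line, g1_moment] at h
  rw [h]
  unfold mo
  have e : (((4 - 1 + (i + 2 * j) : ℕ) : ℝ) + 1) / 2 = ((i : ℝ) + 2 * j) / 2 + 2 := by
    push_cast
    ring
  rw [e]
  norm_num

theorem mo_gamma (i j : ℕ) :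
    mo i j = Real.Gamma (((i : ℝ) + 1) / 2) * Real.Gamma ((j : ℝ) + 1 / 2) /
      (Real.pi * Real.Gamma (((i : ℝ) + 2 * j) / 2 + 2)) := by
  have h1 := q2_radial i j
  have h2 := q2_radial 0 0
  have hm : mo 0 0 = 1 := by
    unfold mo
    simp
  have hG2 : Real.Gamma (2 : ℝ) = 1 := Real.Gamma_two
  have hG1 : Real.Gamma ((1 : ℝ) / 2) = Real.sqrt Real.pi := Real.Gamma_one_half_eq
  rw [hm] at h2
  simp only [Nat.cast_zero, zero_add, mul_zero, zero_div] at h2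
  rw [hG1, hG2, Real.mul_self_sqrt Real.pi_pos.le] at h2
  have hv : (4 : ℝ) * vol (nrm 4) = 2 * Real.pi * Real.pi := by linarith
  rw [hv] at h1
  have hG : 0 < Real.Gamma (((i : ℝ) + 2 * j) / 2 + 2) := Real.Gamma_pos_of_pos (by positivity)
  have hpi := Real.pi_pos
  rw [eq_div_iff (by positivity)]
  have h3 : Real.pi * (mo i j * (Real.pi * Real.Gamma (((i : ℝ) + 2 * j) / 2 + 2))) =
      Real.pi * (Real.Gamma (((i : ℝ) + 1) / 2) * Real.Gamma ((j : ℝ) + 1 / 2)) := by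
    linear_combination -h1
  exact mul_left_cancel₀ hpi.ne' h3

end Pool.Agent.LibSP93
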