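import Pool.Agent.LibSP93.Q2

/-!
[SP93 Q3] The values, from `mo_gamma`, `Real.Gamma_add_one`, `Real.Gamma_one_half_eq`, `Real.Gamma_nat_eq_factorial`
(`Gamma(n + 1/2) = (2n-1)!!/2^n √π`, `Real.Gamma_nat_add_half`, may help).
-/

set_option autoImplicit false

open MeasureTheory Set

namespace Pool.Agent.LibSP93

open Pool.Agent.LibSP74 Pool.Agent.LibSP52

private lemma q3_h1 : Real.Gamma (3 / 2) = 1 / 2 * Real.sqrt Real.pi := by
  rw [show (3 / 2 : ℝ) = 1 / 2 + 1 by norm_num, Real.Gamma_add_one (by norm_num), Real.Gamma_one_half_eq]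

private lemma q3_h2 : Real.Gamma (5 / 2) = 3 / 4 * Real.sqrt Real.pi := by
  rw [show (5 / 2 : ℝ) = 3 / 2 + 1 by norm_num, Real.Gamma_add_one (by norm_num), q3_h1]
  ring

private lemma q3_h3 : Real.Gamma (7 / 2) = 15 / 8 * Real.sqrt Real.pi := by
  rw [show (7 / 2 : ℝ) = 5 / 2 + 1 by norm_num, Real.Gamma_add_one (by norm_num), q3_h2]
  ring

private lemma q3_h4 : Real.Gamma (9 / 2) = 105 / 16 * Real.sqrt Real.pi := by
  rw [show (9 / 2 : ℝ) = 7 / 2 + 1 by norm_num, Real.Gamma_add_one (by norm_num), q3_h3]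
  ring

private lemma q3_h5 : Real.Gamma (11 / 2) = 945 / 32 * Real.sqrt Real.pi := by
  rw [show (11 / 2 : ℝ) = 9 / 2 + 1 by norm_num, Real.Gamma_add_one (by norm_num), q3_h4]
  ring

private lemma q3_h6 : Real.Gamma (13 / 2) = 10395 / 64 * Real.sqrt Real.pi := by
  rw [show (13 / 2 : ℝ) = 11 / 2 + 1 by norm_num, Real.Gamma_add_one (by norm_num), q3_h5]
  ring

private lemma q3_f (n : ℕ) (x : ℝ) (hx : x = n + 1) : Real.Gamma x = (n.factorial : ℝ) := by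
  rw [hx]
  exact Real.Gamma_nat_eq_factorial n

private lemma q3_sq : Real.sqrt Real.pi * Real.sqrt Real.pi = Real.pi := Real.mul_self_sqrt Real.pi_pos.le

/-- even case: value from the three gammas -/
private lemma q3_even {i j : ℕ} {a b c : ℝ} (h1 : Real.Gamma (((i : ℝ) + 1) / 2) = a * Real.sqrt Real.pi)
    (h2 : Real.Gamma ((j : ℝ) + 1 / 2) = b * Real.sqrt Real.pi)
    (h3 : Real.Gamma (((i : ℝ) + 2 * j) / 2 + 2) = c) : mo i j = a * b / c := by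
  rw [mo_gamma, h1, h2, h3]
  have h4 : a * Real.sqrt Real.pi * (b * Real.sqrt Real.pi) = Real.pi * (a * b) := by
    calc a * Real.sqrt Real.pi * (b * Real.sqrt Real.pi) = (Real.sqrt Real.pi * Real.sqrt Real.pi) * (a * b) := by ring
      _ = Real.pi * (a * b) := by rw [q3_sq]
  rw [h4, mul_div_mul_left _ _ Real.pi_ne_zero]

/-- odd case -/
private lemma q3_odd {i j : ℕ} {a b c : ℝ} (h1 : Real.Gamma (((i : ℝ) + 1) / 2) = a)
    (h2 : Real.Gamma ((j : ℝ) + 1 / 2) = b * Real.sqrt Real.pi)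
    (h3 : Real.Gamma (((i : ℝ) + 2 * j) / 2 + 2) = c * Real.sqrt Real.pi) : mo i j = a * b / (Real.pi * c) := by
  rw [mo_gamma, h1, h2, h3]
  have h5 : Real.sqrt Real.pi ≠ 0 := (Real.sqrt_pos.2 Real.pi_pos).ne'
  rw [show a * (b * Real.sqrt Real.pi) = (a * b) * Real.sqrt Real.pi by ring,
    show Real.pi * (c * Real.sqrt Real.pi) = (Real.pi * c) * Real.sqrt Real.pi by ring, mul_div_mul_right _ _ h5]

private lemma q3_g0 (x : ℝ) (hx : x = 1 / 2) : Real.Gamma x = 1 * Real.sqrt Real.pi := by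
  rw [hx, Real.Gamma_one_half_eq, one_mul]
private lemma q3_g1 (x : ℝ) (hx : x = 3 / 2) : Real.Gamma x = 1 / 2 * Real.sqrt Real.pi := by rw [hx, q3_h1]
private lemma q3_g2 (x : ℝ) (hx : x = 5 / 2) : Real.Gamma x = 3 / 4 * Real.sqrt Real.pi := by rw [hx, q3_h2]
private lemma q3_g3 (x : ℝ) (hx : x = 7 / 2) : Real.Gamma x = 15 / 8 * Real.sqrt Real.pi := by rw [hx, q3_h3]
private lemma q3_g4 (x : ℝ) (hx : x = 9 / 2) : Real.Gamma x = 105 / 16 * Real.sqrt Real.pi := by rw [hx, q3_h4]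
private lemma q3_g5 (x : ℝ) (hx : x = 11 / 2) : Real.Gamma x = 945 / 32 * Real.sqrt Real.pi := by rw [hx, q3_h5]
private lemma q3_g6 (x : ℝ) (hx : x = 13 / 2) : Real.Gamma x = 10395 / 64 * Real.sqrt Real.pi := by rw [hx, q3_h6]

private lemma q3_n1 (x : ℝ) (hx : x = 1) : Real.Gamma x = 1 := by rw [hx, Real.Gamma_one]
private lemma q3_n2 (x : ℝ) (hx : x = 2) : Real.Gamma x = 1 := by
  rw [q3_f 1 x (by rw [hx]; norm_num)]; norm_num [Nat.factorial]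
private lemma q3_n3 (x : ℝ) (hx : x = 3) : Real.Gamma x = 2 := by
  rw [q3_f 2 x (by rw [hx]; norm_num)]; norm_num [Nat.factorial]
private lemma q3_n4 (x : ℝ) (hx : x = 4) : Real.Gamma x = 6 := by
  rw [q3_f 3 x (by rw [hx]; norm_num)]; norm_num [Nat.factorial]
private lemma q3_n5 (x : ℝ) (hx : x = 5) : Real.Gamma x = 24 := by
  rw [q3_f 4 x (by rw [hx]; norm_num)]; norm_num [Nat.factorial]
private lemma q3_n6 (x : ℝ) (hx : x = 6) : Real.Gamma x = 120 := by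
  rw [q3_f 5 x (by rw [hx]; norm_num)]; norm_num [Nat.factorial]
private lemma q3_n7 (x : ℝ) (hx : x = 7) : Real.Gamma x = 720 := by
  rw [q3_f 6 x (by rw [hx]; norm_num)]; norm_num [Nat.factorial]
private lemma q3_n8 (x : ℝ) (hx : x = 8) : Real.Gamma x = 5040 := by
  rw [q3_f 7 x (by rw [hx]; norm_num)]; norm_num [Nat.factorial]

theorem mo_even : mo 0 0 = 1 ∧ mo 2 0 = 1 / 4 ∧ mo 4 0 = 1 / 8 ∧ mo 2 1 = 1 / 24 ∧ mo 0 1 = 1 / 4 ∧
    mo 0 2 = 1 / 8 := by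
  refine ⟨?_, ?_, ?_, ?_, ?_, ?_⟩
  · rw [q3_even (q3_g0 _ (by norm_num)) (q3_g0 _ (by norm_num)) (q3_n2 _ (by norm_num))]; norm_num
  · rw [q3_even (q3_g1 _ (by norm_num)) (q3_g0 _ (by norm_num)) (q3_n3 _ (by norm_num))]; norm_num
  · rw [q3_even (q3_g2 _ (by norm_num)) (q3_g0 _ (by norm_num)) (q3_n4 _ (by norm_num))]; norm_num
  · rw [q3_even (q3_g1 _ (by norm_num)) (q3_g1 _ (by norm_num)) (q3_n4 _ (by norm_num))]; norm_num
  · rw [q3_even (q3_g0 _ (by norm_num)) (q3_g1 _ (by norm_num)) (q3_n3 _ (by norm_num))]; norm_num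
  · rw [q3_even (q3_g0 _ (by norm_num)) (q3_g2 _ (by norm_num)) (q3_n4 _ (by norm_num))]; norm_num

theorem mo_even6 : mo 6 0 = 15 / 192 ∧ mo 4 1 = 3 / 192 ∧ mo 2 2 = 3 / 192 := by
  refine ⟨?_, ?_, ?_⟩
  · rw [q3_even (q3_g3 _ (by norm_num)) (q3_g0 _ (by norm_num)) (q3_n5 _ (by norm_num))]; norm_num
  · rw [q3_even (q3_g2 _ (by norm_num)) (q3_g1 _ (by norm_num)) (q3_n5 _ (by norm_num))]; norm_num
  · rw [q3_even (q3_g1 _ (by norm_num)) (q3_g2 _ (by norm_num)) (q3_n5 _ (by norm_num))]; norm_num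

theorem mo_even8 : mo 8 0 = 105 / 1920 ∧ mo 6 1 = 15 / 1920 ∧ mo 4 2 = 9 / 1920 := by
  refine ⟨?_, ?_, ?_⟩
  · rw [q3_even (q3_g4 _ (by norm_num)) (q3_g0 _ (by norm_num)) (q3_n6 _ (by norm_num))]; norm_num
  · rw [q3_even (q3_g3 _ (by norm_num)) (q3_g1 _ (by norm_num)) (q3_n6 _ (by norm_num))]; norm_num
  · rw [q3_even (q3_g2 _ (by norm_num)) (q3_g2 _ (by norm_num)) (q3_n6 _ (by norm_num))]; norm_num

theorem mo_even10 : mo 10 0 = 945 / 23040 ∧ mo 8 1 = 105 / 23040 ∧ mo 6 2 = 45 / 23040 := by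
  refine ⟨?_, ?_, ?_⟩
  · rw [q3_even (q3_g5 _ (by norm_num)) (q3_g0 _ (by norm_num)) (q3_n7 _ (by norm_num))]; norm_num
  · rw [q3_even (q3_g4 _ (by norm_num)) (q3_g1 _ (by norm_num)) (q3_n7 _ (by norm_num))]; norm_num
  · rw [q3_even (q3_g3 _ (by norm_num)) (q3_g2 _ (by norm_num)) (q3_n7 _ (by norm_num))]; norm_num

theorem mo_even12 : mo 12 0 = 10395 / 322560 ∧ mo 10 1 = 945 / 322560 ∧ mo 8 2 = 315 / 322560 ∧
    mo 6 3 = 225 / 322560 := by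
  refine ⟨?_, ?_, ?_, ?_⟩
  · rw [q3_even (q3_g6 _ (by norm_num)) (q3_g0 _ (by norm_num)) (q3_n8 _ (by norm_num))]; norm_num
  · rw [q3_even (q3_g5 _ (by norm_num)) (q3_g1 _ (by norm_num)) (q3_n8 _ (by norm_num))]; norm_num
  · rw [q3_even (q3_g4 _ (by norm_num)) (q3_g2 _ (by norm_num)) (q3_n8 _ (by norm_num))]; norm_num
  · rw [q3_even (q3_g3 _ (by norm_num)) (q3_g3 _ (by norm_num)) (q3_n8 _ (by norm_num))]; norm_num

theorem mo_odd : mo 1 0 = 4 / (3 * Real.pi) ∧ mo 3 0 = 8 / (15 * Real.pi) ∧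
    mo 5 0 = 32 / (105 * Real.pi) ∧ mo 7 0 = 64 / (315 * Real.pi) := by
  have hp := Real.pi_ne_zero
  refine ⟨?_, ?_, ?_, ?_⟩
  · rw [q3_odd (q3_n1 _ (by norm_num)) (q3_g0 _ (by norm_num)) (q3_g2 _ (by norm_num))]; field_simp
  · rw [q3_odd (q3_n2 _ (by norm_num)) (q3_g0 _ (by norm_num)) (q3_g3 _ (by norm_num))]; field_simp
  · rw [q3_odd (q3_n3 _ (by norm_num)) (q3_g0 _ (by norm_num)) (q3_g4 _ (by norm_num))]; field_simp; norm_num
  · rw [q3_odd (q3_n4 _ (by norm_num)) (q3_g0 _ (by norm_num)) (q3_g5 _ (by norm_num))]; field_simp; norm_num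

theorem mo_odd2 : mo 3 1 = 8 / (105 * Real.pi) ∧ mo 1 2 = 12 / (105 * Real.pi) ∧
    mo 5 1 = 32 / (945 * Real.pi) ∧ mo 3 2 = 8 / (315 * Real.pi) := by
  have hp := Real.pi_ne_zero
  refine ⟨?_, ?_, ?_, ?_⟩
  · rw [q3_odd (q3_n2 _ (by norm_num)) (q3_g1 _ (by norm_num)) (q3_g4 _ (by norm_num))]; field_simp; norm_num
  · rw [q3_odd (q3_n1 _ (by norm_num)) (q3_g2 _ (by norm_num)) (q3_g4 _ (by norm_num))]; field_simp; norm_num
  · rw [q3_odd (q3_n3 _ (by norm_num)) (q3_g1 _ (by norm_num)) (q3_g5 _ (by norm_num))]; field_simp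
  · rw [q3_odd (q3_n2 _ (by norm_num)) (q3_g2 _ (by norm_num)) (q3_g5 _ (by norm_num))]; field_simp; norm_num

end Pool.Agent.LibSP93
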