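import Pool.Agent.LibSP93.Q3
import Pool.Agent.LibSP93.Q4

/-!
[SP93 Q5] Polynomial zonal integrals, from `pair_mom` (`i = 0`) and the values in Q3 (`Finset.sum_range_succ`, `Nat.choose`, `ring`).
-/

set_option autoImplicit false

open MeasureTheory Set

namespace Pool.Agent.LibSP93

open Pool.Agent.LibSP74 Pool.Agent.LibSP52

theorem z33 {θ η : E 4} (hθ : ‖θ‖ = 1) (hη : ‖η‖ = 1) :
    ∫ ζ, inner ℝ θ ζ ^ 3 * inner ℝ η ζ ^ 3 ∂(sg 4) =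
      (6 * inner ℝ θ η ^ 3 + 9 * inner ℝ θ η) / 192 := by
  have h := pair_mom hθ hη 0 3 3 (by decide)
  simp only [pow_zero, one_mul] at h
  rw [h]
  obtain ⟨h1, h2, h3⟩ := mo_even6
  simp only [Finset.sum_range_succ, Finset.sum_range_zero, show (3 / 2 + 1 : ℕ) = 2 from rfl]
  norm_num [Nat.choose, h1, h2, h3]
  ring

theorem z24 {θ η : E 4} (hθ : ‖θ‖ = 1) (hη : ‖η‖ = 1) :
    ∫ ζ, inner ℝ θ ζ ^ 2 * inner ℝ η ζ ^ 4 ∂(sg 4) = (12 * inner ℝ θ η ^ 2 + 3) / 192 := by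
  have h := pair_mom hθ hη 0 2 4 (by decide)
  simp only [pow_zero, one_mul] at h
  rw [h]
  obtain ⟨h1, h2, h3⟩ := mo_even6
  simp only [Finset.sum_range_succ, Finset.sum_range_zero, show (4 / 2 + 1 : ℕ) = 3 from rfl]
  norm_num [Nat.choose, h1, h2, h3]
  ring

theorem z44 {θ η : E 4} (hθ : ‖θ‖ = 1) (hη : ‖η‖ = 1) :
    ∫ ζ, inner ℝ θ ζ ^ 4 * inner ℝ η ζ ^ 4 ∂(sg 4) =
      (24 * inner ℝ θ η ^ 4 + 72 * inner ℝ θ η ^ 2 + 9) / 1920 := by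
  have h := pair_mom hθ hη 0 4 4 (by decide)
  simp only [pow_zero, one_mul] at h
  rw [h]
  obtain ⟨h1, h2, h3⟩ := mo_even8
  simp only [Finset.sum_range_succ, Finset.sum_range_zero, show (4 / 2 + 1 : ℕ) = 3 from rfl]
  norm_num [Nat.choose, h1, h2, h3]
  ring

theorem z55 {θ η : E 4} (hθ : ‖θ‖ = 1) (hη : ‖η‖ = 1) :
    ∫ ζ, inner ℝ θ ζ ^ 5 * inner ℝ η ζ ^ 5 ∂(sg 4) =
      (120 * inner ℝ θ η ^ 5 + 600 * inner ℝ θ η ^ 3 + 225 * inner ℝ θ η) / 23040 := by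
  have h := pair_mom hθ hη 0 5 5 (by decide)
  simp only [pow_zero, one_mul] at h
  rw [h]
  obtain ⟨h1, h2, h3⟩ := mo_even10
  simp only [Finset.sum_range_succ, Finset.sum_range_zero, show (5 / 2 + 1 : ℕ) = 3 from rfl]
  norm_num [Nat.choose, h1, h2, h3]
  ring

theorem z66 {θ η : E 4} (hθ : ‖θ‖ = 1) (hη : ‖η‖ = 1) :
    ∫ ζ, inner ℝ θ ζ ^ 6 * inner ℝ η ζ ^ 6 ∂(sg 4) =
      (720 * inner ℝ θ η ^ 6 + 5400 * inner ℝ θ η ^ 4 + 4050 * inner ℝ θ η ^ 2 + 225) / 322560 := by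
  have h := pair_mom hθ hη 0 6 6 (by decide)
  simp only [pow_zero, one_mul] at h
  rw [h]
  obtain ⟨h1, h2, h3, h4⟩ := mo_even12
  simp only [Finset.sum_range_succ, Finset.sum_range_zero, show (6 / 2 + 1 : ℕ) = 4 from rfl]
  norm_num [Nat.choose, h1, h2, h3, h4]
  ring

theorem z04 {θ : E 4} (hθ : ‖θ‖ = 1) : ∫ ζ, inner ℝ θ ζ ^ 4 ∂(sg 4) = 1 / 8 := by
  have h := pair_mom hθ hθ 0 4 0 (by decide)
  simp only [pow_zero, one_mul, mul_one] at h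
  rw [h]
  obtain ⟨-, -, h3, -⟩ := mo_even
  simp only [Finset.sum_range_succ, Finset.sum_range_zero, show (0 / 2 + 1 : ℕ) = 1 from rfl]
  norm_num [Nat.choose, h3]

end Pool.Agent.LibSP93
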