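import Pool.Agent.LibSP93.Q6
import Pool.Agent.LibSP93.T2

/-!
[SP93 Q7] The kernel applied to `⟪η, ζ⟫^4`.  PAPER PROOF.  `s = ⟪θ, η⟫`, `t = ⟪θ, ζ⟫`, `w = ⟪η, ζ⟫`.  Let `X = ∫ (w^4 |t| t) • ζ`.  CLAIM
`X = a θ + b η`, `945 π b = 32 s³ + 96 s`, `945 π a = -8 s⁴ + 48 s² + 24`.  For a vector `u` orthogonal to `θ` and `η`: `⟪X, u⟫ = 0` (`s4_perp`);
`⟪X, θ⟫ = z34 = a + b s`, `⟪X, η⟫ = z25 = a s + b`.  Every vector is a combination of `θ`, `η` and a vector orthogonal to both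
(orthogonal projection to `span {θ, η}`, `Submodule.mem_span_pair`), so `⟪X - a θ - b η, u⟫ = 0` for all `u`.
Then the integral is `6 X - 2 z14 θ`.
-/

set_option autoImplicit false

open MeasureTheory Set

namespace Pool.Agent.LibSP93

open Pool.Agent.LibSP74 Pool.Agent.LibSP52

private lemma q7_inner (θ η u : E 4) :
    inner ℝ u (∫ ζ, (inner ℝ η ζ ^ 4 * (|inner ℝ θ ζ| * inner ℝ θ ζ)) • ζ ∂(sg 4)) =
      ∫ ζ, (inner ℝ η ζ ^ 4 * (|inner ℝ θ ζ| * inner ℝ θ ζ)) * inner ℝ u ζ ∂(sg 4) := by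
  have hc : Continuous fun ζ : E 4 => (inner ℝ η ζ ^ 4 * (|inner ℝ θ ζ| * inner ℝ θ ζ)) • ζ := by
    fun_prop
  rw [← integral_inner (s4_int hc) u]
  refine integral_congr_ae (Filter.Eventually.of_forall fun ζ => ?_)
  simp only [inner_smul_right]

private lemma q7_X {θ η : E 4} (hθ : ‖θ‖ = 1) (hη : ‖η‖ = 1) :
    ∫ ζ, (inner ℝ η ζ ^ 4 * (|inner ℝ θ ζ| * inner ℝ θ ζ)) • ζ ∂(sg 4) =
      ((-8 * inner ℝ θ η ^ 4 + 48 * inner ℝ θ η ^ 2 + 24) / (945 * Real.pi)) • θ +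
        ((32 * inner ℝ θ η ^ 3 + 96 * inner ℝ θ η) / (945 * Real.pi)) • η := by
  have hpi : Real.pi ≠ 0 := Real.pi_ne_zero
  have hθθ : inner ℝ θ θ = (1 : ℝ) := by rw [real_inner_self_eq_norm_sq, hθ]; norm_num
  have hηη : inner ℝ η η = (1 : ℝ) := by rw [real_inner_self_eq_norm_sq, hη]; norm_num
  have hηθ : inner ℝ η θ = (inner ℝ θ η : ℝ) := real_inner_comm _ _
  have hXθ : inner ℝ θ (∫ ζ, (inner ℝ η ζ ^ 4 * (|inner ℝ θ ζ| * inner ℝ θ ζ)) • ζ ∂(sg 4)) =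
      (24 * inner ℝ θ η ^ 4 + 144 * inner ℝ θ η ^ 2 + 24) / (945 * Real.pi) := by
    rw [q7_inner, ← z34 hθ hη]
    refine integral_congr_ae (Filter.Eventually.of_forall fun ζ => ?_)
    have h := sq_abs (inner ℝ θ ζ : ℝ)
    simp only
    linear_combination (-(|inner ℝ θ ζ| * inner ℝ η ζ ^ 4)) * h
  have hXη : inner ℝ η (∫ ζ, (inner ℝ η ζ ^ 4 * (|inner ℝ θ ζ| * inner ℝ θ ζ)) • ζ ∂(sg 4)) =
      (-8 * inner ℝ θ η ^ 5 + 80 * inner ℝ θ η ^ 3 + 120 * inner ℝ θ η) / (945 * Real.pi) := by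
    rw [q7_inner, ← z25 hθ hη]
    refine integral_congr_ae (Filter.Eventually.of_forall fun ζ => ?_)
    simp only
    ring
  have hXu : ∀ u : E 4, inner ℝ θ u = (0 : ℝ) → inner ℝ η u = (0 : ℝ) →
      inner ℝ u (∫ ζ, (inner ℝ η ζ ^ 4 * (|inner ℝ θ ζ| * inner ℝ θ ζ)) • ζ ∂(sg 4)) =
        (0 : ℝ) := by
    intro u h1 h2
    rw [q7_inner]
    exact s4_perp (g := fun t w => w ^ 4 * (|t| * t)) h1 h2 (by unfold Function.uncurry; fun_prop)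
  set X : E 4 := ∫ ζ, (inner ℝ η ζ ^ 4 * (|inner ℝ θ ζ| * inner ℝ θ ζ)) • ζ ∂(sg 4) with hX
  set a : ℝ := (-8 * inner ℝ θ η ^ 4 + 48 * inner ℝ θ η ^ 2 + 24) / (945 * Real.pi) with ha
  set b : ℝ := (32 * inner ℝ θ η ^ 3 + 96 * inner ℝ θ η) / (945 * Real.pi) with hb
  have h1 : inner ℝ θ (X - (a • θ + b • η)) = (0 : ℝ) := by
    rw [inner_sub_right, inner_add_right, inner_smul_right, inner_smul_right, hXθ, hθθ, ha, hb]
    field_simp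
    ring
  have h2 : inner ℝ η (X - (a • θ + b • η)) = (0 : ℝ) := by
    rw [inner_sub_right, inner_add_right, inner_smul_right, inner_smul_right, hXη, hηη, hηθ, ha, hb]
    field_simp
    ring
  have h3 : inner ℝ (X - (a • θ + b • η)) (X - (a • θ + b • η)) = (0 : ℝ) := by
    have h4 := hXu _ h1 h2
    have h5 : inner ℝ (X - (a • θ + b • η)) (a • θ + b • η) = (0 : ℝ) := by
      have h7 : inner ℝ (X - (a • θ + b • η)) θ = (0 : ℝ) := by rw [real_inner_comm]; exact h1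
      have h8 : inner ℝ (X - (a • θ + b • η)) η = (0 : ℝ) := by rw [real_inner_comm]; exact h2
      rw [inner_add_right, inner_smul_right, inner_smul_right, h7, h8]
      simp
    rw [inner_sub_right, h4, h5, sub_zero]
  have h6 := inner_self_eq_zero.mp h3
  exact sub_eq_zero.mp h6

theorem vec44 {θ η : E 4} (hθ : ‖θ‖ = 1) (hη : ‖η‖ = 1) :
    ∫ ζ, (inner ℝ η ζ ^ 4) • kk θ ζ ∂(sg 4) =
      ((24 * inner ℝ θ η ^ 4 - 144 * inner ℝ θ η ^ 2 - 72) / (945 * Real.pi)) • θ +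
        ((192 * inner ℝ θ η ^ 3 + 576 * inner ℝ θ η) / (945 * Real.pi)) • η := by
  have hpi : Real.pi ≠ 0 := Real.pi_ne_zero
  have hX := q7_X hθ hη
  have hZ := z14 hθ hη
  have hc1 : Continuous fun ζ : E 4 => (inner ℝ η ζ ^ 4 * (|inner ℝ θ ζ| * inner ℝ θ ζ)) • ζ := by
    fun_prop
  have hc2 : Continuous fun ζ : E 4 => |inner ℝ θ ζ| * inner ℝ η ζ ^ 4 := by
    fun_prop
  have h0 : ∀ ζ : E 4, (inner ℝ η ζ ^ 4) • kk θ ζ =
      (6 : ℝ) • ((inner ℝ η ζ ^ 4 * (|inner ℝ θ ζ| * inner ℝ θ ζ)) • ζ) -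
        (|inner ℝ θ ζ| * inner ℝ η ζ ^ 4) • ((2 : ℝ) • θ) := by
    intro ζ
    unfold kk
    module
  have i1 : Integrable (fun ζ : E 4 =>
      (6 : ℝ) • ((inner ℝ η ζ ^ 4 * (|inner ℝ θ ζ| * inner ℝ θ ζ)) • ζ)) (sg 4) :=
    s4_int (by fun_prop)
  have i2 : Integrable (fun ζ : E 4 => (|inner ℝ θ ζ| * inner ℝ η ζ ^ 4) • ((2 : ℝ) • θ)) (sg 4) :=
    s4_int (hc2.smul continuous_const)
  simp_rw [h0]
  rw [integral_sub i1 i2, integral_smul, integral_smul_const, hX, hZ]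
  match_scalars
  · field_simp
    ring
  · field_simp
    ring

end Pool.Agent.LibSP93
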