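import Pool.Agent.LibSP93.Q7
import Pool.Agent.LibSP93.O2
import Pool.Agent.LibSP93.O1

/-!
[SP93 S1] PAPER PROOF.  `BB (hh F) θ = ∫_ζ (∫_ω F ω ⟪ζ, ω⟫^4) • kk θ ζ = ∫_ω F ω • ∫_ζ ⟪ω, ζ⟫^4 • kk θ ζ` (`s4_swap`), by `vec44` for a.e. `ω`
`= (1/(945 π)) ∫_ω F ω • ((24 s⁴ - 144 s² - 72) θ + (192 s³ + 576 s) ω)`, `s = ⟪θ, ω⟫`; `∫ F s² = 0`, `∫ F = 0`, and `∫ F s • ω = 0` (its inner
product with every vector is zero by `Ort.pol`).  `24/945 = 8/315`, `192/945 = 8/315 * 8`.
-/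

set_option autoImplicit false

open MeasureTheory Set

namespace Pool.Agent.LibSP93

open Pool.Agent.LibSP74 Pool.Agent.LibSP52

theorem BB_hh {F : E 4 → ℝ} (h : Ort F) {θ : E 4} (hθ : ‖θ‖ = 1) :
    BB (hh F) θ = (8 / (315 * Real.pi)) • (hh F θ • θ + (8 : ℝ) • vv F θ) := by
  have hF : Continuous F := h.cont
  have hpi : Real.pi ≠ 0 := Real.pi_ne_zero
  -- Step 1: exchange of the integrals
  have e1 : BB (hh F) θ =
      ∫ ω, (∫ ζ, (F ω * inner ℝ ζ ω ^ 4) • kk θ ζ ∂(sg 4)) ∂(sg 4) := by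
    have h1 : BB (hh F) θ = ∫ ζ, (∫ ω, (F ω * inner ℝ ζ ω ^ 4) • kk θ ζ ∂(sg 4)) ∂(sg 4) := by
      unfold BB hh
      refine integral_congr_ae (Filter.Eventually.of_forall fun ζ => ?_)
      exact (integral_smul_const (fun ω => F ω * inner ℝ ζ ω ^ 4) (kk θ ζ)).symm
    rw [h1]
    refine s4_swap ?_
    have hp : Continuous (fun p : E 4 × E 4 => (θ, p.1)) := continuous_const.prodMk continuous_fst
    have hk : Continuous fun p : E 4 × E 4 => Function.uncurry kk (θ, p.1) := continuous_kk.comp hp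
    simp only [Function.uncurry_apply_pair] at hk
    have hs : Continuous fun p : E 4 × E 4 => F p.2 * inner ℝ p.1 p.2 ^ 4 :=
      (hF.comp continuous_snd).mul ((continuous_fst.inner continuous_snd).pow 4)
    exact hs.smul hk
  -- Step 2: the inner integral
  have e2 : (∫ ω, (∫ ζ, (F ω * inner ℝ ζ ω ^ 4) • kk θ ζ ∂(sg 4)) ∂(sg 4)) =
      ∫ ω, ((F ω * ((24 * inner ℝ θ ω ^ 4 - 144 * inner ℝ θ ω ^ 2 - 72) / (945 * Real.pi))) • θ +
        (F ω * ((192 * inner ℝ θ ω ^ 3 + 576 * inner ℝ θ ω) / (945 * Real.pi))) • ω) ∂(sg 4) := by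
    refine integral_congr_ae ?_
    filter_upwards [s4_ae] with ω hω
    have h2 : (fun ζ : E 4 => (F ω * inner ℝ ζ ω ^ 4) • kk θ ζ) =
        fun ζ : E 4 => F ω • ((inner ℝ ω ζ ^ 4) • kk θ ζ) := by
      funext ζ
      rw [smul_smul, real_inner_comm]
    rw [h2, integral_smul, vec44 hθ hω, smul_add, smul_smul, smul_smul]
  -- Step 3: integrability
  have hin : Continuous fun ω : E 4 => (inner ℝ θ ω : ℝ) := continuous_const.inner continuous_id
  have i4 : Integrable (fun ω : E 4 => F ω * inner ℝ θ ω ^ 4) (sg 4) := s4_int (hF.mul (hin.pow 4))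
  have i2 : Integrable (fun ω : E 4 => F ω * inner ℝ θ ω ^ 2) (sg 4) := s4_int (hF.mul (hin.pow 2))
  have i0 : Integrable F (sg 4) := s4_int hF
  have iv : Integrable (fun ω : E 4 => (F ω * inner ℝ θ ω ^ 3) • ω) (sg 4) :=
    s4_int ((hF.mul (hin.pow 3)).smul continuous_id)
  have i1 : Integrable (fun ω : E 4 => (F ω * inner ℝ θ ω) • ω) (sg 4) :=
    s4_int ((hF.mul hin).smul continuous_id)
  -- Step 4: the first moment vanishes
  have hz : (∫ ω, (F ω * inner ℝ θ ω) • ω ∂(sg 4) : E 4) = 0 := by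
    obtain ⟨w, hw⟩ : ∃ w : E 4, w = ∫ ω, (F ω * inner ℝ θ ω) • ω ∂(sg 4) := ⟨_, rfl⟩
    have h3 : inner ℝ w w = (0 : ℝ) := by
      have h4 : (inner ℝ w (∫ ω, (F ω * inner ℝ θ ω) • ω ∂(sg 4)) : ℝ) = 0 := by
        rw [← integral_inner i1 w, ← h.pol θ w]
        refine integral_congr_ae (Filter.Eventually.of_forall fun ω => ?_)
        simp only [real_inner_smul_right]
        ring
      rw [← hw] at h4
      exact h4
    rw [← hw]
    exact inner_self_eq_zero.mp h3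
  -- Step 5: evaluation
  have e3 : (∫ ω, (F ω * ((24 * inner ℝ θ ω ^ 4 - 144 * inner ℝ θ ω ^ 2 - 72) /
      (945 * Real.pi))) • θ ∂(sg 4) : E 4) = ((8 / (315 * Real.pi)) * hh F θ) • θ := by
    rw [integral_smul_const]
    congr 1
    have h5 : (fun ω : E 4 => F ω * ((24 * inner ℝ θ ω ^ 4 - 144 * inner ℝ θ ω ^ 2 - 72) /
        (945 * Real.pi))) = fun ω : E 4 => (24 / (945 * Real.pi)) * (F ω * inner ℝ θ ω ^ 4) -
        (144 / (945 * Real.pi)) * (F ω * inner ℝ θ ω ^ 2) - (72 / (945 * Real.pi)) * F ω := by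
      funext ω
      ring
    have j4 : Integrable (fun ω : E 4 => (24 / (945 * Real.pi)) * (F ω * inner ℝ θ ω ^ 4)) (sg 4) :=
      i4.const_mul _
    have j2 : Integrable (fun ω : E 4 => (144 / (945 * Real.pi)) * (F ω * inner ℝ θ ω ^ 2)) (sg 4) :=
      i2.const_mul _
    have j0 : Integrable (fun ω : E 4 => (72 / (945 * Real.pi)) * F ω) (sg 4) := i0.const_mul _
    have j42 : Integrable (fun ω : E 4 => (24 / (945 * Real.pi)) * (F ω * inner ℝ θ ω ^ 4) -
      (144 / (945 * Real.pi)) * (F ω * inner ℝ θ ω ^ 2)) (sg 4) := j4.sub j2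
    rw [h5, integral_sub j42 j0, integral_sub j4 j2, integral_const_mul, integral_const_mul,
      integral_const_mul, h.two θ, h.zero]
    have h6 : (∫ ω, F ω * inner ℝ θ ω ^ 4 ∂(sg 4)) = hh F θ := rfl
    rw [h6]
    field_simp
    ring
  have e4 : (∫ ω, (F ω * ((192 * inner ℝ θ ω ^ 3 + 576 * inner ℝ θ ω) /
      (945 * Real.pi))) • ω ∂(sg 4) : E 4) = ((8 / (315 * Real.pi)) * 8) • vv F θ := by
    have h7 : (fun ω : E 4 => (F ω * ((192 * inner ℝ θ ω ^ 3 + 576 * inner ℝ θ ω) /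
        (945 * Real.pi))) • ω) = fun ω : E 4 => (192 / (945 * Real.pi)) •
        ((F ω * inner ℝ θ ω ^ 3) • ω) + (576 / (945 * Real.pi)) • ((F ω * inner ℝ θ ω) • ω) := by
      funext ω
      rw [smul_smul, smul_smul, ← add_smul]
      congr 1
      ring
    have c3 : Continuous fun ω : E 4 => (F ω * inner ℝ θ ω ^ 3) • ω :=
      (hF.mul (hin.pow 3)).smul continuous_id
    have i3' : Integrable (fun ω : E 4 => (192 / (945 * Real.pi)) •
        ((F ω * inner ℝ θ ω ^ 3) • ω)) (sg 4) :=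
      s4_int ((continuous_const (y := (192 / (945 * Real.pi) : ℝ))).smul c3)
    have i1' : Integrable (fun ω : E 4 => (576 / (945 * Real.pi)) •
        ((F ω * inner ℝ θ ω) • ω)) (sg 4) :=
      s4_int ((continuous_const (y := (576 / (945 * Real.pi) : ℝ))).smul
        ((hF.mul hin).smul continuous_id))
    rw [h7, integral_add i3' i1', integral_smul, integral_smul, hz, smul_zero, add_zero]
    have h8 : (∫ ω, (F ω * inner ℝ θ ω ^ 3) • ω ∂(sg 4) : E 4) = vv F θ := rfl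
    rw [h8]
    congr 1
    field_simp
    norm_num
  have ia : Integrable (fun ω : E 4 => (F ω * ((24 * inner ℝ θ ω ^ 4 - 144 * inner ℝ θ ω ^ 2 -
      72) / (945 * Real.pi))) • θ) (sg 4) :=
    s4_int ((hF.mul ((((continuous_const.mul (hin.pow 4)).sub (continuous_const.mul
      (hin.pow 2))).sub continuous_const).div_const _)).smul continuous_const)
  have ib : Integrable (fun ω : E 4 => (F ω * ((192 * inner ℝ θ ω ^ 3 + 576 * inner ℝ θ ω) /
      (945 * Real.pi))) • ω) (sg 4) :=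
    s4_int ((hF.mul (((continuous_const.mul (hin.pow 3)).add (continuous_const.mul
      hin)).div_const _)).smul continuous_id)
  rw [e1, e2, integral_add ia ib, e3, e4, smul_add, smul_smul, smul_smul]

end Pool.Agent.LibSP93
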