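import Pool.Agent.LibSP93.S1
import Pool.Agent.LibSP93.S2

/-!
[SP93 S3] From S1, S2: for a.e. `θ` (`‖θ‖ = 1`) `‖BB (hh F) θ‖² = (8/(315π))² (h² + 16 h² + 64 ‖vv F θ‖²)`, `17 + 64 * 5/2 = 177`.
-/

set_option autoImplicit false

open MeasureTheory Set

namespace Pool.Agent.LibSP93

open Pool.Agent.LibSP74 Pool.Agent.LibSP52

private theorem S3_norm {F : E 4 → ℝ} (h : Ort F) {θ : E 4} (hθ : ‖θ‖ = 1) :
    ‖BB (hh F) θ‖ ^ 2 =
      (8 / (315 * Real.pi)) ^ 2 * (17 * hh F θ ^ 2 + 64 * ‖vv F θ‖ ^ 2) := by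
  have h1 : ‖hh F θ • θ + (8 : ℝ) • vv F θ‖ ^ 2 = 17 * hh F θ ^ 2 + 64 * ‖vv F θ‖ ^ 2 := by
    rw [norm_add_sq_real, norm_smul, norm_smul, hθ, inner_smul_left, inner_smul_right,
      inner_vv_self h.cont θ, mul_one, Real.norm_eq_abs, Real.norm_eq_abs, mul_pow, sq_abs, sq_abs]
    simp only [conj_trivial]
    ring
  rw [BB_hh h hθ, norm_smul, mul_pow, h1, Real.norm_eq_abs, sq_abs]

theorem BB_hh_sq {F : E 4 → ℝ} (h : Ort F) :
    ∫ θ, ‖BB (hh F) θ‖ ^ 2 ∂(sg 4) =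
      177 * (8 / (315 * Real.pi)) ^ 2 * ∫ θ, hh F θ ^ 2 ∂(sg 4) := by
  have hc : Continuous fun θ : E 4 => hh F θ ^ 2 := (continuous_hh h.cont).pow 2
  have hv : Continuous fun θ : E 4 => ‖vv F θ‖ ^ 2 := (continuous_vv h.cont).norm.pow 2
  have h1 : ∫ θ, ‖BB (hh F) θ‖ ^ 2 ∂(sg 4) =
      ∫ θ, (8 / (315 * Real.pi)) ^ 2 * (17 * hh F θ ^ 2 + 64 * ‖vv F θ‖ ^ 2) ∂(sg 4) := by
    apply integral_congr_ae
    filter_upwards [s4_ae] with θ hθ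
    exact S3_norm h hθ
  rw [h1, integral_const_mul, integral_add ((s4_int hc).const_mul 17) ((s4_int hv).const_mul 64),
    integral_const_mul, integral_const_mul, vv_sq h]
  ring

end Pool.Agent.LibSP93
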