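import Pool.Agent.LibSP93.O2
import Pool.Agent.LibSP93.O1

/-!
[SP93 S5a] PAPER PROOF.  `kk θ ζ = kr θ ζ + (t + 35/4 t³ - 9/2 t⁵) ζ - (1/5 + 15/4 t² - 5/2 t⁴) θ`, `t = ⟪θ, ζ⟫`.  Integrate against `G`:
`∫ G t • ζ = 0` (`Ort.pol`), `∫ G t³ • ζ = 0` (`Ort4.pol4`; test with all vectors), `∫ G = ∫ G t² = ∫ G t⁴ = 0`.
-/

set_option autoImplicit false

open MeasureTheory Set

namespace Pool.Agent.LibSP93

open Pool.Agent.LibSP74 Pool.Agent.LibSP52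

private theorem S5a_test {f : E 4 → ℝ} (hf : Continuous f)
    (h : ∀ v : E 4, ∫ ζ, f ζ * inner ℝ v ζ ∂(sg 4) = 0) : ∫ ζ, f ζ • ζ ∂(sg 4) = 0 := by
  have hi : Integrable (fun ζ : E 4 => f ζ • ζ) (sg 4) := s4_int (by fun_prop)
  refine ext_inner_left ℝ fun v => ?_
  rw [inner_zero_right, ← integral_inner hi v, ← h v]
  refine integral_congr_ae (Filter.Eventually.of_forall fun ζ => ?_)
  change inner ℝ v (f ζ • ζ) = f ζ * inner ℝ v ζ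
  rw [real_inner_smul_right]

theorem BB_split {G : E 4 → ℝ} (h : Ort4 G) (θ : E 4) :
    BB G θ = (∫ ζ, G ζ • kr θ ζ ∂(sg 4)) +
      (-(9 / 2 : ℝ)) • ∫ ζ, (G ζ * inner ℝ θ ζ ^ 5) • ζ ∂(sg 4) := by
  have hG : Continuous G := h.cont
  have hkr : Continuous (kr θ) := Continuous.uncurry_left θ continuous_kr
  have i0 : Integrable (fun ζ : E 4 => G ζ • kr θ ζ) (sg 4) := s4_int (hG.smul hkr)
  have i1 : Integrable (fun ζ : E 4 => (G ζ * inner ℝ θ ζ) • ζ) (sg 4) := s4_int (by fun_prop)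
  have i3 : Integrable (fun ζ : E 4 => (35 / 4 : ℝ) • ((G ζ * inner ℝ θ ζ ^ 3) • ζ)) (sg 4) :=
    s4_int (by fun_prop)
  have i5 : Integrable (fun ζ : E 4 => (-(9 / 2 : ℝ)) • ((G ζ * inner ℝ θ ζ ^ 5) • ζ)) (sg 4) :=
    s4_int (by fun_prop)
  have j0 : Integrable (fun ζ : E 4 => -(1 / 5 : ℝ) * G ζ) (sg 4) := s4_int (by fun_prop)
  have j2 : Integrable (fun ζ : E 4 => (15 / 4 : ℝ) * (G ζ * inner ℝ θ ζ ^ 2)) (sg 4) :=
    s4_int (by fun_prop)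
  have j4 : Integrable (fun ζ : E 4 => (5 / 2 : ℝ) * (G ζ * inner ℝ θ ζ ^ 4)) (sg 4) :=
    s4_int (by fun_prop)
  have z1 : ∫ ζ, (G ζ * inner ℝ θ ζ) • ζ ∂(sg 4) = 0 := by
    refine S5a_test (f := fun ζ => G ζ * inner ℝ θ ζ) (by fun_prop) fun v => ?_
    rw [← h.toOrt.pol θ v]
    refine integral_congr_ae (Filter.Eventually.of_forall fun ζ => ?_)
    change G ζ * inner ℝ θ ζ * inner ℝ v ζ = G ζ * (inner ℝ θ ζ * inner ℝ v ζ)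
    ring
  have z3 : ∫ ζ, (G ζ * inner ℝ θ ζ ^ 3) • ζ ∂(sg 4) = 0 := by
    refine S5a_test (f := fun ζ => G ζ * inner ℝ θ ζ ^ 3) (by fun_prop) fun v => ?_
    rw [← h.pol4 θ v]
    refine integral_congr_ae (Filter.Eventually.of_forall fun ζ => ?_)
    change G ζ * inner ℝ θ ζ ^ 3 * inner ℝ v ζ = G ζ * (inner ℝ θ ζ ^ 3 * inner ℝ v ζ)
    ring
  have zt : ∫ ζ, (-(1 / 5 : ℝ) * G ζ - (15 / 4 : ℝ) * (G ζ * inner ℝ θ ζ ^ 2) +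
      (5 / 2 : ℝ) * (G ζ * inner ℝ θ ζ ^ 4)) ∂(sg 4) = 0 := by
    have j02 : Integrable (fun ζ : E 4 => -(1 / 5 : ℝ) * G ζ -
        (15 / 4 : ℝ) * (G ζ * inner ℝ θ ζ ^ 2)) (sg 4) := j0.sub j2
    rw [integral_add j02 j4, integral_sub j0 j2, integral_const_mul, integral_const_mul,
      integral_const_mul, h.zero, h.two θ, h.four θ]
    ring
  have jt : Integrable (fun ζ : E 4 => (-(1 / 5 : ℝ) * G ζ - (15 / 4 : ℝ) * (G ζ * inner ℝ θ ζ ^ 2) +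
      (5 / 2 : ℝ) * (G ζ * inner ℝ θ ζ ^ 4)) • θ) (sg 4) := s4_int (by fun_prop)
  have hpt : ∀ ζ : E 4, G ζ • kk θ ζ = G ζ • kr θ ζ + (-(9 / 2 : ℝ)) • ((G ζ * inner ℝ θ ζ ^ 5) • ζ) +
      ((G ζ * inner ℝ θ ζ) • ζ + (35 / 4 : ℝ) • ((G ζ * inner ℝ θ ζ ^ 3) • ζ) +
        (-(1 / 5 : ℝ) * G ζ - (15 / 4 : ℝ) * (G ζ * inner ℝ θ ζ ^ 2) +
          (5 / 2 : ℝ) * (G ζ * inner ℝ θ ζ ^ 4)) • θ) := by
    intro ζ
    unfold kk kr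
    module
  have i05 : Integrable (fun ζ : E 4 => G ζ • kr θ ζ +
      (-(9 / 2 : ℝ)) • ((G ζ * inner ℝ θ ζ ^ 5) • ζ)) (sg 4) := i0.add i5
  have i13 : Integrable (fun ζ : E 4 => (G ζ * inner ℝ θ ζ) • ζ +
      (35 / 4 : ℝ) • ((G ζ * inner ℝ θ ζ ^ 3) • ζ)) (sg 4) := i1.add i3
  have i13t : Integrable (fun ζ : E 4 => (G ζ * inner ℝ θ ζ) • ζ +
      (35 / 4 : ℝ) • ((G ζ * inner ℝ θ ζ ^ 3) • ζ) +
      (-(1 / 5 : ℝ) * G ζ - (15 / 4 : ℝ) * (G ζ * inner ℝ θ ζ ^ 2) +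
          (5 / 2 : ℝ) * (G ζ * inner ℝ θ ζ ^ 4)) • θ) (sg 4) := i13.add jt
  unfold BB
  rw [integral_congr_ae (Filter.Eventually.of_forall hpt), integral_add i05 i13t,
    integral_add i0 i5, integral_add i13 jt, integral_add i1 i3, integral_smul, integral_smul,
    z1, z3, integral_smul_const, zt]
  simp

end Pool.Agent.LibSP93
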